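import Pool.Agent.T6.H83.RM.Con7

/-!
# The abstract situation: energies and good parts
-/

set_option autoImplicit false
set_option linter.unusedSectionVars false
set_option linter.unusedVariables false

namespace Pool.Agent.T6.H83.SH

open Finset
open Pool.Agent.T6.H83.RM

variable {α ι Φ : Type*} [DecidableEq α] [DecidableEq ι]

/-- the value of a kernel at the weights `|Q|` on `P` and `-|P|` on `Q` -/
noncomputable def fm (E : α → α → ℝ) (P Q : Finset α) : ℝ :=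
  (Q.card : ℝ) ^ 2 * en E P + (P.card : ℝ) ^ 2 * en E Q - 2 * P.card * Q.card * cr E P Q

lemma en_addfun (E E' : α → α → ℝ) (B : Finset α) :
    en (fun x y => E x y + E' x y) B = en E B + en E' B := by
  unfold en
  rw [← sum_add_distrib]
  exact sum_congr rfl fun x _ => sum_add_distrib

lemma cr_addfun (E E' : α → α → ℝ) (B C : Finset α) :
    cr (fun x y => E x y + E' x y) B C = cr E B C + cr E' B C := by
  unfold cr
  rw [← sum_add_distrib]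
  exact sum_congr rfl fun x _ => sum_add_distrib

lemma fm_sum (B : Finset ι) (E : ι → α → α → ℝ) (r : α → α → ℝ) (P Q : Finset α) :
    ∑ v ∈ B, fm (E v) P Q + fm r P Q = fm (fun x y => ∑ v ∈ B, E v x y + r x y) P Q := by
  unfold fm
  rw [en_addfun (fun x y => ∑ v ∈ B, E v x y) r, en_addfun (fun x y => ∑ v ∈ B, E v x y) r,
    cr_addfun (fun x y => ∑ v ∈ B, E v x y) r, ← sum_en, ← sum_en, ← sum_cr,
    sum_sub_distrib, sum_add_distrib, ← mul_sum, ← mul_sum, ← mul_sum]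
  ring

lemma cr_hadd (h : α → ℝ) (P Q : Finset α) :
    cr (fun x y => h x + h y) P Q = Q.card * ∑ x ∈ P, h x + P.card * ∑ x ∈ Q, h x := by
  unfold cr
  have : ∀ x ∈ P, ∑ y ∈ Q, (h x + h y) = Q.card * h x + ∑ y ∈ Q, h y := by
    intro x _
    rw [sum_add_distrib, sum_const, nsmul_eq_mul]
  rw [sum_congr rfl this, sum_add_distrib, ← mul_sum, sum_const, nsmul_eq_mul]

lemma fm_hadd (h : α → ℝ) (P Q : Finset α) :
    fm (fun x y => h x + h y) P Q =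
      -(2 * (Q.card : ℝ) ^ 2 * ∑ x ∈ P, h x) - 2 * (P.card : ℝ) ^ 2 * ∑ x ∈ Q, h x := by
  unfold fm
  rw [en_add, en_add, cr_hadd]
  ring

lemma cr_congr {E E' : α → α → ℝ} {P Q : Finset α} (h : ∀ x ∈ P, ∀ y ∈ Q, E x y = E' x y) :
    cr E P Q = cr E' P Q :=
  sum_congr rfl fun x hx => sum_congr rfl fun y hy => h x hx y hy

lemma cr_comm (E : α → α → ℝ) (hs : ∀ x y, E x y = E y x) (P Q : Finset α) :
    cr E P Q = cr E Q P := by
  unfold cr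
  rw [sum_comm]
  exact sum_congr rfl fun x _ => sum_congr rfl fun y _ => hs _ _

/-- The abstract situation. `B` is the set of the bad places, among them the archimedean place
`inf`; `r` is the total local product at the good places; `Φ` is the set of the choices of
coordinates at the bad places. -/
structure Sy (Φ : Type*) (A : Finset α) (f : α → α) (B : Finset ι) (inf : ι) (S K : ℕ)
    (r : α → α → ℝ) (E : Φ → ι → α → α → ℝ) (h : Φ → α → ℝ) : Prop where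
  hB : B.card = S
  hinf : inf ∈ B
  hf : ∀ x ∈ A, f x ∈ A
  r0 : ∀ x ∈ A, ∀ y ∈ A, x ≠ y → 0 ≤ r x y
  rsymm : ∀ x y, r x y = r y x
  nonneg : ∀ φ, ∀ v ∈ B, ∀ x ∈ A, ∀ y ∈ A, x ≠ y → 0 ≤ E φ v x y
  symm : ∀ φ v x y, E φ v x y = E φ v y x
  quasi : ∀ φ, ∀ v ∈ B, ∀ x ∈ A, ∀ y ∈ A, ∀ z ∈ A, x ≠ y → y ≠ z → x ≠ z →
    min (E φ v x y) (E φ v y z) ≤ E φ v x z + 1
  ultra : ∀ φ, ∀ v ∈ B, v ≠ inf → ∀ x ∈ A, ∀ y ∈ A, ∀ z ∈ A, x ≠ y → y ≠ z → x ≠ z →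
    min (E φ v x y) (E φ v y z) ≤ E φ v x z
  sum : ∀ φ, ∀ x ∈ A, ∀ y ∈ A, x ≠ y → ∑ v ∈ B, E φ v x y + r x y = h φ x + h φ y
  ker : ∀ φ, ∀ v ∈ B, ∀ P Q : Finset α, P ⊆ A → Q ⊆ A → Disjoint P Q →
    300000 * S ^ 3 ≤ P.card + Q.card →
    -(((P.card : ℝ) + Q.card) ^ 2 * (6 * (∑ x ∈ P ∪ Q, max (h φ x) 0) +
      ((P.card : ℝ) + Q.card) ^ 2 / (10000 * (S : ℝ) ^ 2))) ≤ fm (E φ v) P Q
  cap : ∀ φ, ∀ Z ⊆ A, K < Z.card → ∃ x ∈ Z, ∃ y ∈ Z, x ≠ y ∧ 24 < E φ inf x y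
  frame : ∀ Z ⊆ A, 2 ≤ Z.card → ∃ φ, (∀ v ∈ B, v ≠ inf → ∀ x ∈ Z,
      2 * (Z.filter (fun y => y = x ∨ 0 < E φ v x y)).card ≤ Z.card) ∧
    (∀ x ∈ Z, 3 * (Z.filter (fun y => 3 / 2 < E φ inf x y)).card ≤ 2 * Z.card + 1) ∧
    ∀ φ', ∑ x ∈ Z, h φ x ≤ ∑ x ∈ Z, h φ' x + S
  t1 : ∀ (k : ℕ) (X : Finset α) (b : α), X ⊆ A → b ∈ A → (∀ x ∈ X, f^[k] x = b) →
    ∀ y ∈ A, f^[k] y ≠ b → ∑ x ∈ X, r y x ≤ r (f^[k] y) b

variable {A : Finset α} {f : α → α} {B : Finset ι} {inf : ι} {S K : ℕ} {r : α → α → ℝ}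
  {E : Φ → ι → α → α → ℝ} {h : Φ → α → ℝ}

/-- the sum of the positive parts of the heights -/
noncomputable def HH (h : α → ℝ) (Z : Finset α) : ℝ := ∑ x ∈ Z, max (h x) 0

lemma HH_nonneg (h : α → ℝ) (Z : Finset α) : 0 ≤ HH h Z := sum_nonneg fun x _ => le_max_right _ _

lemma HH_mono (h : α → ℝ) {Z Z' : Finset α} (hZ : Z ⊆ Z') : HH h Z ≤ HH h Z' :=
  sum_le_sum_of_subset_of_nonneg hZ fun x _ _ => le_max_right _ _

lemma sum_le_HH (h : α → ℝ) (Z : Finset α) : ∑ x ∈ Z, h x ≤ HH h Z :=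
  sum_le_sum fun x _ => le_max_left _ _

namespace Sy

variable (s : Sy Φ A f B inf S K r E h)
include s

lemma one_le_S : 1 ≤ S := by
  rw [← s.hB]; exact card_pos.2 ⟨inf, s.hinf⟩

lemma one_le_SR : (1 : ℝ) ≤ S := by exact_mod_cast s.one_le_S

lemma sumE_nonneg (φ : Φ) {x y : α} (hx : x ∈ A) (hy : y ∈ A) (hxy : x ≠ y) :
    0 ≤ ∑ v ∈ B, E φ v x y := sum_nonneg fun v hv => s.nonneg φ v hv x hx y hy hxy

lemma pair_nonneg (φ : Φ) {x y : α} (hx : x ∈ A) (hy : y ∈ A) (hxy : x ≠ y) :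
    0 ≤ h φ x + h φ y := by
  rw [← s.sum φ x hx y hy hxy]
  exact add_nonneg (s.sumE_nonneg φ hx hy hxy) (s.r0 x hx y hy hxy)

lemma r_le (φ : Φ) {x y : α} (hx : x ∈ A) (hy : y ∈ A) (hxy : x ≠ y) :
    r x y ≤ h φ x + h φ y := by
  rw [← s.sum φ x hx y hy hxy]
  have := s.sumE_nonneg φ hx hy hxy
  linarith

lemma E_le (φ : Φ) {v : ι} (hv : v ∈ B) {x y : α} (hx : x ∈ A) (hy : y ∈ A) (hxy : x ≠ y) :
    E φ v x y ≤ h φ x + h φ y := by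
  have h1 := s.sum φ x hx y hy hxy
  have h2 := single_le_sum (f := fun w => E φ w x y)
    (fun w hw => s.nonneg φ w hw x hx y hy hxy) hv
  have h3 := s.r0 x hx y hy hxy
  linarith

/-- the sum of the negative parts -/
lemma neg_part (φ : Φ) {Z : Finset α} (hZ : Z ⊆ A) (hZ2 : 2 ≤ Z.card) :
    ∑ x ∈ Z, max (-(h φ x)) 0 ≤ HH (h φ) Z := by
  by_cases h0 : ∀ x ∈ Z, 0 ≤ h φ x
  · rw [sum_congr rfl fun x hx => max_eq_right (by have := h0 x hx; linarith), sum_const_zero]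
    exact HH_nonneg _ _
  · push Not at h0
    obtain ⟨x₀, hx₀, h1⟩ := h0
    have h2 : ∀ y ∈ Z.erase x₀, -h φ x₀ ≤ h φ y := by
      intro y hy
      rw [mem_erase] at hy
      have := s.pair_nonneg φ (hZ hx₀) (hZ hy.2) (Ne.symm hy.1)
      linarith
    rw [← add_sum_erase Z _ hx₀, sum_congr rfl fun y hy => max_eq_right (b := (0 : ℝ)) (by
      have := h2 y hy; linarith), sum_const_zero, add_zero, max_eq_left (by linarith)]
    obtain ⟨y, hy⟩ : (Z.erase x₀).Nonempty := by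
      rw [← card_pos, card_erase_of_mem hx₀]; omega
    have h3 := h2 y hy
    have h4 : max (h φ y) 0 ≤ HH (h φ) Z :=
      single_le_sum (f := fun y => max (h φ y) 0) (fun y _ => le_max_right _ _)
        (mem_of_mem_erase hy)
    exact h3.trans ((le_max_left _ _).trans h4)

lemma pos_part (φ : Φ) {Z : Finset α} (hZ : Z ⊆ A) (hZ2 : 2 ≤ Z.card) :
    ((Z.card : ℝ) - 2) * HH (h φ) Z ≤ (Z.card - 1) * ∑ x ∈ Z, h φ x := by
  have hA' : (2 : ℝ) ≤ Z.card := by exact_mod_cast hZ2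
  unfold HH
  by_cases h0 : ∀ x ∈ Z, 0 ≤ h φ x
  · rw [sum_congr rfl fun x hx => max_eq_left (h0 x hx)]
    have : 0 ≤ ∑ x ∈ Z, h φ x := sum_nonneg h0
    nlinarith
  · push Not at h0
    obtain ⟨x₀, hx₀, h1⟩ := h0
    have h2 : ∀ y ∈ Z.erase x₀, -h φ x₀ ≤ h φ y := by
      intro y hy
      rw [mem_erase] at hy
      have := s.pair_nonneg φ (hZ hx₀) (hZ hy.2) (Ne.symm hy.1)
      linarith
    have h3 : ∑ y ∈ Z.erase x₀, max (h φ y) 0 = ∑ y ∈ Z.erase x₀, h φ y :=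
      sum_congr rfl fun y hy => max_eq_left (by have := h2 y hy; linarith)
    have h4 := card_nsmul_le_sum _ _ _ h2
    rw [nsmul_eq_mul, card_erase_of_mem hx₀, Nat.cast_sub (by omega : 1 ≤ Z.card)] at h4
    push_cast at h4
    rw [← add_sum_erase Z _ hx₀, ← add_sum_erase Z (h φ) hx₀, h3, max_eq_right h1.le]
    linarith

lemma en_r_nonneg {Z : Finset α} (hZ : Z ⊆ A) : 0 ≤ en r Z :=
  en_nonneg _ fun x hx y hy hxy => s.r0 x (hZ hx) y (hZ hy) hxy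

lemma cr_r_nonneg {P Q : Finset α} (hP : P ⊆ A) (hQ : Q ⊆ A) (hd : Disjoint P Q) :
    0 ≤ cr r P Q := by
  apply cr_nonneg
  intro x hx y hy
  exact s.r0 x (hP hx) y (hQ hy) (fun e => disjoint_left.1 hd hx (e ▸ hy))

/-- the total of the forms -/
lemma fm_total (φ : Φ) {P Q : Finset α} (hP : P ⊆ A) (hQ : Q ⊆ A) (hd : Disjoint P Q)
    (hc : 2 ≤ P.card + Q.card) :
    ∑ v ∈ B, fm (E φ v) P Q + fm r P Q ≤
      2 * ((P.card : ℝ) + Q.card) ^ 2 * HH (h φ) (P ∪ Q) := by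
  have hPQ : P ∪ Q ⊆ A := union_subset hP hQ
  have hcard : (P ∪ Q).card = P.card + Q.card := card_union_of_disjoint hd
  rw [fm_sum]
  have h1 : fm (fun x y => ∑ v ∈ B, E φ v x y + r x y) P Q = fm (fun x y => h φ x + h φ y) P Q := by
    unfold fm
    rw [en_congr fun x hx y hy hxy => s.sum φ x (hP hx) y (hP hy) hxy,
      en_congr fun x hx y hy hxy => s.sum φ x (hQ hx) y (hQ hy) hxy,
      cr_congr fun x hx y hy => s.sum φ x (hP hx) y (hQ hy)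
        (fun e => disjoint_left.1 hd hx (e ▸ hy))]
  rw [h1, fm_hadd]
  have h2 := s.neg_part φ hPQ (by omega)
  rw [sum_union hd] at h2
  have hneg : ∀ X : Finset α, -(∑ x ∈ X, h φ x) ≤ ∑ x ∈ X, max (-(h φ x)) 0 := by
    intro X
    rw [← sum_neg_distrib]
    exact sum_le_sum fun x _ => le_max_left _ _
  have h3 := hneg P
  have h4 := hneg Q
  have n1 : 0 ≤ ∑ x ∈ P, max (-(h φ x)) 0 := sum_nonneg fun x _ => le_max_right _ _
  have n2 : 0 ≤ ∑ x ∈ Q, max (-(h φ x)) 0 := sum_nonneg fun x _ => le_max_right _ _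
  have p0 : (0 : ℝ) ≤ P.card := Nat.cast_nonneg _
  have q0 : (0 : ℝ) ≤ Q.card := Nat.cast_nonneg _
  have e1 : (Q.card : ℝ) ^ 2 * -(∑ x ∈ P, h φ x) ≤
      ((P.card : ℝ) + Q.card) ^ 2 * ∑ x ∈ P, max (-(h φ x)) 0 := by
    refine (mul_le_mul_of_nonneg_left h3 (sq_nonneg _)).trans
      (mul_le_mul_of_nonneg_right ?_ n1)
    exact pow_le_pow_left₀ q0 (by linarith) 2
  have e2 : (P.card : ℝ) ^ 2 * -(∑ x ∈ Q, h φ x) ≤
      ((P.card : ℝ) + Q.card) ^ 2 * ∑ x ∈ Q, max (-(h φ x)) 0 := by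
    refine (mul_le_mul_of_nonneg_left h4 (sq_nonneg _)).trans
      (mul_le_mul_of_nonneg_right ?_ n2)
    exact pow_le_pow_left₀ p0 (by linarith) 2
  have e3 : ((P.card : ℝ) + Q.card) ^ 2 * (∑ x ∈ P, max (-(h φ x)) 0 +
      ∑ x ∈ Q, max (-(h φ x)) 0) ≤ ((P.card : ℝ) + Q.card) ^ 2 * HH (h φ) (P ∪ Q) :=
    mul_le_mul_of_nonneg_left h2 (sq_nonneg _)
  nlinarith

/-- the form of one kernel is at most the total -/
lemma fm_one (φ : Φ) {P Q : Finset α} (hP : P ⊆ A) (hQ : Q ⊆ A) (hd : Disjoint P Q)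
    (hc : 300000 * S ^ 3 ≤ P.card + Q.card) {v : ι} (hv : v ∈ B) :
    fm (E φ v) P Q + fm r P Q ≤ ((P.card : ℝ) + Q.card) ^ 2 *
      (8 * S * HH (h φ) (P ∪ Q) + ((P.card : ℝ) + Q.card) ^ 2 / (10000 * S)) := by
  have hS := s.one_le_S
  have hSR := s.one_le_SR
  have hS3 : 1 ≤ S ^ 3 := Nat.one_le_pow _ _ hS
  have h1 := s.fm_total φ hP hQ hd (by omega)
  rw [← add_sum_erase B _ hv] at h1
  have h2 := card_nsmul_le_sum (B.erase v) (fun w => fm (E φ w) P Q) _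
    (fun w hw => s.ker φ w (mem_of_mem_erase hw) P Q hP hQ hd hc)
  rw [nsmul_eq_mul, card_erase_of_mem hv, s.hB, Nat.cast_sub hS] at h2
  obtain ⟨n, hn⟩ : ∃ n : ℝ, n = (P.card : ℝ) + Q.card := ⟨_, rfl⟩
  have hH : HH (h φ) (P ∪ Q) = ∑ x ∈ P ∪ Q, max (h φ x) 0 := rfl
  rw [← hn, ← hH] at h2
  rw [← hn] at h1 ⊢
  obtain ⟨H, hHd⟩ : ∃ H, H = HH (h φ) (P ∪ Q) := ⟨_, rfl⟩
  have hH0 : 0 ≤ H := hHd ▸ HH_nonneg _ _
  rw [← hHd] at h1 h2 ⊢
  have h3 : ((S : ℝ) - 1) * (n ^ 2 * (6 * H + n ^ 2 / (10000 * (S : ℝ) ^ 2))) ≤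
      S * (n ^ 2 * (6 * H + n ^ 2 / (10000 * (S : ℝ) ^ 2))) := by
    apply mul_le_mul_of_nonneg_right (by linarith)
    positivity
  have h4 : (S : ℝ) * (n ^ 2 * (6 * H + n ^ 2 / (10000 * (S : ℝ) ^ 2))) =
      n ^ 2 * (6 * S * H + n ^ 2 / (10000 * S)) := by
    field_simp
  have h5 : 2 * n ^ 2 * H ≤ n ^ 2 * (2 * S * H) := by
    have : H ≤ S * H := le_mul_of_one_le_left hH0 hSR
    nlinarith [sq_nonneg n]
  push_cast at h2
  have h6 : n ^ 2 * (8 * S * H + n ^ 2 / (10000 * S)) =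
      n ^ 2 * (2 * S * H) + n ^ 2 * (6 * S * H + n ^ 2 / (10000 * S)) := by ring
  rw [h6]
  linarith

lemma fm_r_only (φ : Φ) {P Q : Finset α} (hP : P ⊆ A) (hQ : Q ⊆ A) (hd : Disjoint P Q)
    (hc : 300000 * S ^ 3 ≤ P.card + Q.card) :
    fm r P Q ≤ ((P.card : ℝ) + Q.card) ^ 2 *
      (14 * S * HH (h φ) (P ∪ Q) + ((P.card : ℝ) + Q.card) ^ 2 / (5000 * S)) := by
  have hSR := s.one_le_SR
  have h1 := s.fm_one φ hP hQ hd hc s.hinf
  have h2 := s.ker φ inf s.hinf P Q hP hQ hd hc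
  have hH : HH (h φ) (P ∪ Q) = ∑ x ∈ P ∪ Q, max (h φ x) 0 := rfl
  rw [← hH] at h2
  obtain ⟨n, hn⟩ : ∃ n : ℝ, n = (P.card : ℝ) + Q.card := ⟨_, rfl⟩
  rw [← hn] at h1 h2 ⊢
  obtain ⟨H, hHd⟩ : ∃ H, H = HH (h φ) (P ∪ Q) := ⟨_, rfl⟩
  have hH0 : 0 ≤ H := hHd ▸ HH_nonneg _ _
  rw [← hHd] at h1 h2 ⊢
  have h3 : 6 * H + n ^ 2 / (10000 * (S : ℝ) ^ 2) ≤ 6 * S * H + n ^ 2 / (10000 * S) := by
    have e1 : H ≤ S * H := le_mul_of_one_le_left hH0 hSR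
    have e2 : n ^ 2 / (10000 * (S : ℝ) ^ 2) ≤ n ^ 2 / (10000 * S) := by
      apply div_le_div_of_nonneg_left (sq_nonneg _) (by positivity)
      nlinarith
    linarith
  have h4 := mul_le_mul_of_nonneg_left h3 (sq_nonneg n)
  have h5 : n ^ 2 * (14 * S * H + n ^ 2 / (5000 * S)) =
      n ^ 2 * (8 * S * H + n ^ 2 / (10000 * S)) + n ^ 2 * (6 * S * H + n ^ 2 / (10000 * S)) := by
    field_simp
    ring
  rw [h5]
  linarith

end Sy

end Pool.Agent.T6.H83.SH
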