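import Pool.Agent.T6.H83.SH.Abs1

/-!
# The good part of the energy is not small
-/

set_option autoImplicit false
set_option linter.unusedSectionVars false
set_option linter.unusedVariables false

namespace Pool.Agent.T6.H83.SH

open Finset
open Pool.Agent.T6.H83.RM

variable {α ι Φ : Type*} [DecidableEq α] [DecidableEq ι]

/-- balanced coordinates -/
def Bal (B : Finset ι) (inf : ι) (E : ι → α → α → ℝ) (Z : Finset α) : Prop :=
  (∀ v ∈ B, v ≠ inf → ∀ x ∈ Z, 2 * (Z.filter (fun y => y = x ∨ 0 < E v x y)).card ≤ Z.card) ∧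
  ∀ x ∈ Z, 3 * (Z.filter (fun y => 3 / 2 < E inf x y)).card ≤ 2 * Z.card + 1

variable {A : Finset α} {f : α → α} {B : Finset ι} {inf : ι} {S K : ℕ} {r : α → α → ℝ}
  {E : Φ → ι → α → α → ℝ} {h : Φ → α → ℝ}

namespace Sy

variable (s : Sy Φ A f B inf S K r E h)
include s

lemma en_inf_le (φ : Φ) {Z : Finset α} (hZ : Z ⊆ A)
    (hfar : ∀ x ∈ Z, 3 * (Z.filter (fun y => 3 / 2 < E φ inf x y)).card ≤ 2 * Z.card + 1) :
    en (E φ inf) Z ≤ 2 / 3 * (2 * Z.card + 1) * HH (h φ) Z + 3 / 2 * (Z.card : ℝ) ^ 2 := by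
  classical
  set g : α → ℝ := fun x => max (h φ x) 0 with hg
  have hg0 : ∀ x, 0 ≤ g x := fun x => le_max_right _ _
  have hgh : ∀ x, h φ x ≤ g x := fun x => le_max_left _ _
  have h1 : en (E φ inf) Z ≤ ∑ x ∈ Z, ∑ y ∈ Z,
      ((if 3 / 2 < E φ inf x y then g x + g y else 0) + 3 / 2) := by
    unfold en
    refine sum_le_sum fun x hx => ?_
    have h2 : ∑ y ∈ Z.erase x, E φ inf x y ≤ ∑ y ∈ Z.erase x,
        ((if 3 / 2 < E φ inf x y then g x + g y else 0) + 3 / 2) := by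
      refine sum_le_sum fun y hy => ?_
      rw [mem_erase] at hy
      by_cases hn : 3 / 2 < E φ inf x y
      · rw [if_pos hn]
        have := s.E_le φ s.hinf (hZ hx) (hZ hy.2) (Ne.symm hy.1)
        have := hgh x
        have := hgh y
        linarith
      · rw [if_neg hn]
        push Not at hn
        linarith
    refine h2.trans (sum_le_sum_of_subset_of_nonneg (erase_subset _ _) fun y _ _ => ?_)
    have := hg0 x
    have := hg0 y
    split_ifs <;> linarith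
  have h2 : ∑ x ∈ Z, ∑ y ∈ Z, (if 3 / 2 < E φ inf x y then g x + g y else 0) =
      2 * ∑ x ∈ Z, ∑ y ∈ Z, (if 3 / 2 < E φ inf x y then g x else 0) := by
    have e1 : ∑ x ∈ Z, ∑ y ∈ Z, (if 3 / 2 < E φ inf x y then g x + g y else 0) =
        ∑ x ∈ Z, ∑ y ∈ Z, (if 3 / 2 < E φ inf x y then g x else 0) +
        ∑ x ∈ Z, ∑ y ∈ Z, (if 3 / 2 < E φ inf x y then g y else 0) := by
      rw [← sum_add_distrib]
      refine sum_congr rfl fun x _ => ?_
      rw [← sum_add_distrib]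
      refine sum_congr rfl fun y _ => ?_
      split_ifs <;> ring
    have e2 : ∑ x ∈ Z, ∑ y ∈ Z, (if 3 / 2 < E φ inf x y then g y else 0) =
        ∑ x ∈ Z, ∑ y ∈ Z, (if 3 / 2 < E φ inf x y then g x else 0) := by
      rw [sum_comm]
      refine sum_congr rfl fun x _ => sum_congr rfl fun y _ => ?_
      rw [s.symm φ inf y x]
    rw [e1, e2]
    ring
  have h3 : ∀ x ∈ Z, ∑ y ∈ Z, (if 3 / 2 < E φ inf x y then g x else 0) ≤
      (2 * Z.card + 1) / 3 * g x := by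
    intro x hx
    rw [← sum_filter, sum_const, nsmul_eq_mul]
    apply mul_le_mul_of_nonneg_right _ (hg0 x)
    have h4 : ((3 * (Z.filter (fun y => 3 / 2 < E φ inf x y)).card : ℕ) : ℝ) ≤
        ((2 * Z.card + 1 : ℕ) : ℝ) := by exact_mod_cast hfar x hx
    push_cast at h4
    linarith
  have h4 := sum_le_sum h3
  rw [← mul_sum] at h4
  have h5 : ∑ x ∈ Z, ∑ y ∈ Z, ((if 3 / 2 < E φ inf x y then g x + g y else 0) + 3 / 2) =
      ∑ x ∈ Z, ∑ y ∈ Z, (if 3 / 2 < E φ inf x y then g x + g y else 0) +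
        3 / 2 * (Z.card : ℝ) ^ 2 := by
    have : ∀ x ∈ Z, ∑ y ∈ Z, ((if 3 / 2 < E φ inf x y then g x + g y else 0) + 3 / 2) =
        ∑ y ∈ Z, (if 3 / 2 < E φ inf x y then g x + g y else 0) + 3 / 2 * Z.card := by
      intro x _
      rw [sum_add_distrib, sum_const, nsmul_eq_mul]
      ring
    rw [sum_congr rfl this, sum_add_distrib, sum_const, nsmul_eq_mul]
    ring
  rw [h5, h2] at h1
  have e : HH (h φ) Z = ∑ x ∈ Z, g x := rfl
  rw [e]
  linarith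

/-- the mean height is at least four -/
lemma four_le (φ : Φ) {Z : Finset α} (hZ : Z ⊆ A) (hK : 2 * K < Z.card) :
    4 * (Z.card : ℝ) ≤ HH (h φ) Z := by
  by_contra hcon
  push Not at hcon
  have hfew : 2 * (Z.filter (fun x => 8 < h φ x)).card ≤ Z.card := by
    have h1 := card_nsmul_le_sum (Z.filter (fun x => 8 < h φ x)) (fun x => max (h φ x) 0) 8
      (fun x hx => (mem_filter.1 hx).2.le.trans (le_max_left _ _))
    have h2 : ∑ x ∈ Z.filter (fun x => 8 < h φ x), max (h φ x) 0 ≤ HH (h φ) Z :=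
      sum_le_sum_of_subset_of_nonneg (filter_subset _ _) fun x _ _ => le_max_right _ _
    rw [nsmul_eq_mul] at h1
    have h3 : 2 * ((Z.filter (fun x => 8 < h φ x)).card : ℝ) ≤ Z.card := by linarith
    exact_mod_cast h3
  have hpart := card_filter_add_card_filter_not (s := Z) (fun x => 8 < h φ x)
  obtain ⟨x, hx, y, hy, hxy, h1⟩ := s.cap φ (Z.filter (fun x => ¬ 8 < h φ x))
    ((filter_subset _ _).trans hZ) (by omega)
  rw [mem_filter] at hx hy
  have h2 := s.E_le φ s.hinf (hZ hx.1) (hZ hy.1) hxy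
  linarith [not_lt.1 hx.2, not_lt.1 hy.2]

/-- the energy at a bad prime -/
lemma en_nonarch_le (φ : Φ) {Z : Finset α} (hZ : Z ⊆ A) (hn : 300000 * S ^ 3 ≤ Z.card)
    {v : ι} (hv : v ∈ B) (hvi : v ≠ inf)
    (hcl : ∀ x ∈ Z, 2 * (Z.filter (fun y => y = x ∨ 0 < E φ v x y)).card ≤ Z.card) :
    en (E φ v) Z ≤ 16 * (8 * S * HH (h φ) Z + (Z.card : ℝ) ^ 2 / (10000 * S)) + 4 * en r Z := by
  classical
  obtain ⟨P, Q, hPQ, hd, hP4, hQ4, h0⟩ := exists_split (E φ v) Z (s.symm φ v)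
    (fun x hx y hy hxy => s.nonneg φ v hv x (hZ hx) y (hZ hy) hxy)
    (fun x hx y hy z hz => s.ultra φ v hv hvi x (hZ hx) y (hZ hy) z (hZ hz)) hcl
  have hP : P ⊆ A := (hPQ ▸ subset_union_left : P ⊆ Z).trans hZ
  have hQ : Q ⊆ A := (hPQ ▸ subset_union_right : Q ⊆ Z).trans hZ
  have hcard : P.card + Q.card = Z.card := by rw [← hPQ, card_union_of_disjoint hd]
  have hSR := s.one_le_SR
  have hS3 : 1 ≤ S ^ 3 := Nat.one_le_pow _ _ s.one_le_S
  have h1 := s.fm_one φ hP hQ hd (by omega) hv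
  rw [hPQ] at h1
  have hcR : (P.card : ℝ) + Q.card = Z.card := by exact_mod_cast hcard
  rw [hcR] at h1
  have hcr0 : cr (E φ v) P Q = 0 := sum_eq_zero fun x hx => sum_eq_zero fun y hy => h0 x hx y hy
  have hen : en (E φ v) Z = en (E φ v) P + en (E φ v) Q := by
    have := en_union (E φ v) (s.symm φ v) hd
    rw [hPQ, hcr0] at this
    linarith
  have henr : en r Z = en r P + en r Q + 2 * cr r P Q := by
    have := en_union r s.rsymm hd
    rwa [hPQ] at this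
  have g1 := s.en_r_nonneg hP
  have g2 := s.en_r_nonneg hQ
  have g3 := s.cr_r_nonneg hP hQ hd
  have g4 : 0 ≤ en (E φ v) P := en_nonneg _ fun x hx y hy => s.nonneg φ v hv x (hP hx) y (hP hy)
  have g5 : 0 ≤ en (E φ v) Q := en_nonneg _ fun x hx y hy => s.nonneg φ v hv x (hQ hx) y (hQ hy)
  obtain ⟨n, hnd⟩ : ∃ n : ℝ, n = Z.card := ⟨_, rfl⟩
  obtain ⟨p, hp⟩ : ∃ p : ℝ, p = P.card := ⟨_, rfl⟩
  obtain ⟨q, hq⟩ : ∃ q : ℝ, q = Q.card := ⟨_, rfl⟩
  have hp4 : n ≤ 4 * p := by rw [hnd, hp]; exact_mod_cast hP4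
  have hq4 : n ≤ 4 * q := by rw [hnd, hq]; exact_mod_cast hQ4
  have hpq : p + q = n := by rw [hnd, hp, hq]; exact hcR
  have hn1 : 0 < n := by
    rw [hnd]
    exact_mod_cast (by omega : 0 < Z.card)
  unfold fm at h1
  rw [← hnd, ← hp, ← hq, hcr0] at h1
  rw [← hnd]
  obtain ⟨X, hX⟩ : ∃ X : ℝ, X = 8 * S * HH (h φ) Z + n ^ 2 / (10000 * S) := ⟨_, rfl⟩
  rw [← hX] at h1 ⊢
  have e1 : n ^ 2 / 16 * en (E φ v) P ≤ q ^ 2 * en (E φ v) P := by
    apply mul_le_mul_of_nonneg_right _ g4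
    nlinarith
  have e2 : n ^ 2 / 16 * en (E φ v) Q ≤ p ^ 2 * en (E φ v) Q := by
    apply mul_le_mul_of_nonneg_right _ g5
    nlinarith
  have e3 : 2 * p * q * cr r P Q ≤ n ^ 2 / 4 * en r Z := by
    have f1 : 4 * (p * q) ≤ n ^ 2 := by rw [← hpq]; nlinarith [sq_nonneg (p - q)]
    have f2 : 2 * cr r P Q ≤ en r Z := by linarith
    have f3 : 0 ≤ p * q := by nlinarith
    calc 2 * p * q * cr r P Q = (p * q) * (2 * cr r P Q) := by ring
      _ ≤ (p * q) * en r Z := mul_le_mul_of_nonneg_left f2 f3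
      _ ≤ n ^ 2 / 4 * en r Z := by
          apply mul_le_mul_of_nonneg_right (by linarith)
          linarith
  have e4 : 0 ≤ q ^ 2 * en r P := by positivity
  have e5 : 0 ≤ p ^ 2 * en r Q := by positivity
  have e6 : n ^ 2 * (en (E φ v) Z / 16) ≤ n ^ 2 * (X + en r Z / 4) := by
    rw [hen]
    linarith
  have e7 := le_of_mul_le_mul_left e6 (by positivity)
  linarith

/-- **the good part of the energy is not small** -/
theorem good_large (φ : Φ) {Z : Finset α} (hZ : Z ⊆ A) (hn : 300000 * S ^ 3 ≤ Z.card)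
    (hK : 2 * K < Z.card) (hb : Bal B inf (E φ) Z) :
    4 * (Z.card : ℝ) ≤ HH (h φ) Z ∧ Z.card * HH (h φ) Z ≤ 20 * S * en r Z := by
  have h4 := s.four_le φ hZ hK
  refine ⟨h4, ?_⟩
  have hS := s.one_le_S
  have hSR := s.one_le_SR
  have hS3 : 1 ≤ S ^ 3 := Nat.one_le_pow _ _ hS
  have hinf := s.en_inf_le φ hZ hb.2
  have hsum := sum_le_card_nsmul (B.erase inf) (fun v => en (E φ v) Z) _
    (fun v hv => s.en_nonarch_le φ hZ hn (mem_of_mem_erase hv) (ne_of_mem_erase hv)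
      (hb.1 v (mem_of_mem_erase hv) (ne_of_mem_erase hv)))
  rw [nsmul_eq_mul, card_erase_of_mem s.hinf, s.hB, Nat.cast_sub hS] at hsum
  have htot : ∑ v ∈ B, en (E φ v) Z + en r Z = 2 * ((Z.card : ℝ) - 1) * ∑ x ∈ Z, h φ x := by
    rw [sum_en, ← en_addfun (fun x y => ∑ v ∈ B, E φ v x y) r, ← en_add]
    exact en_congr fun x hx y hy hxy => s.sum φ x (hZ hx) y (hZ hy) hxy
  rw [← add_sum_erase B _ s.hinf] at htot
  have hpos := s.pos_part φ hZ (by omega)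
  have her := s.en_r_nonneg hZ
  obtain ⟨n, hnd⟩ : ∃ n : ℝ, n = Z.card := ⟨_, rfl⟩
  obtain ⟨H, hHd⟩ : ∃ H, H = HH (h φ) Z := ⟨_, rfl⟩
  obtain ⟨R, hR⟩ : ∃ R, R = en r Z := ⟨_, rfl⟩
  rw [← hnd, ← hHd] at h4 hinf hpos
  rw [← hnd, ← hHd, ← hR] at hsum
  rw [← hnd, ← hR] at htot
  rw [← hnd, ← hHd, ← hR]
  rw [← hR] at her
  have hnS : 300000 * (S : ℝ) ^ 3 ≤ n := by
    rw [hnd]; exact_mod_cast hn
  have hS2 : (S : ℝ) ^ 2 ≤ S ^ 3 := pow_le_pow_right₀ hSR (by norm_num)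
  have hS1 : (1 : ℝ) ≤ S ^ 3 := one_le_pow₀ hSR
  have hn0 : 300000 ≤ n := by linarith
  have hH0 : 0 ≤ H := hHd ▸ HH_nonneg _ _
  have a1 : ((S : ℝ) - 1) * (16 * (8 * S * H + n ^ 2 / (10000 * S)) + 4 * R) ≤
      128 * S ^ 2 * H + 16 * n ^ 2 / 10000 + 4 * S * R := by
    have : ((S : ℝ) - 1) * (16 * (8 * S * H + n ^ 2 / (10000 * S)) + 4 * R) ≤
        S * (16 * (8 * S * H + n ^ 2 / (10000 * S)) + 4 * R) := by
      apply mul_le_mul_of_nonneg_right (by linarith)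
      positivity
    refine this.trans (le_of_eq ?_)
    field_simp
    ring
  have a2 : 300000 * ((S : ℝ) ^ 2 * H) ≤ n * H := by
    have : 300000 * (S : ℝ) ^ 2 ≤ n := by linarith
    nlinarith
  have a3 : 4 * n ^ 2 ≤ n * H := by nlinarith
  have a4 : 300000 * H ≤ n * H := mul_le_mul_of_nonneg_right hn0 hH0
  have a5 : R ≤ S * R := le_mul_of_one_le_left her hSR
  push_cast at hsum
  have b1 : 2 * (n - 2) * H ≤ 2 / 3 * (2 * n + 1) * H + 3 / 2 * n ^ 2 +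
      (128 * S ^ 2 * H + 16 * n ^ 2 / 10000 + 4 * S * R) + R := by linarith
  nlinarith

/-- the cross energy is not small -/
theorem cross_large (φ : Φ) {P Q : Finset α} (hP : P ⊆ A) (hQ : Q ⊆ A) (hd : Disjoint P Q)
    (hn : 300000 * S ^ 3 ≤ P.card + Q.card) (hK : 2 * K < P.card + Q.card)
    (hp : P.card + Q.card ≤ 5 * P.card) (hq : P.card + Q.card ≤ 5 * Q.card)
    (hb : Bal B inf (E φ) (P ∪ Q)) :
    ((P.card : ℝ) + Q.card) * HH (h φ) (P ∪ Q) ≤ 400 * S * cr r P Q := by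
  have hPQ : P ∪ Q ⊆ A := union_subset hP hQ
  have hcard : (P ∪ Q).card = P.card + Q.card := card_union_of_disjoint hd
  have hcR : ((P ∪ Q).card : ℝ) = (P.card : ℝ) + Q.card := by exact_mod_cast hcard
  obtain ⟨h4, h5⟩ := s.good_large φ hPQ (by rw [hcard]; exact hn) (by rw [hcard]; exact hK) hb
  rw [hcR] at h4 h5
  have hS := s.one_le_S
  have hSR := s.one_le_SR
  have h1 := s.fm_r_only φ hP hQ hd hn
  have henr := en_union r s.rsymm hd
  have g1 := s.en_r_nonneg hP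
  have g2 := s.en_r_nonneg hQ
  have g3 := s.cr_r_nonneg hP hQ hd
  obtain ⟨n, hnd⟩ : ∃ n : ℝ, n = (P.card : ℝ) + Q.card := ⟨_, rfl⟩
  obtain ⟨p, hp'⟩ : ∃ p : ℝ, p = P.card := ⟨_, rfl⟩
  obtain ⟨q, hq'⟩ : ∃ q : ℝ, q = Q.card := ⟨_, rfl⟩
  have hp5 : n ≤ 5 * p := by rw [hnd, hp']; exact_mod_cast hp
  have hq5 : n ≤ 5 * q := by rw [hnd, hq']; exact_mod_cast hq
  have hpq : p + q = n := by rw [hnd, hp', hq']
  obtain ⟨H, hHd⟩ : ∃ H, H = HH (h φ) (P ∪ Q) := ⟨_, rfl⟩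
  unfold fm at h1
  rw [← hnd, ← hHd, ← hp', ← hq'] at h1
  rw [← hnd, ← hHd] at h4 h5 ⊢
  have hnS : 300000 * (S : ℝ) ^ 3 ≤ n := by
    rw [hnd]; exact_mod_cast hn
  have hS2 : (S : ℝ) ^ 2 ≤ S ^ 3 := pow_le_pow_right₀ hSR (by norm_num)
  have hS1 : (1 : ℝ) ≤ S ^ 3 := one_le_pow₀ hSR
  have hn0 : 300000 ≤ n := by linarith
  have hH0 : 0 ≤ H := hHd ▸ HH_nonneg _ _
  have e1 : n ^ 2 / 25 * en r P ≤ q ^ 2 * en r P := by
    apply mul_le_mul_of_nonneg_right _ g1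
    nlinarith
  have e2 : n ^ 2 / 25 * en r Q ≤ p ^ 2 * en r Q := by
    apply mul_le_mul_of_nonneg_right _ g2
    nlinarith
  have e3 : 2 * p * q * cr r P Q ≤ n ^ 2 / 2 * cr r P Q := by
    apply mul_le_mul_of_nonneg_right _ g3
    have f1 : 4 * (p * q) ≤ n ^ 2 := by rw [← hpq]; nlinarith [sq_nonneg (p - q)]
    linarith
  have e4 : n ^ 2 * ((en r P + en r Q) / 25) ≤ n ^ 2 * (cr r P Q / 2 +
      (14 * S * H + n ^ 2 / (5000 * S))) := by linarith
  have e5 := le_of_mul_le_mul_left e4 (by positivity)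
  -- `en r Z ≤ 15 cr + 25 (14 S H + n ^ 2 / (5000 S))`
  have e6 : en r (P ∪ Q) ≤ 15 * cr r P Q + 25 * (14 * S * H + n ^ 2 / (5000 * S)) := by
    linarith
  have e7 : 20 * S * en r (P ∪ Q) ≤ 300 * S * cr r P Q + (7000 * S ^ 2 * H + n ^ 2 / 10) := by
    have := mul_le_mul_of_nonneg_left e6 (by positivity : (0 : ℝ) ≤ 20 * S)
    refine this.trans (le_of_eq ?_)
    field_simp
    ring
  have a2 : 300000 * ((S : ℝ) ^ 2 * H) ≤ n * H := by
    have : 300000 * (S : ℝ) ^ 2 ≤ n := by linarith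
    nlinarith
  have a3 : 4 * n ^ 2 ≤ n * H := by nlinarith
  have a6 : 0 ≤ S * cr r P Q := by positivity
  nlinarith

end Sy

end Pool.Agent.T6.H83.SH
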