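import Pool.Agent.T6.H83.SH.Abs2

/-!
# Sets of points with small cross energy
-/

set_option autoImplicit false
set_option linter.unusedSectionVars false
set_option linter.unusedVariables false

namespace Pool.Agent.T6.H83.SH

open Finset
open Pool.Agent.T6.H83.RM

variable {α ι Φ : Type*} [DecidableEq α] [DecidableEq ι]

variable {A : Finset α} {f : α → α} {B : Finset ι} {inf : ι} {S K : ℕ} {r : α → α → ℝ}
  {E : Φ → ι → α → α → ℝ} {h : Φ → α → ℝ}

namespace Sy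

variable (s : Sy Φ A f B inf S K r E h)
include s

open Classical in
/-- few points of small height are near to a given point at a bad place -/
lemma exc_card (φ : Φ) {Y : Finset α} (hY : Y ⊆ A) {c : α} (hc : c ∈ A) (hcY : c ∉ Y) {τ : ℝ}
    (hτ : ∀ y ∈ Y, h φ y ≤ τ) :
    (Y.filter (fun y => ∃ v ∈ B, 2 * τ + 1 < E φ v c y)).card ≤ S := by
  have h1 : Y.filter (fun y => ∃ v ∈ B, 2 * τ + 1 < E φ v c y) ⊆
      B.biUnion (fun v => Y.filter (fun y => 2 * τ + 1 < E φ v c y)) := by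
    intro y hy
    rw [mem_filter] at hy
    obtain ⟨hyY, v, hv, h2⟩ := hy
    exact mem_biUnion.2 ⟨v, hv, mem_filter.2 ⟨hyY, h2⟩⟩
  refine (card_le_card h1).trans (card_biUnion_le.trans ?_)
  calc ∑ v ∈ B, (Y.filter (fun y => 2 * τ + 1 < E φ v c y)).card ≤ ∑ v ∈ B, 1 := by
        refine sum_le_sum fun v hv => ?_
        rw [card_le_one]
        intro y hy y' hy'
        rw [mem_filter] at hy hy'
        by_contra hne
        have e1 := s.quasi φ v hv y (hY hy.1) c hc y' (hY hy'.1)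
          (fun e => hcY (e ▸ hy.1)) (fun e => hcY (e ▸ hy'.1)) hne
        have e2 := s.E_le φ hv (hY hy.1) (hY hy'.1) hne
        have e3 := hτ y hy.1
        have e4 := hτ y' hy'.1
        rw [s.symm φ v y c] at e1
        have e5 := lt_min hy.2 hy'.2
        linarith
    _ = S := by rw [sum_const, smul_eq_mul, mul_one, s.hB]

/-- the height of a point in terms of the good part of a local product -/
lemma height_le (φ : Φ) {c y : α} (hc : c ∈ A) (hy : y ∈ A) (hne : c ≠ y) {u : ℝ}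
    (hu : ∀ v ∈ B, E φ v c y ≤ u) : h φ c + h φ y ≤ r c y + S * u := by
  have h1 := s.sum φ c hc y hy hne
  have h2 := sum_le_card_nsmul B (fun v => E φ v c y) u hu
  rw [nsmul_eq_mul, s.hB] at h2
  linarith

open Classical in
lemma card_neg (φ : Φ) {Y : Finset α} (hY : Y ⊆ A) :
    (Y.filter (fun y => h φ y < 0)).card ≤ 1 := by
  rw [card_le_one]
  intro y hy y' hy'
  rw [mem_filter] at hy hy'
  by_contra hne
  have := s.pair_nonneg φ (hY hy.1) (hY hy'.1) hne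
  linarith [hy.2, hy'.2]

open Classical in
lemma card_high (φ : Φ) {X : Finset α} {H t : ℝ} (hH : HH (h φ) X ≤ H)
    (hH0 : 0 < H) (ht : t * X.card = 8 * H) :
    8 * (X.filter (fun x => t < h φ x)).card ≤ X.card := by
  have hX0 : 0 < X.card := by
    rcases Nat.eq_zero_or_pos X.card with h0 | h0
    · rw [h0] at ht
      simp at ht
      exact absurd ht (by linarith)
    · exact h0
  have hX0R : (0 : ℝ) < X.card := by exact_mod_cast hX0
  have ht0 : 0 < t := by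
    by_contra hc
    push Not at hc
    have : t * X.card ≤ 0 := mul_nonpos_of_nonpos_of_nonneg hc hX0R.le
    linarith
  have h1 := card_nsmul_le_sum (X.filter (fun x => t < h φ x)) (fun x => max (h φ x) 0) t
    (fun x hx => (mem_filter.1 hx).2.le.trans (le_max_left _ _))
  have h2 : ∑ x ∈ X.filter (fun x => t < h φ x), max (h φ x) 0 ≤ HH (h φ) X :=
    sum_le_sum_of_subset_of_nonneg (filter_subset _ _) fun x _ _ => le_max_right _ _
  rw [nsmul_eq_mul] at h1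
  have h3 : t * (8 * ((X.filter (fun x => t < h φ x)).card : ℝ)) ≤ t * X.card := by linarith
  have h4 := le_of_mul_le_mul_left h3 ht0
  exact_mod_cast h4

/-- many points of small height which are not near to the given points -/
lemma good_set (φ : Φ) {X : Finset α} (hX : X ⊆ A) (C : Finset α) (hC : C ⊆ A)
    (hCX : Disjoint C X) (hC3 : C.card ≤ 3) {H t : ℝ} (hH : HH (h φ) X ≤ H)
    (hH0 : 0 < H) (ht : t * X.card = 8 * H) (hX100 : 100 * S ≤ X.card) :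
    ∃ G ⊆ X, X.card ≤ 2 * G.card ∧ ∀ x ∈ G, 0 ≤ h φ x ∧ h φ x ≤ t ∧
      ∀ c ∈ C, ∀ v ∈ B, E φ v c x ≤ 2 * t + 1 := by
  classical
  have hS := s.one_le_S
  set L := X.filter (fun x => h φ x ≤ t) with hL
  have hLX : L ⊆ X := filter_subset _ _
  have h1 := s.card_high φ (X := X) hH hH0 ht
  have h2 := card_filter_add_card_filter_not (s := X) (fun x => h φ x ≤ t)
  have h3 : (X.filter (fun x => ¬ h φ x ≤ t)).card = (X.filter (fun x => t < h φ x)).card := by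
    congr 1
    exact filter_congr fun x _ => not_le
  have hLt : ∀ y ∈ L, h φ y ≤ t := fun y hy => (mem_filter.1 hy).2
  set G := L.filter (fun x => ¬ (h φ x < 0 ∨ ∃ c ∈ C, ∃ v ∈ B, 2 * t + 1 < E φ v c x)) with hG
  have h4 := card_filter_add_card_filter_not (s := L)
    (fun x => h φ x < 0 ∨ ∃ c ∈ C, ∃ v ∈ B, 2 * t + 1 < E φ v c x)
  have h5 : (L.filter (fun x => h φ x < 0 ∨ ∃ c ∈ C, ∃ v ∈ B, 2 * t + 1 < E φ v c x)).card ≤
      1 + C.card * S := by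
    have e1 : L.filter (fun x => h φ x < 0 ∨ ∃ c ∈ C, ∃ v ∈ B, 2 * t + 1 < E φ v c x) ⊆
        L.filter (fun x => h φ x < 0) ∪
          C.biUnion (fun c => L.filter (fun x => ∃ v ∈ B, 2 * t + 1 < E φ v c x)) := by
      intro x hx
      rw [mem_filter] at hx
      rcases hx.2 with h6 | ⟨c, hc, h6⟩
      · exact mem_union_left _ (mem_filter.2 ⟨hx.1, h6⟩)
      · exact mem_union_right _ (mem_biUnion.2 ⟨c, hc, mem_filter.2 ⟨hx.1, h6⟩⟩)
    refine (card_le_card e1).trans ((card_union_le _ _).trans (Nat.add_le_add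
      (s.card_neg φ (hLX.trans hX)) (card_biUnion_le.trans ?_)))
    calc ∑ c ∈ C, (L.filter (fun x => ∃ v ∈ B, 2 * t + 1 < E φ v c x)).card ≤ ∑ c ∈ C, S := by
          refine sum_le_sum fun c hc => ?_
          exact s.exc_card φ (hLX.trans hX) (hC hc)
            (fun hcL => disjoint_left.1 hCX hc (hLX hcL)) hLt
      _ = C.card * S := by rw [sum_const, smul_eq_mul]
  have h6 : C.card * S ≤ 3 * S := Nat.mul_le_mul_right _ hC3
  refine ⟨G, (filter_subset _ _).trans hLX, ?_, ?_⟩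
  · have e1 : G.card = (L.filter (fun x => ¬ (h φ x < 0 ∨ ∃ c ∈ C, ∃ v ∈ B,
        2 * t + 1 < E φ v c x))).card := rfl
    have e2 : L.card = (X.filter (fun x => h φ x ≤ t)).card := rfl
    omega
  · intro x hx
    rw [hG, mem_filter] at hx
    have e1 := hx.2
    push Not at e1
    exact ⟨e1.1, hLt x hx.1, e1.2⟩

/-- contradiction from a small cross energy -/
lemma cross_contra {P Q : Finset α} (hP : P ⊆ A) (hQ : Q ⊆ A) (hd : Disjoint P Q) {k : ℕ}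
    (hPk : P.card = k) (hQk : Q.card = k) (hk : 300000 * S ^ 3 ≤ k) (hK : K < k) (φ : Φ)
    (hb : Bal B inf (E φ) (P ∪ Q)) {ρ : ℝ} (hρ : ∀ y ∈ Q, ∑ x ∈ P, r y x ≤ ρ)
    (hρ2 : ρ * k ≤ 200 * S * HH (h φ) (P ∪ Q)) : False := by
  have hS := s.one_le_S
  have hSR := s.one_le_SR
  have hS3 : 1 ≤ S ^ 3 := Nat.one_le_pow _ _ hS
  have h1 := s.cross_large φ hP hQ hd (by omega) (by omega) (by omega) (by omega) hb
  obtain ⟨h4, -⟩ := s.good_large φ (union_subset hP hQ)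
    (by rw [card_union_of_disjoint hd]; omega) (by rw [card_union_of_disjoint hd]; omega) hb
  rw [card_union_of_disjoint hd, hPk, hQk] at h4
  rw [hPk, hQk] at h1
  have h2 : cr r P Q ≤ k * ρ := by
    rw [cr_comm r s.rsymm]
    have := sum_le_card_nsmul Q _ _ hρ
    rw [nsmul_eq_mul, hQk] at this
    exact this
  obtain ⟨H, hHd⟩ : ∃ H, H = HH (h φ) (P ∪ Q) := ⟨_, rfl⟩
  rw [← hHd] at h1 hρ2 h4
  have hkR : 300000 * (S : ℝ) ^ 3 ≤ k := by exact_mod_cast hk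
  have hS2 : (S : ℝ) ^ 2 ≤ S ^ 3 := pow_le_pow_right₀ hSR (by norm_num)
  have hS1 : (1 : ℝ) ≤ S ^ 3 := one_le_pow₀ hSR
  have hH0 : 0 < H := by
    push_cast at h4
    linarith
  have h3 : 400 * (S : ℝ) * cr r P Q ≤ 400 * S * (200 * S * H) := by
    apply mul_le_mul_of_nonneg_left _ (by positivity)
    linarith
  have h5 : ((k : ℝ) + k) * H ≤ 80000 * S ^ 2 * H := by
    refine h1.trans (h3.trans (le_of_eq (by ring)))
  have h6 := le_of_mul_le_mul_right h5 hH0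
  linarith

/-- two sets of points without common good part -/
theorem excl {P Q : Finset α} (hP : P ⊆ A) (hQ : Q ⊆ A) (hd : Disjoint P Q) {k : ℕ}
    (hPk : P.card = k) (hQk : Q.card = k) (hk : 300000 * S ^ 3 ≤ k) (hK : K < k)
    (h0 : ∀ x ∈ P, ∀ y ∈ Q, r y x = 0) : False := by
  have hS3 : 1 ≤ S ^ 3 := Nat.one_le_pow _ _ s.one_le_S
  obtain ⟨φ, hb1, hb2, -⟩ := s.frame (P ∪ Q) (union_subset hP hQ)
    (by rw [card_union_of_disjoint hd]; omega)
  refine s.cross_contra hP hQ hd hPk hQk hk hK φ ⟨hb1, hb2⟩ (ρ := 0) ?_ ?_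
  · intro y hy
    rw [sum_eq_zero fun x hx => h0 x hx y hy]
  · rw [zero_mul]
    have := HH_nonneg (h φ) (P ∪ Q)
    positivity

/-- the quantities of a balanced union of two sets -/
lemma two_t (φ : Φ) {P Q : Finset α} (hP : P ⊆ A) (hQ : Q ⊆ A) (hd : Disjoint P Q) {k : ℕ}
    (hPk : P.card = k) (hQk : Q.card = k) (hk : 300000 * S ^ 3 ≤ k) (hK : K < k)
    (hb : Bal B inf (E φ) (P ∪ Q)) : ∃ t H : ℝ, H = HH (h φ) (P ∪ Q) ∧ 0 < H ∧ t * k = 8 * H ∧
      0 < t ∧ S * (2 * t + 1) * k ≤ 17 * S * H := by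
  have hS := s.one_le_S
  have hSR := s.one_le_SR
  have hS3 : 1 ≤ S ^ 3 := Nat.one_le_pow _ _ hS
  obtain ⟨h4, -⟩ := s.good_large φ (union_subset hP hQ)
    (by rw [card_union_of_disjoint hd]; omega) (by rw [card_union_of_disjoint hd]; omega) hb
  rw [card_union_of_disjoint hd, hPk, hQk] at h4
  push_cast at h4
  have hk0 : (0 : ℝ) < k := by exact_mod_cast (by omega : 0 < k)
  obtain ⟨H, hHd⟩ : ∃ H, H = HH (h φ) (P ∪ Q) := ⟨_, rfl⟩
  rw [← hHd] at h4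
  have hH0 : 0 < H := by linarith
  refine ⟨8 * H / k, H, hHd, hH0, by field_simp, by positivity, ?_⟩
  have e : (S : ℝ) * (2 * (8 * H / k) + 1) * k = S * (16 * H + k) := by
    field_simp
    ring
  rw [e]
  nlinarith

/-- two fibres of a map over fixed points -/
theorem claimA {P Q : Finset α} (hP : P ⊆ A) (hQ : Q ⊆ A) (hd : Disjoint P Q) {k : ℕ}
    (hPk : P.card = k) (hQk : Q.card = k) (hk : 300000 * S ^ 3 ≤ k) (hK : K < k)
    {a c : α} (ha : a ∈ A) (hc : c ∈ A) (hac : a ≠ c) (haQ : a ∉ Q) (hcP : c ∉ P)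
    (h1 : ∀ y ∈ Q, r a y = 0) (h2 : ∀ x ∈ P, r c x = 0)
    (h3 : ∀ y ∈ Q, ∑ x ∈ P, r y x ≤ r c a) : False := by
  have hS := s.one_le_S
  have hS3 : 1 ≤ S ^ 3 := Nat.one_le_pow _ _ s.one_le_S
  have hSS : S ≤ S ^ 3 := Nat.le_self_pow (by norm_num) S
  obtain ⟨φ, hb1, hb2, -⟩ := s.frame (P ∪ Q) (union_subset hP hQ)
    (by rw [card_union_of_disjoint hd]; omega)
  obtain ⟨t, H, hHd, hH0, ht, ht0, htk⟩ := s.two_t φ hP hQ hd hPk hQk hk hK ⟨hb1, hb2⟩
  refine s.cross_contra hP hQ hd hPk hQk hk hK φ ⟨hb1, hb2⟩ h3 ?_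
  rw [← hHd]
  have key : ∀ (X : Finset α), X ⊆ P ∪ Q → X ⊆ A → X.card = k → ∀ c ∈ A, c ∉ X →
      (∀ x ∈ X, r c x = 0) → h φ c ≤ S * (2 * t + 1) := by
    intro X hXZ hXA hXk c hc hcX h0
    obtain ⟨G, hG, hGc, hG1⟩ := s.good_set φ hXA {c} (singleton_subset_iff.2 hc)
      (disjoint_singleton_left.2 hcX) (by simp) (H := H) (t := t)
      (hHd ▸ HH_mono _ hXZ) hH0 (by rw [hXk]; exact ht) (by omega)
    obtain ⟨x, hx⟩ : G.Nonempty := by rw [← card_pos]; omega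
    obtain ⟨g1, g2, g3⟩ := hG1 x hx
    have hcx : c ≠ x := fun e => hcX (e ▸ hG hx)
    have := s.height_le φ hc (hXA (hG hx)) hcx (fun v hv => g3 c (mem_singleton_self c) v hv)
    rw [h0 x (hG hx)] at this
    linarith
  have ea := key Q subset_union_right hQ hQk a ha haQ h1
  have ec := key P subset_union_left hP hPk c hc hcP h2
  have e1 := s.r_le φ hc ha (Ne.symm hac)
  have hk0 : (0 : ℝ) ≤ k := Nat.cast_nonneg _
  have e2 : r c a * k ≤ (2 * (S * (2 * t + 1))) * k :=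
    mul_le_mul_of_nonneg_right (by linarith) hk0
  have e3 : 0 ≤ (S : ℝ) * H := by positivity
  linarith

/-- two fibres over points of the same level over a fixed point -/
theorem claimD2 {P Q : Finset α} (hP : P ⊆ A) (hQ : Q ⊆ A) (hd : Disjoint P Q) {k : ℕ}
    (hPk : P.card = k) (hQk : Q.card = k) (hk : 300000 * S ^ 3 ≤ k) (hK : K < k)
    {a S₁ S₂ R₁ R₂ : α} (ha : a ∈ A) (hS₁ : S₁ ∈ A) (hS₂ : S₂ ∈ A) (hR₁ : R₁ ∈ A) (hR₂ : R₂ ∈ A)
    (haP : a ∉ P) (haQ : a ∉ Q) (hS₁Q : S₁ ∉ Q) (hS₂P : S₂ ∉ P) (hR₁P : R₁ ∉ P) (hR₂Q : R₂ ∉ Q)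
    (h12 : S₂ ≠ S₁) (hRa₁ : R₁ ≠ a) (hRa₂ : R₂ ≠ a)
    (h1 : ∀ y ∈ Q, r y S₁ + r y R₂ + r y a ≤ r R₂ a)
    (h2 : ∀ x ∈ P, r x S₂ + r x R₁ + r x a ≤ r R₁ a)
    (h3 : ∀ y ∈ Q, ∑ x ∈ P, r y x ≤ r S₂ S₁) : False := by
  have hS := s.one_le_S
  have hS3 : 1 ≤ S ^ 3 := Nat.one_le_pow _ _ s.one_le_S
  have hSS : S ≤ S ^ 3 := Nat.le_self_pow (by norm_num) S
  obtain ⟨φ, hb1, hb2, -⟩ := s.frame (P ∪ Q) (union_subset hP hQ)
    (by rw [card_union_of_disjoint hd]; omega)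
  obtain ⟨t, H, hHd, hH0, ht, ht0, htk⟩ := s.two_t φ hP hQ hd hPk hQk hk hK ⟨hb1, hb2⟩
  refine s.cross_contra hP hQ hd hPk hQk hk hK φ ⟨hb1, hb2⟩ h3 ?_
  rw [← hHd]
  have key : ∀ (X : Finset α), X ⊆ P ∪ Q → X ⊆ A → X.card = k → a ∉ X → ∀ T ∈ A, ∀ R ∈ A,
      T ∉ X → R ∉ X → R ≠ a → (∀ x ∈ X, r x T + r x R + r x a ≤ r R a) →
      h φ T ≤ 3 * (S * (2 * t + 1)) := by
    intro X hXZ hXA hXk haX T hT R hR hTX hRX hRa h0
    obtain ⟨G, hG, hGc, hG1⟩ := s.good_set φ hXA {T, R, a} (by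
        intro z hz
        simp only [mem_insert, mem_singleton] at hz
        rcases hz with rfl | rfl | rfl <;> assumption)
      (by
        rw [disjoint_left]
        intro z hz
        simp only [mem_insert, mem_singleton] at hz
        rcases hz with rfl | rfl | rfl <;> assumption) (card_le_three) (H := H) (t := t)
      (hHd ▸ HH_mono _ hXZ) hH0 (by rw [hXk]; exact ht) (by omega)
    obtain ⟨x, hx⟩ : G.Nonempty := by rw [← card_pos]; omega
    obtain ⟨g1, g2, g3⟩ := hG1 x hx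
    have hxX := hG hx
    have eT := s.height_le φ hT (hXA hxX) (fun e => hTX (e ▸ hxX))
      (fun v hv => g3 T (by simp) v hv)
    have eR := s.height_le φ hR (hXA hxX) (fun e => hRX (e ▸ hxX))
      (fun v hv => g3 R (by simp) v hv)
    have ea := s.height_le φ ha (hXA hxX) (fun e => haX (e ▸ hxX))
      (fun v hv => g3 a (by simp) v hv)
    have e1 := h0 x hxX
    have e2 := s.r_le φ hR ha hRa
    rw [s.rsymm x T, s.rsymm x R, s.rsymm x a] at e1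
    linarith
  have e1 := key Q subset_union_right hQ hQk haQ S₁ hS₁ R₂ hR₂ hS₁Q hR₂Q hRa₂ h1
  have e2 := key P subset_union_left hP hPk haP S₂ hS₂ R₁ hR₁ hS₂P hR₁P hRa₁ h2
  have e3 := s.r_le φ hS₂ hS₁ h12
  have hk0 : (0 : ℝ) ≤ k := Nat.cast_nonneg _
  have e4 : r S₂ S₁ * k ≤ (6 * (S * (2 * t + 1))) * k :=
    mul_le_mul_of_nonneg_right (by linarith) hk0
  have e5 : 0 ≤ (S : ℝ) * H := by positivity
  linarith

/-- two fibres over points attached to a periodic point which is not fixed -/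
theorem claimD1 {P Q : Finset α} (hP : P ⊆ A) (hQ : Q ⊆ A) (hd : Disjoint P Q) {k : ℕ}
    (hPk : P.card = k) (hQk : Q.card = k) (hk : 300000 * S ^ 3 ≤ k) (hK : K < k)
    {a a₁ S₁ S₂ : α} (ha : a ∈ A) (ha₁ : a₁ ∈ A) (hS₁ : S₁ ∈ A) (hS₂ : S₂ ∈ A)
    (haP : a ∉ P) (ha₁P : a₁ ∉ P) (hS₁P : S₁ ∉ P) (hS₂Q : S₂ ∉ Q)
    (haa : a₁ ≠ a) (h12 : S₂ ≠ S₁) (hSa : S₁ ≠ a₁)
    (h1 : ∀ x ∈ P, r a₁ x = 0)
    (h2 : ∑ x ∈ P, r S₁ x ≤ r a₁ a) (h3 : ∀ x ∈ P, r a x ≤ r a₁ S₁)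
    (h4 : S₂ = a₁ ∨ ∑ y ∈ Q, r S₂ y ≤ r a₁ a)
    (h5 : ∀ y ∈ Q, ∑ x ∈ P, r y x ≤ r S₂ S₁) : False := by
  have hS := s.one_le_S
  have hSR := s.one_le_SR
  have hS3 : 1 ≤ S ^ 3 := Nat.one_le_pow _ _ s.one_le_S
  have hSS : S ≤ S ^ 3 := Nat.le_self_pow (by norm_num) S
  obtain ⟨φ, hb1, hb2, -⟩ := s.frame (P ∪ Q) (union_subset hP hQ)
    (by rw [card_union_of_disjoint hd]; omega)
  obtain ⟨t, H, hHd, hH0, ht, ht0, htk⟩ := s.two_t φ hP hQ hd hPk hQk hk hK ⟨hb1, hb2⟩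
  refine s.cross_contra hP hQ hd hPk hQk hk hK φ ⟨hb1, hb2⟩ h5 ?_
  rw [← hHd]
  obtain ⟨τ, hτ⟩ : ∃ τ : ℝ, τ = S * (2 * t + 1) := ⟨_, rfl⟩
  have hτ0 : 0 < τ := by rw [hτ]; positivity
  rw [← hτ] at htk
  have gs : ∀ (X : Finset α), X ⊆ P ∪ Q → X ⊆ A → X.card = k → ∀ c ∈ A, c ∉ X →
      ∃ G ⊆ X, k ≤ 2 * G.card ∧ ∀ x ∈ G, 0 ≤ h φ x ∧ h φ c + h φ x ≤ r c x + τ := by
    intro X hXZ hXA hXk c hc hcX
    obtain ⟨G, hG, hGc, hG1⟩ := s.good_set φ hXA {c} (singleton_subset_iff.2 hc)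
      (disjoint_singleton_left.2 hcX) (by simp) (H := H) (t := t)
      (hHd ▸ HH_mono _ hXZ) hH0 (by rw [hXk]; exact ht) (by omega)
    refine ⟨G, hG, by omega, fun x hx => ?_⟩
    obtain ⟨g1, g2, g3⟩ := hG1 x hx
    have hcx : c ≠ x := fun e => hcX (e ▸ hG hx)
    rw [hτ]
    exact ⟨g1, s.height_le φ hc (hXA (hG hx)) hcx
      (fun v hv => g3 c (mem_singleton_self c) v hv)⟩
  -- the height of `a₁`
  have e1 : h φ a₁ ≤ τ := by
    obtain ⟨G, hG, hGc, hG1⟩ := gs P subset_union_left hP hPk a₁ ha₁ ha₁P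
    obtain ⟨x, hx⟩ : G.Nonempty := by rw [← card_pos]; omega
    obtain ⟨g1, g2⟩ := hG1 x hx
    rw [h1 x (hG hx)] at g2
    linarith
  -- the height of `a`
  have e2 : h φ a ≤ h φ S₁ + 2 * τ := by
    obtain ⟨G, hG, hGc, hG1⟩ := gs P subset_union_left hP hPk a ha haP
    obtain ⟨x, hx⟩ : G.Nonempty := by rw [← card_pos]; omega
    obtain ⟨g1, g2⟩ := hG1 x hx
    have g3 := h3 x (hG hx)
    have g4 := s.r_le φ ha₁ hS₁ (Ne.symm hSa)
    linarith
  have e3 := s.r_le φ ha₁ ha haa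
  have hfib : ∀ (X : Finset α), X ⊆ P ∪ Q → X ⊆ A → X.card = k → ∀ c ∈ A, c ∉ X →
      ∑ x ∈ X, r c x ≤ r a₁ a → τ < h φ c → 150000 * (h φ c - τ) ≤ h φ a₁ + h φ a := by
    intro X hXZ hXA hXk c hc hcX h0 hlt
    obtain ⟨G, hG, hGc, hG1⟩ := gs X hXZ hXA hXk c hc hcX
    have g1 : G.card • (h φ c - τ) ≤ ∑ x ∈ G, r c x := by
      apply card_nsmul_le_sum
      intro x hx
      obtain ⟨g1, g2⟩ := hG1 x hx
      linarith
    rw [nsmul_eq_mul] at g1
    have g2 : ∑ x ∈ G, r c x ≤ ∑ x ∈ X, r c x :=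
      sum_le_sum_of_subset_of_nonneg hG fun x hx _ => s.r0 c hc x (hXA hx)
        (fun e => hcX (e ▸ hx))
    have g3 : (150000 : ℝ) ≤ G.card := by exact_mod_cast (by omega : 150000 ≤ G.card)
    have g4 : 150000 * (h φ c - τ) ≤ G.card * (h φ c - τ) :=
      mul_le_mul_of_nonneg_right g3 (by linarith)
    linarith
  have e4 : h φ S₁ ≤ 2 * τ := by
    by_contra hcon
    push Not at hcon
    have := hfib P subset_union_left hP hPk S₁ hS₁ hS₁P h2 (by linarith)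
    linarith
  have e5 : h φ S₂ ≤ 2 * τ := by
    rcases h4 with h4 | h4
    · rw [h4]; linarith
    · by_contra hcon
      push Not at hcon
      have := hfib Q subset_union_right hQ hQk S₂ hS₂ hS₂Q h4 (by linarith)
      linarith
  have e6 := s.r_le φ hS₂ hS₁ h12
  have hk0 : (0 : ℝ) ≤ k := Nat.cast_nonneg _
  have e7 : r S₂ S₁ * k ≤ (4 * τ) * k :=
    mul_le_mul_of_nonneg_right (by linarith) hk0
  have e8 : 0 ≤ (S : ℝ) * H := by positivity
  linarith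

end Sy

end Pool.Agent.T6.H83.SH
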