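import Pool.Agent.T6.H83.SH.Abs3

/-!
# Sets of points over a fixed point
-/

set_option autoImplicit false
set_option linter.unusedSectionVars false
set_option linter.unusedVariables false

namespace Pool.Agent.T6.H83.SH

open Finset
open Pool.Agent.T6.H83.RM

variable {α ι Φ : Type*} [DecidableEq α] [DecidableEq ι]

variable {A : Finset α} {f : α → α} {B : Finset ι} {inf : ι} {S K : ℕ} {r : α → α → ℝ}
  {E : Φ → ι → α → α → ℝ} {h : Φ → α → ℝ}

namespace Sy

variable (s : Sy Φ A f B inf S K r E h)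
include s

/-- contradiction from a small cross energy in terms of the minimal height of the first set -/
theorem dom_contra {P Q : Finset α} (hP : P ⊆ A) (hQ : Q ⊆ A) (hd : Disjoint P Q) {k : ℕ}
    (hPk : P.card = k) (hQk : Q.card ≤ k) (hQk2 : k ≤ 2 * Q.card) (hk : 1000000 * S ^ 3 ≤ k)
    (hK : 2 * K < k) (φ : Φ) (hm : ∀ φ', ∑ x ∈ P, h φ x ≤ ∑ x ∈ P, h φ' x + S)
    (hcr : cr r P Q ≤ 150 * S ^ 2 * HH (h φ) P) : False := by
  have hS := s.one_le_S
  have hSR := s.one_le_SR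
  have hS3 : 1 ≤ S ^ 3 := Nat.one_le_pow _ _ hS
  have hSS : S ≤ S ^ 3 := Nat.le_self_pow (by norm_num) S
  have hcard : (P ∪ Q).card = P.card + Q.card := card_union_of_disjoint hd
  obtain ⟨φ', hb1, hb2, -⟩ := s.frame (P ∪ Q) (union_subset hP hQ) (by rw [hcard]; omega)
  have h1 := s.cross_large φ' hP hQ hd (by omega) (by omega) (by omega) (by omega) ⟨hb1, hb2⟩
  obtain ⟨h4, -⟩ := s.good_large φ' (union_subset hP hQ) (by rw [hcard]; omega)
    (by rw [hcard]; omega) ⟨hb1, hb2⟩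
  have h2 := s.pos_part φ hP (by omega)
  have h3 := hm φ'
  have h5 := (sum_le_HH (h φ') P).trans (HH_mono (h φ') (subset_union_left : P ⊆ P ∪ Q))
  rw [hcard] at h4
  rw [hPk] at h1 h2 h4
  push_cast at h4
  obtain ⟨H', hH'⟩ : ∃ H', H' = HH (h φ') (P ∪ Q) := ⟨_, rfl⟩
  obtain ⟨HX, hHX⟩ : ∃ HX, HX = HH (h φ) P := ⟨_, rfl⟩
  obtain ⟨K', hK'⟩ : ∃ K' : ℝ, K' = k := ⟨_, rfl⟩
  have q0 : (0 : ℝ) ≤ Q.card := Nat.cast_nonneg _
  have hkR : 1000000 * (S : ℝ) ^ 3 ≤ K' := by rw [hK']; exact_mod_cast hk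
  have hS1 : (1 : ℝ) ≤ (S : ℝ) ^ 3 := one_le_pow₀ hSR
  have hSSR : (S : ℝ) ≤ (S : ℝ) ^ 3 := by exact_mod_cast hSS
  rw [← hH', ← hK'] at h1 h4
  rw [← hHX, ← hK'] at h2
  rw [← hH'] at h5
  rw [← hHX] at hcr
  have hH0 : 0 < H' := by linarith
  have hHX0 : 0 ≤ HX := hHX ▸ HH_nonneg _ _
  have e1 : (K' - 1) * ∑ x ∈ P, h φ x ≤ (K' - 1) * (H' + S) :=
    mul_le_mul_of_nonneg_left (by linarith) (by linarith)
  have e2 : (K' - 1) * (H' + S) ≤ (K' - 2) * (4 * H') := by
    have f1 : (S : ℝ) ≤ H' := by linarith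
    have f2 : (K' - 1) * (H' + S) ≤ (K' - 1) * (2 * H') :=
      mul_le_mul_of_nonneg_left (by linarith) (by linarith)
    nlinarith
  have e3 : HX ≤ 4 * H' := by
    have : (K' - 2) * HX ≤ (K' - 2) * (4 * H') := by linarith
    exact le_of_mul_le_mul_left this (by linarith)
  have e4 : 400 * (S : ℝ) * cr r P Q ≤ 400 * S * (150 * S ^ 2 * (4 * H')) := by
    apply mul_le_mul_of_nonneg_left _ (by positivity)
    refine hcr.trans (mul_le_mul_of_nonneg_left e3 (by positivity))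
  have e5 : (K' + Q.card) * H' ≤ 240000 * S ^ 3 * H' :=
    h1.trans (e4.trans (le_of_eq (by ring)))
  have e6 := le_of_mul_le_mul_right e5 hH0
  linarith

/-- the quantities of a balanced set -/
lemma one_t (φ : Φ) {X : Finset α} (hX : X ⊆ A) {k : ℕ} (hXk : X.card = k)
    (hk : 1000000 * S ^ 3 ≤ k) (hK : 2 * K < k) (hb : Bal B inf (E φ) X) :
    ∃ t H : ℝ, H = HH (h φ) X ∧ 4 * (k : ℝ) ≤ H ∧ 0 < H ∧ t * k = 8 * H ∧ 1 ≤ t := by
  have hS3 : 1 ≤ S ^ 3 := Nat.one_le_pow _ _ s.one_le_S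
  obtain ⟨h4, -⟩ := s.good_large φ hX (by omega) (by omega) hb
  rw [hXk] at h4
  have hk0 : (0 : ℝ) < k := by exact_mod_cast (by omega : 0 < k)
  obtain ⟨H, hHd⟩ : ∃ H, H = HH (h φ) X := ⟨_, rfl⟩
  rw [← hHd] at h4
  refine ⟨8 * H / k, H, hHd, h4, by linarith, by field_simp, ?_⟩
  rw [le_div_iff₀ hk0]
  linarith

/-- a point of large height has a large good cross energy -/
lemma high_cross (φ : Φ) {X : Finset α} (hX : X ⊆ A) {k : ℕ} (hXk : X.card = k) {H t : ℝ}
    (hH : HH (h φ) X ≤ H) (hH0 : 0 < H) (ht : t * k = 8 * H) (ht0 : 0 ≤ t) (hk : 100 * S ≤ k)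
    {y : α} (hy : y ∈ A) (hyX : y ∉ X) (hh : 2 * (S * (2 * t + 1)) < h φ y) :
    k * h φ y ≤ 4 * ∑ x ∈ X, r y x := by
  obtain ⟨G, hG, hGc, hG1⟩ := s.good_set φ hX {y} (singleton_subset_iff.2 hy)
    (disjoint_singleton_left.2 hyX) (by simp) (H := H) (t := t) hH hH0 (by rw [hXk]; exact ht)
    (by omega)
  have hS0 : (0 : ℝ) ≤ S := Nat.cast_nonneg _
  have hy0 : 0 ≤ h φ y := by
    have : 0 ≤ (S : ℝ) * (2 * t + 1) := by positivity
    linarith
  have g1 : G.card • (h φ y / 2) ≤ ∑ x ∈ G, r y x := by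
    apply card_nsmul_le_sum
    intro x hx
    obtain ⟨g1, g2, g3⟩ := hG1 x hx
    have hcx : y ≠ x := fun e => hyX (e ▸ hG hx)
    have := s.height_le φ hy (hX (hG hx)) hcx (fun v hv => g3 y (mem_singleton_self y) v hv)
    linarith
  rw [nsmul_eq_mul] at g1
  have g2 : ∑ x ∈ G, r y x ≤ ∑ x ∈ X, r y x :=
    sum_le_sum_of_subset_of_nonneg hG fun x hx _ => s.r0 y hy x (hX hx)
      (fun e => hyX (e ▸ hx))
  have g3 : (k : ℝ) ≤ 2 * G.card := by exact_mod_cast (by omega : k ≤ 2 * G.card)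
  have g4 : (k : ℝ) * h φ y ≤ 2 * G.card * h φ y := mul_le_mul_of_nonneg_right g3 hy0
  linarith

/-- many points over a fixed point, whose orbits pass through one point, and many points which
are mapped to the fixed point -/
theorem claimB {X Y : Finset α} (hX : X ⊆ A) (hY : Y ⊆ A) (hd : Disjoint X Y) {k J : ℕ}
    (hXk : X.card = k) (hYk : 2 * k + 4 * J ≤ Y.card) (hk : 1000000 * S ^ 3 ≤ k)
    (hK : 2 * K < k) {R a : α} (hR : R ∈ A) (ha : a ∈ A) (hRa : R ≠ a) (hRY : R ∉ Y)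
    (haY : a ∉ Y) (b1 : ∀ y ∈ Y, ∑ x ∈ X, r y x + r y R + r y a ≤ r R a)
    (b2 : ∑ y ∈ Y, r R y ≤ J * r R a) (b3 : ∑ y ∈ Y, r a y ≤ J * r R a) : False := by
  classical
  have hS := s.one_le_S
  have hSR := s.one_le_SR
  have hS3 : 1 ≤ S ^ 3 := Nat.one_le_pow _ _ hS
  have hSS : S ≤ S ^ 3 := Nat.le_self_pow (by norm_num) S
  obtain ⟨φ, hb1, hb2, hm⟩ := s.frame X hX (by omega)
  obtain ⟨t, H, hHd, h4, hH0, ht, ht1⟩ := s.one_t φ hX hXk hk hK ⟨hb1, hb2⟩
  obtain ⟨τ, hτ⟩ : ∃ τ : ℝ, τ = S * (2 * t + 1) := ⟨_, rfl⟩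
  have hτ3 : 3 * (S : ℝ) ≤ τ := by rw [hτ]; nlinarith
  have hkR : (1000000 : ℝ) * S ≤ k := by
    exact_mod_cast ((Nat.mul_le_mul_left _ hSS).trans hk)
  -- the points of large height
  have hRaA : ∀ c ∈ ({R, a} : Finset α), c ∈ A := by
    intro c hc
    simp only [mem_insert, mem_singleton] at hc
    rcases hc with rfl | rfl <;> assumption
  have hhigh : 2 * ((Y.filter (fun y => 2 * τ < h φ y)).card) ≤ 6 * J + 2 * S := by
    rcases (Y.filter (fun y => 2 * τ < h φ y)).eq_empty_or_nonempty with h0 | ⟨y₁, hy₁⟩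
    · rw [h0]; simp
    obtain ⟨M, hM⟩ : ∃ M, M = max (h φ R) (h φ a) := ⟨_, rfl⟩
    have hle : ∀ y ∈ Y.filter (fun y => 2 * τ < h φ y), k * h φ y ≤ 8 * M := by
      intro y hy
      rw [mem_filter] at hy
      have hyX : y ∉ X := fun e => disjoint_left.1 hd e hy.1
      have g1 := s.high_cross φ hX hXk (H := H) hHd.ge hH0 ht (by linarith) (by omega)
        (hY hy.1) hyX (by rw [← hτ]; exact hy.2)
      have g2 := b1 y hy.1
      have g3 := s.r_le φ hR ha hRa
      have g4 := s.r0 y (hY hy.1) R hR (fun e => hRY (e ▸ hy.1))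
      have g5 := s.r0 y (hY hy.1) a ha (fun e => haY (e ▸ hy.1))
      have g6 : h φ R ≤ M := hM ▸ le_max_left _ _
      have g7 : h φ a ≤ M := hM ▸ le_max_right _ _
      linarith
    have hM32 : 32 * (S : ℝ) ≤ M := by
      have g1 := hle y₁ hy₁
      have g2 := (mem_filter.1 hy₁).2
      have g3 : (k : ℝ) * (2 * τ) ≤ k * h φ y₁ :=
        mul_le_mul_of_nonneg_left g2.le (Nat.cast_nonneg _)
      have g4 : (1000000 * S) * (2 * τ) ≤ (k : ℝ) * (2 * τ) :=
        mul_le_mul_of_nonneg_right hkR (by linarith)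
      nlinarith
    have hS0 : (0 : ℝ) < S := by linarith
    obtain ⟨c, hc, hcY, hcM, hcJ⟩ : ∃ c ∈ A, c ∉ Y ∧ h φ c = M ∧ ∑ y ∈ Y, r c y ≤ J * r R a := by
      rcases le_total (h φ R) (h φ a) with h0 | h0
      · exact ⟨a, ha, haY, by rw [hM, max_eq_right h0], b3⟩
      · exact ⟨R, hR, hRY, by rw [hM, max_eq_left h0], b2⟩
    set Yh := Y.filter (fun y => 2 * τ < h φ y) with hYh
    have hYhY : Yh ⊆ Y := filter_subset _ _
    have hlow : ∀ y ∈ Yh, h φ y ≤ M / (16 * S) := by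
      intro y hy
      rw [le_div_iff₀ (by positivity)]
      have g1 := hle y hy
      have g2 : 0 ≤ h φ y := by
        have := (mem_filter.1 hy).2
        linarith
      have g3 : (1000000 * S) * h φ y ≤ k * h φ y := mul_le_mul_of_nonneg_right hkR g2
      linarith
    have hex := s.exc_card φ (hYhY.trans hY) hc (fun e => hcY (hYhY e)) hlow
    have hpart := card_filter_add_card_filter_not (s := Yh)
      (fun y => ∃ v ∈ B, 2 * (M / (16 * S)) + 1 < E φ v c y)
    have hne : 3 * (Yh.filter (fun y => ¬ ∃ v ∈ B, 2 * (M / (16 * S)) + 1 < E φ v c y)).card ≤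
        8 * J := by
      set G := Yh.filter (fun y => ¬ ∃ v ∈ B, 2 * (M / (16 * S)) + 1 < E φ v c y) with hG
      have g1 : G.card • (3 / 4 * M) ≤ ∑ y ∈ G, r c y := by
        apply card_nsmul_le_sum
        intro y hy
        rw [hG, mem_filter] at hy
        obtain ⟨hy1, hy2⟩ := hy
        push Not at hy2
        have hcy : c ≠ y := fun e => hcY (e ▸ hYhY hy1)
        have g1 := s.height_le φ hc (hY (hYhY hy1)) hcy hy2
        have g2 : 0 ≤ h φ y := by
          have := (mem_filter.1 hy1).2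
          linarith
        have g3 : S * (2 * (M / (16 * S)) + 1) = M / 8 + S := by
          field_simp
          ring
        rw [g3] at g1
        linarith
      rw [nsmul_eq_mul] at g1
      have g2 : ∑ y ∈ G, r c y ≤ ∑ y ∈ Y, r c y :=
        sum_le_sum_of_subset_of_nonneg ((filter_subset _ _).trans hYhY) fun y hy _ =>
          s.r0 c hc y (hY hy) (fun e => hcY (e ▸ hy))
      have g3 := s.r_le φ hR ha hRa
      have g4 : h φ R ≤ M := hM ▸ le_max_left _ _
      have g5 : h φ a ≤ M := hM ▸ le_max_right _ _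
      have g6 : (J : ℝ) * r R a ≤ J * (2 * M) :=
        mul_le_mul_of_nonneg_left (by linarith) (Nat.cast_nonneg _)
      have hM0 : 0 < M := by linarith
      have g7 : (3 * (G.card : ℝ)) * M ≤ (8 * J) * M := by linarith
      have g8 := le_of_mul_le_mul_right g7 hM0
      exact_mod_cast g8
    omega
  -- the points of small height which are not near to `R` and `a`
  set L := Y.filter (fun y => h φ y ≤ 2 * τ) with hL
  have hLY : L ⊆ Y := filter_subset _ _
  have hLc : Y.card ≤ L.card + (3 * J + S) := by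
    have h2 := card_filter_add_card_filter_not (s := Y) (fun y => h φ y ≤ 2 * τ)
    have h3 : (Y.filter (fun y => ¬ h φ y ≤ 2 * τ)).card =
        (Y.filter (fun y => 2 * τ < h φ y)).card := by
      congr 1
      exact filter_congr fun x _ => not_le
    have e2 : L.card = (Y.filter (fun x => h φ x ≤ 2 * τ)).card := rfl
    omega
  have hLt : ∀ y ∈ L, h φ y ≤ 2 * τ := fun y hy => (mem_filter.1 hy).2
  set G := L.filter (fun y => ¬ (h φ y < 0 ∨ ∃ c ∈ ({R, a} : Finset α), ∃ v ∈ B,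
    2 * (2 * τ) + 1 < E φ v c y)) with hG
  have h5 := card_filter_add_card_filter_not (s := L)
    (fun y => h φ y < 0 ∨ ∃ c ∈ ({R, a} : Finset α), ∃ v ∈ B, 2 * (2 * τ) + 1 < E φ v c y)
  have h6 : (L.filter (fun y => h φ y < 0 ∨ ∃ c ∈ ({R, a} : Finset α), ∃ v ∈ B,
      2 * (2 * τ) + 1 < E φ v c y)).card ≤ 1 + 2 * S := by
    have e1 : L.filter (fun y => h φ y < 0 ∨ ∃ c ∈ ({R, a} : Finset α), ∃ v ∈ B,
        2 * (2 * τ) + 1 < E φ v c y) ⊆
        L.filter (fun y => h φ y < 0) ∪ ({R, a} : Finset α).biUnion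
          (fun c => L.filter (fun y => ∃ v ∈ B, 2 * (2 * τ) + 1 < E φ v c y)) := by
      intro x hx
      rw [mem_filter] at hx
      rcases hx.2 with h6 | ⟨c, hc, h6⟩
      · exact mem_union_left _ (mem_filter.2 ⟨hx.1, h6⟩)
      · exact mem_union_right _ (mem_biUnion.2 ⟨c, hc, mem_filter.2 ⟨hx.1, h6⟩⟩)
    refine (card_le_card e1).trans ((card_union_le _ _).trans (Nat.add_le_add
      (s.card_neg φ (hLY.trans hY)) (card_biUnion_le.trans ?_)))
    calc ∑ c ∈ ({R, a} : Finset α),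
          (L.filter (fun y => ∃ v ∈ B, 2 * (2 * τ) + 1 < E φ v c y)).card
        ≤ ∑ c ∈ ({R, a} : Finset α), S := by
          refine sum_le_sum fun c hc => ?_
          refine s.exc_card φ (hLY.trans hY) (hRaA c hc) (fun hcL => ?_) hLt
          have h7 := hLY hcL
          simp only [mem_insert, mem_singleton] at hc
          rcases hc with rfl | rfl
          · exact hRY h7
          · exact haY h7
      _ ≤ 2 * S := by
          rw [sum_const, smul_eq_mul]
          exact Nat.mul_le_mul_right _ card_le_two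
  have hGk : k ≤ G.card := by
    have e1 : G.card = (L.filter (fun y => ¬ (h φ y < 0 ∨ ∃ c ∈ ({R, a} : Finset α), ∃ v ∈ B,
      2 * (2 * τ) + 1 < E φ v c y))).card := rfl
    omega
  obtain ⟨Q, hQG, hQk⟩ := exists_subset_card_eq hGk
  have hQY : Q ⊆ Y := hQG.trans ((filter_subset _ _).trans hLY)
  have hQA : Q ⊆ A := hQY.trans hY
  refine s.dom_contra hX hQA (disjoint_of_subset_right hQY hd) hXk hQk.le (by omega) hk hK φ
    hm ?_
  rw [← hHd, cr_comm r s.rsymm]
  have hQ : ∀ y ∈ Q, ∑ x ∈ X, r y x ≤ 2 * (S * (4 * τ + 1)) := by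
    intro y hy
    have g0 := hQG hy
    rw [hG, mem_filter] at g0
    obtain ⟨hyL, g1⟩ := g0
    push Not at g1
    obtain ⟨g1, g2⟩ := g1
    have gR := s.height_le φ hR (hQA hy) (fun e => hRY (e ▸ hQY hy)) (g2 R (by simp))
    have ga := s.height_le φ ha (hQA hy) (fun e => haY (e ▸ hQY hy)) (g2 a (by simp))
    have gb := b1 y (hQY hy)
    have gc := s.r_le φ hR ha hRa
    rw [s.rsymm y R, s.rsymm y a] at gb
    have gd : (S : ℝ) * (2 * (2 * τ) + 1) = S * (4 * τ + 1) := by ring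
    rw [gd] at gR ga
    linarith
  have h7 := sum_le_card_nsmul Q _ _ hQ
  rw [nsmul_eq_mul, hQk] at h7
  have h8 : cr r Q X = ∑ y ∈ Q, ∑ x ∈ X, r y x := rfl
  rw [h8]
  refine h7.trans ?_
  rw [hτ]
  have e1 : (k : ℝ) * (2 * (S * (4 * (S * (2 * t + 1)) + 1))) =
      2 * S * (8 * S * (t * k) + (4 * S + 1) * k) := by ring
  rw [e1, ht]
  have e2 : (4 * (S : ℝ) + 1) * k ≤ (5 * S) * k :=
    mul_le_mul_of_nonneg_right (by linarith) (Nat.cast_nonneg _)
  have e3 : (5 * (S : ℝ)) * k ≤ 5 * S * H := by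
    apply mul_le_mul_of_nonneg_left _ (by positivity)
    have : (0 : ℝ) ≤ k := Nat.cast_nonneg _
    linarith
  have e4 : 2 * (S : ℝ) * (8 * S * (8 * H) + (4 * S + 1) * k) ≤
      2 * S * (8 * S * (8 * H) + 5 * S * H) := by
    apply mul_le_mul_of_nonneg_left _ (by positivity)
    linarith
  refine e4.trans ?_
  have e5 : 0 ≤ (S : ℝ) ^ 2 * H := by positivity
  nlinarith

/-- many points with different images over a fixed point -/
theorem claimC {Y : Finset α} {g : α → α} (hY : Y ⊆ A) (hX : Y.image g ⊆ A)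
    (hg : Set.InjOn g Y) (hd : Disjoint (Y.image g) Y) {k : ℕ}
    (hYk : Y.card = k) (hk : 1000000 * S ^ 3 ≤ k) (hK : 2 * K < k) {a : α} (ha : a ∈ A)
    (haX : a ∉ Y.image g) (haY : a ∉ Y)
    (c1 : ∀ y ∈ Y, ∑ x ∈ Y.image g, r y x + r y a ≤ r (g y) a)
    (c2 : ∀ y ∈ Y, ∀ y' ∈ Y, y ≠ y' → r y y' ≤ r (g y) (g y')) : False := by
  classical
  have hS := s.one_le_S
  have hSR := s.one_le_SR
  have hS3 : 1 ≤ S ^ 3 := Nat.one_le_pow _ _ hS
  have hSS : S ≤ S ^ 3 := Nat.le_self_pow (by norm_num) S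
  have hSS2 : S ^ 2 ≤ S ^ 3 := Nat.pow_le_pow_right hS (by norm_num)
  have hXk : (Y.image g).card = k := by rw [card_image_of_injOn hg, hYk]
  obtain ⟨φ, hb1, hb2, hm⟩ := s.frame (Y.image g) hX (by omega)
  obtain ⟨t, H, hHd, h4, hH0, ht, ht1⟩ := s.one_t φ hX hXk hk hK ⟨hb1, hb2⟩
  obtain ⟨τ, hτ⟩ : ∃ τ : ℝ, τ = S * (2 * t + 1) := ⟨_, rfl⟩
  have hτ3 : 3 * (S : ℝ) ≤ τ := by rw [hτ]; nlinarith
  have hτt : 2 * t + S ≤ τ := by rw [hτ]; nlinarith
  have hkR : (1000000 : ℝ) * S ≤ k := by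
    exact_mod_cast ((Nat.mul_le_mul_left _ hSS).trans hk)
  have hkR2 : (1000000 : ℝ) * S ^ 2 ≤ k := by
    exact_mod_cast ((Nat.mul_le_mul_left _ hSS2).trans hk)
  have hgA : ∀ y ∈ Y, g y ∈ A := fun y hy => hX (mem_image_of_mem g hy)
  have hnX : ∀ y ∈ Y, y ∉ Y.image g := fun y hy e => disjoint_left.1 hd e hy
  -- the points whose image has small height
  set Y0 := Y.filter (fun y => h φ (g y) ≤ t) with hY0
  have hY0Y : Y0 ⊆ Y := filter_subset _ _
  have hY0c : 8 * Y.card ≤ 8 * Y0.card + k := by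
    have h1 := s.card_high φ (X := Y.image g) (H := H) (t := t) hHd.ge hH0
      (by rw [hXk]; exact ht)
    have h2 := card_filter_add_card_filter_not (s := Y) (fun y => h φ (g y) ≤ t)
    have h3 : (Y.filter (fun y => ¬ h φ (g y) ≤ t)).card ≤
        ((Y.image g).filter (fun x => t < h φ x)).card := by
      rw [← card_image_of_injOn (s := Y.filter (fun y => ¬ h φ (g y) ≤ t)) (f := g)
        (hg.mono (by
          intro y hy
          exact (mem_filter.1 (mem_coe.1 hy)).1))]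
      apply card_le_card
      intro x hx
      obtain ⟨y, hy, rfl⟩ := mem_image.1 hx
      rw [mem_filter] at hy
      exact mem_filter.2 ⟨mem_image_of_mem g hy.1, not_le.1 hy.2⟩
    have e2 : Y0.card = (Y.filter (fun y => h φ (g y) ≤ t)).card := rfl
    omega
  have hay : ∀ y ∈ Y, y ≠ a := fun y hy e => haY (e ▸ hy)
  -- the points of large height
  have hclass : ∀ v ∈ B, (Y0.filter (fun y => 2 * τ < h φ y ∧
      k * h φ y ≤ 4 * S * E φ v y a)).card ≤ S + 1 := by
    intro v hv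
    set C := Y0.filter (fun y => 2 * τ < h φ y ∧ k * h φ y ≤ 4 * S * E φ v y a) with hC
    have hCY : C ⊆ Y := (filter_subset _ _).trans hY0Y
    rcases C.eq_empty_or_nonempty with h0 | hne
    · rw [h0]; simp
    obtain ⟨q, hqC, hq⟩ := exists_max_image C (h φ) hne
    have hqY := hCY hqC
    have hq2 := (mem_filter.1 hqC).2
    have hsmall : ∀ y ∈ C.erase q, h φ y ≤ h φ q / (8 * S) := by
      intro y hy
      rw [mem_erase] at hy
      have hyY := hCY hy.2
      have hy2 := (mem_filter.1 hy.2).2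
      have g1 := s.quasi φ v hv y (hY hyY) a ha q (hY hqY) (hay y hyY) (hay q hqY).symm hy.1
      have g2 := s.E_le φ hv (hY hyY) (hY hqY) hy.1
      have g3 := hq y hy.2
      have g5 : (k : ℝ) * h φ y ≤ 4 * S * min (E φ v y a) (E φ v a q) := by
        rw [mul_min_of_nonneg _ _ (by positivity)]
        refine le_min hy2.2 ?_
        rw [s.symm φ v a q]
        exact (mul_le_mul_of_nonneg_left g3 (Nat.cast_nonneg _)).trans hq2.2
      have g6 : (k : ℝ) * h φ y ≤ 4 * S * (h φ y + h φ q + 1) := by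
        refine g5.trans (mul_le_mul_of_nonneg_left (by linarith) (by positivity))
      have g7 : 0 ≤ h φ y := by linarith [hy2.1]
      have g8 : (1000000 * (S : ℝ) ^ 2) * h φ y ≤ k * h φ y :=
        mul_le_mul_of_nonneg_right hkR2 g7
      rw [le_div_iff₀ (by positivity)]
      have g9 : (S : ℝ) * (1000000 * S * h φ y) ≤ S * (4 * (h φ y + h φ q + 1)) := by
        linarith
      have g10 := le_of_mul_le_mul_left g9 (by linarith)
      have g11 : h φ y ≤ S * h φ y := le_mul_of_one_le_left g7 hSR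
      have g12 := hq2.1
      linarith
    have hexc : C.erase q ⊆ (C.erase q).filter
        (fun y => ∃ w ∈ B, 2 * (h φ q / (8 * S)) + 1 < E φ w q y) := by
      intro y hy
      rw [mem_filter]
      refine ⟨hy, ?_⟩
      by_contra hcon
      push Not at hcon
      rw [mem_erase] at hy
      have hyY := hCY hy.2
      have g1 := s.height_le φ (hY hqY) (hY hyY) (Ne.symm hy.1) hcon
      have g2 := c2 q hqY y hyY (Ne.symm hy.1)
      have hgne : g q ≠ g y := fun e => hy.1 (hg hyY hqY e.symm)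
      have g3 := s.r_le φ (hgA q hqY) (hgA y hyY) hgne
      have g4 := (mem_filter.1 (filter_subset _ _ hqC : q ∈ Y0)).2
      have g5 := (mem_filter.1 (filter_subset _ _ hy.2 : y ∈ Y0)).2
      have g6 : S * (2 * (h φ q / (8 * S)) + 1) = h φ q / 4 + S := by
        field_simp
        ring
      rw [g6] at g1
      have g7 := (mem_filter.1 hy.2).2.1
      linarith [hq2.1]
    have h9 := (card_le_card hexc).trans (s.exc_card φ ((erase_subset _ _).trans
      (hCY.trans hY)) (hY hqY) (notMem_erase q C) hsmall)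
    rw [card_erase_of_mem hqC] at h9
    omega
  have hhigh : (Y0.filter (fun y => 2 * τ < h φ y)).card ≤ S * (S + 1) := by
    have e1 : Y0.filter (fun y => 2 * τ < h φ y) ⊆ B.biUnion (fun v => Y0.filter
        (fun y => 2 * τ < h φ y ∧ k * h φ y ≤ 4 * S * E φ v y a)) := by
      intro y hy
      rw [mem_filter] at hy
      have hyY := hY0Y hy.1
      have hyt := (mem_filter.1 hy.1).2
      have g1 := s.high_cross φ hX hXk (H := H) hHd.ge hH0 ht (by linarith) (by omega)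
        (hY hyY) (hnX y hyY) (by rw [← hτ]; exact hy.2)
      have g2 := c1 y hyY
      have g3 := s.r_le φ (hgA y hyY) ha (fun e => haX (e ▸ mem_image_of_mem g hyY))
      have g4 := s.sum φ y (hY hyY) a ha (hay y hyY)
      by_contra hcon
      have g5 : ∀ v ∈ B, 4 * S * E φ v y a ≤ k * h φ y := by
        intro v hv
        by_contra hc
        push Not at hc
        exact hcon (mem_biUnion.2 ⟨v, hv, mem_filter.2 ⟨hy.1, hy.2, hc.le⟩⟩)
      have g6 := sum_le_card_nsmul B _ _ g5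
      rw [nsmul_eq_mul, s.hB, ← mul_sum] at g6
      have g7 : (S : ℝ) * (4 * ∑ v ∈ B, E φ v y a) ≤ S * (k * h φ y) := by linarith
      have g8 := le_of_mul_le_mul_left g7 (by linarith)
      linarith [hy.2]
    refine (card_le_card e1).trans (card_biUnion_le.trans ?_)
    calc ∑ v ∈ B, (Y0.filter (fun y => 2 * τ < h φ y ∧ k * h φ y ≤ 4 * S * E φ v y a)).card
        ≤ ∑ v ∈ B, (S + 1) := sum_le_sum hclass
      _ = S * (S + 1) := by rw [sum_const, smul_eq_mul, s.hB]
  -- the points of small height which are not near to `a`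
  set L := Y0.filter (fun y => h φ y ≤ 2 * τ) with hL
  have hLY : L ⊆ Y := (filter_subset _ _).trans hY0Y
  have hLc : Y0.card ≤ L.card + S * (S + 1) := by
    have h2 := card_filter_add_card_filter_not (s := Y0) (fun y => h φ y ≤ 2 * τ)
    have h3 : (Y0.filter (fun y => ¬ h φ y ≤ 2 * τ)).card =
        (Y0.filter (fun y => 2 * τ < h φ y)).card := by
      congr 1
      exact filter_congr fun x _ => not_le
    have e2 : L.card = (Y0.filter (fun x => h φ x ≤ 2 * τ)).card := rfl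
    omega
  have hLt : ∀ y ∈ L, h φ y ≤ 2 * τ := fun y hy => (mem_filter.1 hy).2
  set Q := L.filter (fun y => ¬ (h φ y < 0 ∨ ∃ v ∈ B, 2 * (2 * τ) + 1 < E φ v a y)) with hQ
  have h5 := card_filter_add_card_filter_not (s := L)
    (fun y => h φ y < 0 ∨ ∃ v ∈ B, 2 * (2 * τ) + 1 < E φ v a y)
  have h6 : (L.filter (fun y => h φ y < 0 ∨ ∃ v ∈ B, 2 * (2 * τ) + 1 < E φ v a y)).card ≤
      1 + S := by
    have e1 : L.filter (fun y => h φ y < 0 ∨ ∃ v ∈ B, 2 * (2 * τ) + 1 < E φ v a y) ⊆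
        L.filter (fun y => h φ y < 0) ∪
          L.filter (fun y => ∃ v ∈ B, 2 * (2 * τ) + 1 < E φ v a y) := by
      intro x hx
      rw [mem_filter] at hx
      rcases hx.2 with h6 | h6
      · exact mem_union_left _ (mem_filter.2 ⟨hx.1, h6⟩)
      · exact mem_union_right _ (mem_filter.2 ⟨hx.1, h6⟩)
    refine (card_le_card e1).trans ((card_union_le _ _).trans (Nat.add_le_add
      (s.card_neg φ (hLY.trans hY)) (s.exc_card φ (hLY.trans hY) ha
        (fun e => haY (hLY e)) hLt)))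
  have hQY : Q ⊆ Y := (filter_subset _ _).trans hLY
  have hQA : Q ⊆ A := hQY.trans hY
  have hQc : L.card ≤ Q.card + (1 + S) := by
    have e1 : Q.card = (L.filter (fun y => ¬ (h φ y < 0 ∨ ∃ v ∈ B,
      2 * (2 * τ) + 1 < E φ v a y))).card := rfl
    omega
  have hSSS : S * (S + 1) = S ^ 2 + S := by ring
  refine s.dom_contra hX hQA (disjoint_of_subset_right hQY hd) hXk
    ((card_le_card hQY).trans hYk.le) (by omega) hk hK φ hm ?_
  rw [← hHd, cr_comm r s.rsymm]
  have hQs : ∀ y ∈ Q, ∑ x ∈ Y.image g, r y x ≤ t + S * (4 * τ + 1) := by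
    intro y hy
    have g0 := hy
    rw [hQ, mem_filter] at g0
    obtain ⟨hyL, g1⟩ := g0
    push Not at g1
    obtain ⟨g1, g2⟩ := g1
    have ga := s.height_le φ ha (hQA hy) (fun e => haY (e ▸ hQY hy)) g2
    have gb := c1 y (hQY hy)
    have gc := s.r_le φ (hgA y (hQY hy)) ha (fun e => haX (e ▸ mem_image_of_mem g (hQY hy)))
    rw [s.rsymm y a] at gb
    have gd : (S : ℝ) * (2 * (2 * τ) + 1) = S * (4 * τ + 1) := by ring
    rw [gd] at ga
    have ge := (mem_filter.1 (filter_subset _ _ hyL : y ∈ Y0)).2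
    linarith
  have h7 := sum_le_card_nsmul Q _ _ hQs
  rw [nsmul_eq_mul] at h7
  have h8 : cr r Q (Y.image g) = ∑ y ∈ Q, ∑ x ∈ Y.image g, r y x := rfl
  rw [h8]
  have h9 : (Q.card : ℝ) * (t + S * (4 * τ + 1)) ≤ k * (t + S * (4 * τ + 1)) := by
    apply mul_le_mul_of_nonneg_right
    · exact_mod_cast (card_le_card hQY).trans hYk.le
    · have : 0 ≤ τ := by linarith
      positivity
  refine h7.trans (h9.trans ?_)
  rw [hτ]
  have e1 : (k : ℝ) * (t + S * (4 * (S * (2 * t + 1)) + 1)) =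
      t * k + 8 * S ^ 2 * (t * k) + (4 * S ^ 2 + S) * k := by ring
  rw [e1, ht]
  have hk0 : (0 : ℝ) ≤ k := Nat.cast_nonneg _
  have hS2 : (S : ℝ) ≤ S ^ 2 := by nlinarith
  have e2 : (4 * (S : ℝ) ^ 2 + S) * k ≤ (5 * S ^ 2) * k :=
    mul_le_mul_of_nonneg_right (by linarith) hk0
  have e3 : (5 * (S : ℝ) ^ 2) * k ≤ 5 * S ^ 2 * H := by
    apply mul_le_mul_of_nonneg_left _ (by positivity)
    linarith
  have e5 : H ≤ (S : ℝ) ^ 2 * H := le_mul_of_one_le_left hH0.le (by nlinarith)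
  nlinarith

end Sy

end Pool.Agent.T6.H83.SH
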