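import Pool.Agent.T6.H83.SH.Abs4

/-!
# The number of the points which are not periodic
-/

set_option autoImplicit false
set_option linter.unusedSectionVars false
set_option linter.unusedVariables false

namespace Pool.Agent.T6.H83.SH

open Finset
open Pool.Agent.T6.H83.RM

variable {α ι Φ : Type*} [DecidableEq α] [DecidableEq ι]

/-- at most one large term -/
lemma one_big {β : Type*} [DecidableEq β] {C : Finset β} (hC : C.Nonempty) (g : β → ℕ) {k : ℕ}
    (h : ∀ c ∈ C, ∀ c' ∈ C, c ≠ c' → k ≤ g c → k ≤ g c' → False) :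
    ∃ a ∈ C, ∑ c ∈ C, g c ≤ g a + C.card * k ∧ ∀ c ∈ C, c ≠ a → g c < k := by
  obtain ⟨a, ha, hmax⟩ := exists_max_image C g hC
  have h1 : ∀ c ∈ C, c ≠ a → g c < k := by
    intro c hc hca
    by_contra hcon
    push Not at hcon
    exact h c hc a ha hca hcon (hcon.trans (hmax c hc))
  refine ⟨a, ha, ?_, h1⟩
  rw [← add_sum_erase C g ha]
  apply Nat.add_le_add_left
  have h2 : ∑ c ∈ C.erase a, g c ≤ (C.erase a).card • k :=
    sum_le_card_nsmul _ _ _ fun c hc => (h1 c (mem_of_mem_erase hc) (ne_of_mem_erase hc)).le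
  rw [smul_eq_mul] at h2
  exact h2.trans (Nat.mul_le_mul_right _ (card_le_card (erase_subset _ _)))

variable {A : Finset α} {f : α → α} {B : Finset ι} {inf : ι} {S K : ℕ} {r : α → α → ℝ}
  {E : Φ → ι → α → α → ℝ} {h : Φ → α → ℝ}

namespace Sy

variable (s : Sy Φ A f B inf S K r E h)
include s

lemma iter_mem (n : ℕ) {x : α} (hx : x ∈ A) : f^[n] x ∈ A := by
  induction n with
  | zero => exact hx
  | succ n ih => rw [Function.iterate_succ_apply']; exact s.hf _ ih

/-- a point and a periodic point of another orbit -/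
lemma r_zero {n : ℕ} {x a c : α} (hx : x ∈ A) (ha : a ∈ A) (hc : c ∈ A) (hxa : f^[n] x = a)
    (haa : f^[n] a = a) (hxne : x ≠ a) (hcc : f^[n] c = c) (hca : c ≠ a) : r c x = 0 := by
  have h1 := s.t1 n {x, a} a (by
    intro z hz
    simp only [mem_insert, mem_singleton] at hz
    rcases hz with rfl | rfl <;> assumption) ha (by
    intro z hz
    simp only [mem_insert, mem_singleton] at hz
    rcases hz with rfl | rfl <;> assumption) c hc (by rw [hcc]; exact hca)
  rw [sum_pair hxne, hcc] at h1
  have hcx : c ≠ x := by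
    rintro rfl
    exact hca (hcc.symm.trans hxa)
  have h2 := s.r0 c hc x hx hcx
  linarith

/-- either few periodic points or few other points -/
theorem excl_per {N k : ℕ} (hN : ∀ x ∈ A, f^[N] (f^[N] x) = f^[N] x)
    (hk : 1000000 * S ^ 3 ≤ k) (hK : 2 * K < k) :
    (A.filter (fun x => f^[N] x = x)).card < 2 * k ∨
      (A.filter (fun x => ¬ f^[N] x = x)).card < k := by
  classical
  by_contra hcon
  push Not at hcon
  obtain ⟨h1, h2⟩ := hcon
  obtain ⟨P, hP, hPk⟩ := exists_subset_card_eq h2
  have h3 : k ≤ ((A.filter (fun x => f^[N] x = x)) \ P.image (f^[N])).card := by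
    have := le_card_sdiff (P.image (f^[N])) (A.filter (fun x => f^[N] x = x))
    have h4 : (P.image (f^[N])).card ≤ k := hPk ▸ card_image_le
    omega
  obtain ⟨Q, hQ, hQk⟩ := exists_subset_card_eq h3
  have hPA : P ⊆ A := hP.trans (filter_subset _ _)
  have hQA : Q ⊆ A := hQ.trans (sdiff_subset.trans (filter_subset _ _))
  have hQp : ∀ y ∈ Q, f^[N] y = y := fun y hy =>
    (mem_filter.1 (sdiff_subset (hQ hy))).2
  have hPp : ∀ x ∈ P, ¬ f^[N] x = x := fun x hx => (mem_filter.1 (hP hx)).2
  refine s.excl hPA hQA ?_ hPk hQk (by omega) (by omega) ?_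
  · rw [disjoint_left]
    intro x hx hx'
    exact hPp x hx (hQp x hx')
  · intro x hx y hy
    refine s.r_zero (n := N) (hPA hx) (s.iter_mem N (hPA hx)) (hQA hy) rfl (hN x (hPA hx))
      (fun e => hPp x hx e.symm) (hQp y hy) ?_
    intro e
    have := (mem_sdiff.1 (hQ hy)).2
    exact this (mem_image.2 ⟨x, hx, e.symm⟩)

/-- at most one periodic point has many points over it -/
lemma fibA {N k : ℕ} (hN : ∀ x ∈ A, f^[N] (f^[N] x) = f^[N] x)
    (hk : 1000000 * S ^ 3 ≤ k) (hK : 2 * K < k) {a c : α} (ha : a ∈ A) (hc : c ∈ A)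
    (haa : f^[N] a = a) (hcc : f^[N] c = c) (hac : a ≠ c)
    (h1 : k ≤ ((A.filter (fun x => f^[N] x = a)).erase a).card)
    (h2 : k ≤ ((A.filter (fun x => f^[N] x = c)).erase c).card) : False := by
  obtain ⟨P, hP, hPk⟩ := exists_subset_card_eq h1
  obtain ⟨Q, hQ, hQk⟩ := exists_subset_card_eq h2
  have hPA : P ⊆ A := hP.trans ((erase_subset _ _).trans (filter_subset _ _))
  have hQA : Q ⊆ A := hQ.trans ((erase_subset _ _).trans (filter_subset _ _))
  have hPa : ∀ x ∈ P, f^[N] x = a := fun x hx => (mem_filter.1 (mem_of_mem_erase (hP hx))).2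
  have hQc : ∀ x ∈ Q, f^[N] x = c := fun x hx => (mem_filter.1 (mem_of_mem_erase (hQ hx))).2
  refine s.claimA hPA hQA ?_ hPk hQk (by omega) (by omega) ha hc hac ?_ ?_ ?_ ?_ ?_
  · rw [disjoint_left]
    intro x hx hx'
    exact hac ((hPa x hx).symm.trans (hQc x hx'))
  · intro h3
    exact hac (haa.symm.trans (hQc a h3))
  · intro h3
    exact hac ((hPa c h3).symm.trans hcc)
  · intro y hy
    exact s.r_zero (hQA hy) hc ha (hQc y hy) hcc (ne_of_mem_erase (hQ hy)) haa hac
  · intro x hx
    exact s.r_zero (hPA hx) ha hc (hPa x hx) haa (ne_of_mem_erase (hP hx)) hcc (Ne.symm hac)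
  · intro y hy
    have := s.t1 N P a hPA ha hPa y (hQA hy) (by rw [hQc y hy]; exact Ne.symm hac)
    rwa [hQc y hy] at this

/-- the points over a periodic point which is not fixed -/
lemma caseD1 {N k : ℕ} (hN : ∀ x ∈ A, f^[N] (f^[N] x) = f^[N] x)
    (hk : 1000000 * S ^ 3 ≤ k) (hK : 2 * K < k) {a : α} (ha : a ∈ A)
    (haa : f^[N] a = a) (hfa : f a ≠ a)
    (hsm : ((A.filter (fun x => f^[N] x = f a)).erase (f a)).card < k) :
    ∃ c ∈ A, (A.filter (fun x => f^[N] x = a)).card ≤
      (A.filter (fun x => f x = c)).card + k * k + 1 := by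
  classical
  set Fa := A.filter (fun x => f^[N] x = a) with hFa
  set C := A.filter (fun x => f^[N] x = f a) with hC
  have hfaA : f a ∈ A := s.hf a ha
  have hcomm : ∀ x, f^[N] (f x) = f (f^[N] x) := fun x => by
    rw [← Function.iterate_succ_apply, Function.iterate_succ_apply']
  have hfaC : f a ∈ C := by
    rw [hC, mem_filter]
    exact ⟨hfaA, by rw [hcomm, haa]⟩
  have hCk : C.card ≤ k := by
    have := card_erase_of_mem hfaC
    have h0 := card_pos.2 ⟨_, hfaC⟩
    omega
  have haFa : a ∈ Fa := by rw [hFa, mem_filter]; exact ⟨ha, haa⟩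
  have hmaps : ∀ x ∈ Fa.erase a, f x ∈ C := by
    intro x hx
    have h1 := mem_of_mem_erase hx
    rw [hFa, mem_filter] at h1
    rw [hC, mem_filter]
    exact ⟨s.hf x h1.1, by rw [hcomm, h1.2]⟩
  have h1 : (Fa.erase a).card = ∑ c ∈ C, ((Fa.erase a).filter (fun x => f x = c)).card :=
    card_eq_sum_card_fiberwise hmaps
  obtain ⟨c₀, hc₀, h2, -⟩ := one_big (k := k) ⟨_, hfaC⟩
    (fun c => ((Fa.erase a).filter (fun x => f x = c)).card) (by
    -- two large fibres; the first is not over `f a`
    have key : ∀ c ∈ C, ∀ c' ∈ C, c ≠ c' → c ≠ f a →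
        k ≤ ((Fa.erase a).filter (fun x => f x = c)).card →
        k ≤ ((Fa.erase a).filter (fun x => f x = c')).card → False := by
      intro c hc c' hc' hcc' hcfa h3 h4
      obtain ⟨P, hP, hPk⟩ := exists_subset_card_eq h3
      obtain ⟨Q, hQ, hQk⟩ := exists_subset_card_eq h4
      have hcA : c ∈ A := filter_subset _ _ hc
      have hcA' : c' ∈ A := filter_subset _ _ hc'
      have hPF : ∀ x ∈ P, x ∈ A ∧ f^[N] x = a ∧ x ≠ a ∧ f x = c := by
        intro x hx
        have e1 := mem_filter.1 (hP hx)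
        have e2 := mem_filter.1 (mem_of_mem_erase e1.1)
        exact ⟨e2.1, e2.2, ne_of_mem_erase e1.1, e1.2⟩
      have hQF : ∀ x ∈ Q, x ∈ A ∧ f^[N] x = a ∧ x ≠ a ∧ f x = c' := by
        intro x hx
        have e1 := mem_filter.1 (hQ hx)
        have e2 := mem_filter.1 (mem_of_mem_erase e1.1)
        exact ⟨e2.1, e2.2, ne_of_mem_erase e1.1, e1.2⟩
      have hPA : P ⊆ A := fun x hx => (hPF x hx).1
      have hQA : Q ⊆ A := fun x hx => (hQF x hx).1
      have hcN : f^[N] c = f a := (mem_filter.1 hc).2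
      have hcN' : f^[N] c' = f a := (mem_filter.1 hc').2
      have hNfa : f^[N] (f a) = f a := (mem_filter.1 hfaC).2
      refine s.claimD1 hPA hQA ?_ hPk hQk (by omega) (by omega) ha hfaA hcA hcA' ?_ ?_ ?_ ?_ hfa
        (Ne.symm hcc') hcfa ?_ ?_ ?_ (Or.inr ?_) ?_
      · rw [disjoint_left]
        intro x hx hx'
        exact hcc' ((hPF x hx).2.2.2.symm.trans (hQF x hx').2.2.2)
      · intro h5; exact (hPF a h5).2.2.1 rfl
      · intro h5; exact hfa (hNfa.symm.trans (hPF _ h5).2.1)
      · intro h5; exact hfa (hcN.symm.trans (hPF _ h5).2.1)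
      · intro h5; exact hfa (hcN'.symm.trans (hQF _ h5).2.1)
      · intro x hx
        exact s.r_zero (hPA hx) ha hfaA (hPF x hx).2.1 haa (hPF x hx).2.2.1 hNfa hfa
      · have := s.t1 N P a hPA ha (fun x hx => (hPF x hx).2.1) c hcA (by rw [hcN]; exact hfa)
        rwa [hcN] at this
      · intro x hx
        have := s.t1 1 {x} c (singleton_subset_iff.2 (hPA hx)) hcA (by
          intro z hz
          rw [mem_singleton] at hz
          rw [hz]
          exact (hPF x hx).2.2.2) a ha (fun e => hcfa e.symm)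
        rwa [sum_singleton] at this
      · have := s.t1 N Q a hQA ha (fun x hx => (hQF x hx).2.1) c' hcA' (by rw [hcN']; exact hfa)
        rwa [hcN'] at this
      · intro y hy
        have hfy : f^[1] y = c' := (hQF y hy).2.2.2
        have := s.t1 1 P c hPA hcA (fun x hx => (hPF x hx).2.2.2) y (hQA hy) (by
          rw [hfy]; exact Ne.symm hcc')
        rwa [hfy] at this
    intro c hc c' hc' hcc' h3 h4
    by_cases h5 : c = f a
    · exact key c' hc' c hc (Ne.symm hcc') (fun e => hcc' (h5.trans e.symm)) h4 h3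
    · exact key c hc c' hc' hcc' h5 h3 h4)
  have h3 : ((Fa.erase a).filter (fun x => f x = c₀)).card ≤
      (A.filter (fun x => f x = c₀)).card := by
    refine card_le_card ?_
    intro x hx
    rw [mem_filter] at hx ⊢
    exact ⟨(mem_filter.1 (mem_of_mem_erase hx.1)).1, hx.2⟩
  refine ⟨c₀, filter_subset _ _ hc₀, ?_⟩
  have h4 : C.card * k ≤ k * k := Nat.mul_le_mul_right _ hCk
  have h5 : Fa.card = (Fa.erase a).card + 1 := (card_erase_add_one haFa).symm
  have h6 : ∑ c ∈ C, ((Fa.erase a).filter (fun x => f x = c)).card ≤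
    ((Fa.erase a).filter (fun x => f x = c₀)).card + C.card * k := h2
  omega

/-- the points over a fixed point -/
lemma caseD2 {k J : ℕ}
    (hk : 1000000 * S ^ 3 ≤ k) (hK : 2 * K < k) {a : α} (ha : a ∈ A) (hfa : f a = a)
    {Fa : Finset α} (hFaA : Fa ⊆ A) (hFaf : ∀ x ∈ Fa, f x ∈ Fa)
    (hJ : ∀ x ∈ Fa, f^[J] x = a) (hall : ∀ x ∈ A, ∀ j, f^[j] x = a → x ∈ Fa) :
    ∃ c ∈ A, Fa.card ≤ (A.filter (fun x => f x = c)).card + (k + 1) ^ 2 +
      k * (2 * k + 4 * J) := by
  classical
  have hS := s.one_le_S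
  have hS3 : 1 ≤ S ^ 3 := Nat.one_le_pow _ _ hS
  have haj : ∀ j, f^[j] a = a := fun j => Function.iterate_fixed hfa j
  have hmono : ∀ i j x, i ≤ j → f^[i] x = a → f^[j] x = a := by
    intro i j x hij hx
    obtain ⟨t, rfl⟩ := Nat.exists_eq_add_of_le hij
    rw [add_comm, Function.iterate_add_apply, hx, haj]
  set D : ℕ → Finset α := fun j => Fa.filter (fun x => f^[j] x = a) with hD
  have hDmem : ∀ j x, x ∈ D j ↔ x ∈ Fa ∧ f^[j] x = a := fun j x => by rw [hD]; simp
  have hDFa : ∀ j, D j ⊆ Fa := fun j => filter_subset _ _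
  have hDm : ∀ i j, i ≤ j → D i ⊆ D j := by
    intro i j hij x hx
    rw [hDmem] at hx ⊢
    exact ⟨hx.1, hmono i j x hij hx.2⟩
  have hDJ : D J = Fa := by
    ext x
    rw [hDmem]
    exact ⟨fun h => h.1, fun h => ⟨h, hJ x h⟩⟩
  by_cases hbig : ∃ j, k + 2 ≤ (D j).card
  swap
  · push Not at hbig
    have h1 := hbig J
    rw [hDJ] at h1
    have : k + 1 ≤ (k + 1) ^ 2 := Nat.le_self_pow (by norm_num) _
    exact ⟨a, ha, by omega⟩
  obtain ⟨j₀, hj₀, hmin⟩ : ∃ j, k + 2 ≤ (D j).card ∧ ∀ i, i < j → (D i).card < k + 2 :=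
    ⟨Nat.find hbig, Nat.find_spec hbig, fun i hi => by
      have := Nat.find_min hbig hi
      omega⟩
  have hD0 : (D 0).card ≤ 1 := by
    rw [card_le_one]
    intro x hx y hy
    rw [hDmem] at hx hy
    exact hx.2.trans hy.2.symm
  have hj1 : 1 ≤ j₀ := by
    rcases Nat.eq_zero_or_pos j₀ with h0 | h0
    · rw [h0] at hj₀
      omega
    · exact h0
  have haFa : a ∈ Fa := hall a ha 0 rfl
  have haD : ∀ j, a ∈ D j := fun j => (hDmem j a).2 ⟨haFa, haj j⟩
  -- the number of the points of small level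
  obtain ⟨cc, hccA, hDj⟩ : ∃ c ∈ A, (D j₀).card ≤
      (A.filter (fun x => f x = c)).card + (k + 1) ^ 2 := by
    obtain ⟨m, rfl⟩ : ∃ m, j₀ = m + 1 := ⟨j₀ - 1, by omega⟩
    have hm := hmin m (Nat.lt_succ_self m)
    rcases Nat.eq_zero_or_pos m with h0 | hm0
    · subst h0
      have h1 : (D (0 + 1)).card ≤ (A.filter (fun x => f x = a)).card := by
        refine card_le_card ?_
        intro x hx
        rw [hDmem] at hx
        exact mem_filter.2 ⟨hFaA hx.1, hx.2⟩
      exact ⟨a, ha, h1.trans (Nat.le_add_right _ _)⟩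
    -- the fibres over the points of level `m`
    set T := D (m + 1) \ D m with hT
    have hTmem : ∀ x, x ∈ T ↔ x ∈ Fa ∧ f^[m + 1] x = a ∧ f^[m] x ≠ a := by
      intro x
      rw [hT, mem_sdiff, hDmem, hDmem]
      tauto
    have hmaps : ∀ x ∈ T, f x ∈ D m := by
      intro x hx
      rw [hTmem] at hx
      rw [hDmem]
      exact ⟨hFaf x hx.1, by rw [← Function.iterate_succ_apply]; exact hx.2.1⟩
    have h1 : T.card = ∑ c ∈ D m, (T.filter (fun x => f x = c)).card :=
      card_eq_sum_card_fiberwise hmaps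
    obtain ⟨c₀, hc₀, h2, -⟩ := one_big (k := k) ⟨a, haD m⟩
      (fun c => (T.filter (fun x => f x = c)).card) (by
      intro c hc c' hc' hcc' h3 h4
      obtain ⟨P, hP, hPk⟩ := exists_subset_card_eq h3
      obtain ⟨Q, hQ, hQk⟩ := exists_subset_card_eq h4
      have hcA : c ∈ A := hFaA (hDFa _ hc)
      have hcA' : c' ∈ A := hFaA (hDFa _ hc')
      have hcm : f^[m] c = a := ((hDmem _ _).1 hc).2
      have hcm' : f^[m] c' = a := ((hDmem _ _).1 hc').2
      have hPF : ∀ x ∈ P, x ∈ A ∧ f^[m] x ≠ a ∧ f x = c := by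
        intro x hx
        have e1 := mem_filter.1 (hP hx)
        have e2 := (hTmem x).1 e1.1
        exact ⟨hFaA e2.1, e2.2.2, e1.2⟩
      have hQF : ∀ x ∈ Q, x ∈ A ∧ f^[m] x ≠ a ∧ f x = c' := by
        intro x hx
        have e1 := mem_filter.1 (hQ hx)
        have e2 := (hTmem x).1 e1.1
        exact ⟨hFaA e2.1, e2.2.2, e1.2⟩
      have hPA : P ⊆ A := fun x hx => (hPF x hx).1
      have hQA : Q ⊆ A := fun x hx => (hQF x hx).1
      obtain ⟨i, rfl⟩ : ∃ i, m = i + 1 := ⟨m - 1, by omega⟩
      have hPi : ∀ x ∈ P, f^[i + 1] x = f^[i] c := fun x hx => by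
        rw [Function.iterate_succ_apply, (hPF x hx).2.2]
      have hQi : ∀ x ∈ Q, f^[i + 1] x = f^[i] c' := fun x hx => by
        rw [Function.iterate_succ_apply, (hQF x hx).2.2]
      obtain ⟨x₁, hx₁⟩ : P.Nonempty := by rw [← card_pos]; omega
      obtain ⟨x₂, hx₂⟩ : Q.Nonempty := by rw [← card_pos]; omega
      have hR₁ : f^[i] c ≠ a := by rw [← hPi x₁ hx₁]; exact (hPF x₁ hx₁).2.1
      have hR₂ : f^[i] c' ≠ a := by rw [← hQi x₂ hx₂]; exact (hQF x₂ hx₂).2.1
      have hfR₁ : f (f^[i] c) = a := by rw [← Function.iterate_succ_apply' f i]; exact hcm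
      have hfR₂ : f (f^[i] c') = a := by rw [← Function.iterate_succ_apply' f i]; exact hcm'
      have hlift : ∀ z, f z = a → f^[i + 1] z = a := by
        intro z hz
        rw [Function.iterate_succ_apply, hz, haj]
      have hca : c ≠ a := fun e => hR₁ (by rw [e, haj])
      have hca' : c' ≠ a := fun e => hR₂ (by rw [e, haj])
      -- the points `c` and `f^[i] c'` are different
      have hdiff : ∀ u v : α, f^[i] u ≠ a → f^[i] v ≠ a → f (f^[i] v) = a → u ≠ v →
          u ≠ f^[i] v := by
        intro u v hu hv hfv huv e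
        rcases Nat.eq_zero_or_pos i with h0 | h0
        · subst h0
          exact huv e
        · obtain ⟨t, rfl⟩ : ∃ t, i = t + 1 := ⟨i - 1, by omega⟩
          apply hu
          rw [Function.iterate_succ_apply, e, hfv, haj]
      refine s.claimD2 hPA hQA ?_ hPk hQk (by omega) (by omega) ha hcA hcA'
        (R₁ := f^[i] c) (R₂ := f^[i] c') (s.iter_mem i hcA) (s.iter_mem i hcA')
        ?_ ?_ ?_ ?_ ?_ ?_ (Ne.symm hcc') hR₁ hR₂ ?_ ?_ ?_
      · rw [disjoint_left]
        intro x hx hx'
        exact hcc' ((hPF x hx).2.2.symm.trans (hQF x hx').2.2)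
      · intro h5; exact (hPF a h5).2.1 (haj _)
      · intro h5; exact (hQF a h5).2.1 (haj _)
      · intro h5; exact (hQF c h5).2.1 hcm
      · intro h5; exact (hPF c' h5).2.1 hcm'
      · intro h5; exact (hPF _ h5).2.1 (hlift _ hfR₁)
      · intro h5; exact (hQF _ h5).2.1 (hlift _ hfR₂)
      · intro y hy
        have hne : c ≠ f^[i] c' := hdiff c c' hR₁ hR₂ hfR₂ hcc'
        have := s.t1 (i + 1) {c, f^[i] c', a} a (by
          intro z hz
          simp only [mem_insert, mem_singleton] at hz
          rcases hz with rfl | rfl | rfl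
          · exact hcA
          · exact s.iter_mem i hcA'
          · exact ha) ha (by
          intro z hz
          simp only [mem_insert, mem_singleton] at hz
          rcases hz with rfl | rfl | rfl
          · exact hcm
          · exact hlift _ hfR₂
          · exact haj _) y (hQA hy) (hQF y hy).2.1
        rw [sum_insert (by
          simp only [mem_insert, mem_singleton, not_or]; exact ⟨hne, hca⟩),
          sum_pair hR₂, hQi y hy] at this
        linarith
      · intro x hx
        have hne : c' ≠ f^[i] c := hdiff c' c hR₂ hR₁ hfR₁ (Ne.symm hcc')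
        have := s.t1 (i + 1) {c', f^[i] c, a} a (by
          intro z hz
          simp only [mem_insert, mem_singleton] at hz
          rcases hz with rfl | rfl | rfl
          · exact hcA'
          · exact s.iter_mem i hcA
          · exact ha) ha (by
          intro z hz
          simp only [mem_insert, mem_singleton] at hz
          rcases hz with rfl | rfl | rfl
          · exact hcm'
          · exact hlift _ hfR₁
          · exact haj _) x (hPA hx) (hPF x hx).2.1
        rw [sum_insert (by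
          simp only [mem_insert, mem_singleton, not_or]; exact ⟨hne, hca'⟩),
          sum_pair hR₁, hPi x hx] at this
        linarith
      · intro y hy
        have hfy : f^[1] y = c' := (hQF y hy).2.2
        have := s.t1 1 P c hPA hcA (fun x hx => (hPF x hx).2.2) y (hQA hy) (by
          rw [hfy]; exact Ne.symm hcc')
        rwa [hfy] at this)
    have h3 : (T.filter (fun x => f x = c₀)).card ≤ (A.filter (fun x => f x = c₀)).card := by
      refine card_le_card ?_
      intro x hx
      rw [mem_filter] at hx ⊢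
      exact ⟨hFaA ((hTmem x).1 hx.1).1, hx.2⟩
    refine ⟨c₀, hFaA (hDFa _ hc₀), ?_⟩
    have h4 : (D m).card * k ≤ (k + 1) * k := Nat.mul_le_mul_right _ (by omega)
    have h5 : (D (m + 1)).card ≤ T.card + (D m).card := by
      have := card_sdiff_add_card (D (m + 1)) (D m)
      have h6 := card_le_card (subset_union_left : D (m + 1) ⊆ D (m + 1) ∪ D m)
      have h7 : T.card = (D (m + 1) \ D m).card := rfl
      omega
    have h6 : ∑ c ∈ D m, (T.filter (fun x => f x = c)).card ≤
      (T.filter (fun x => f x = c₀)).card + (D m).card * k := h2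
    have h7 : (k + 1) ^ 2 = (k + 1) * k + (k + 1) := by ring
    omega
  -- the points of large level
  set lev : α → ℕ := fun x => sInf {j | f^[j] x = a} with hlev
  have hlev1 : ∀ x ∈ Fa, f^[lev x] x = a := fun x hx =>
    Nat.sInf_mem (s := {j | f^[j] x = a}) ⟨J, hJ x hx⟩
  have hlev2 : ∀ x, ∀ j, j < lev x → f^[j] x ≠ a := fun x j hj h =>
    Nat.notMem_of_lt_sInf hj h
  have hlevJ : ∀ x ∈ Fa, lev x ≤ J := fun x hx => Nat.sInf_le (hJ x hx)
  set U := Fa \ D j₀ with hU
  have hUmem : ∀ x ∈ U, x ∈ Fa ∧ j₀ < lev x := by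
    intro x hx
    rw [hU, mem_sdiff, hDmem] at hx
    refine ⟨hx.1, ?_⟩
    by_contra hcon
    push Not at hcon
    exact hx.2 ⟨hx.1, hmono _ _ _ hcon (hlev1 x hx.1)⟩
  set ρ : α → α := fun x => f^[lev x - 1] x with hρ
  have hρ1 : ∀ x ∈ U, f (ρ x) = a := by
    intro x hx
    obtain ⟨h1, h2⟩ := hUmem x hx
    rw [hρ]
    simp only
    rw [← Function.iterate_succ_apply' f, Nat.succ_eq_add_one,
      show lev x - 1 + 1 = lev x by omega]
    exact hlev1 x h1
  have hρ2 : ∀ x ∈ U, ρ x ≠ a := by
    intro x hx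
    obtain ⟨h1, h2⟩ := hUmem x hx
    exact hlev2 x _ (by omega)
  have hρA : ∀ x ∈ U, ρ x ∈ A := fun x hx => s.iter_mem _ (hFaA (hUmem x hx).1)
  -- the number of the classes
  have hcl : (U.image ρ).card < k := by
    by_contra hcon
    push Not at hcon
    obtain ⟨R0, hR0, hR0k⟩ := exists_subset_card_eq hcon
    have hpre : ∀ R ∈ R0, ∃ y ∈ A, f y = R := by
      intro R hR
      obtain ⟨x, hx, rfl⟩ := mem_image.1 (hR0 hR)
      obtain ⟨h1, h2⟩ := hUmem x hx
      refine ⟨f^[lev x - 2] x, s.iter_mem _ (hFaA h1), ?_⟩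
      rw [hρ]
      simp only
      rw [← Function.iterate_succ_apply' f, Nat.succ_eq_add_one,
        show lev x - 2 + 1 = lev x - 1 by omega]
    choose! g hgA hg using hpre
    have hRa : ∀ R ∈ R0, f R = a ∧ R ≠ a ∧ R ∈ A := by
      intro R hR
      obtain ⟨x, hx, rfl⟩ := mem_image.1 (hR0 hR)
      exact ⟨hρ1 x hx, hρ2 x hx, hρA x hx⟩
    have hgi : Set.InjOn g R0 := by
      intro R hR R' hR' h
      have h1 := hg R hR
      have h2 := hg R' hR'
      rw [← h1, ← h2, h]
    set Y := R0.image g with hY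
    have hYm : ∀ y ∈ Y, y ∈ A ∧ f y ∈ R0 := by
      intro y hy
      obtain ⟨R, hR, rfl⟩ := mem_image.1 hy
      exact ⟨hgA R hR, by rw [hg R hR]; exact hR⟩
    have hYf : Y.image f ⊆ R0 := by
      intro z hz
      obtain ⟨y, hy, rfl⟩ := mem_image.1 hz
      exact (hYm y hy).2
    have hYk : Y.card = k := by rw [hY, card_image_of_injOn hgi, hR0k]
    refine s.claimC (g := f) (fun y hy => (hYm y hy).1) (fun z hz => (hRa z (hYf hz)).2.2) ?_ ?_
      hYk hk hK ha (fun h => (hRa a (hYf h)).2.1 rfl) ?_ ?_ ?_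
    · intro y hy y' hy' h
      obtain ⟨R, hR, rfl⟩ := mem_image.1 (mem_coe.1 hy)
      obtain ⟨R', hR', rfl⟩ := mem_image.1 (mem_coe.1 hy')
      rw [hg R hR, hg R' hR'] at h
      rw [h]
    · rw [disjoint_left]
      intro z hz hz'
      exact (hRa _ (hYm z hz').2).2.1 (hRa z (hYf hz)).1
    · intro h
      have := (hRa _ (hYm a h).2).2.1
      exact this hfa
    · intro y hy
      have h1 := s.t1 1 (insert a (Y.image f)) a (by
        intro z hz
        rcases mem_insert.1 hz with rfl | hz
        · exact ha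
        · exact (hRa z (hYf hz)).2.2) ha (by
        intro z hz
        rcases mem_insert.1 hz with rfl | hz
        · exact hfa
        · exact (hRa z (hYf hz)).1) y (hYm y hy).1 (hRa _ (hYm y hy).2).2.1
      rw [sum_insert (fun h => (hRa a (hYf h)).2.1 rfl)] at h1
      have h2 : f^[1] y = f y := rfl
      rw [h2] at h1
      linarith
    · intro y hy y' hy' hyy'
      have hne : f y ≠ f y' := by
        intro h
        apply hyy'
        obtain ⟨R, hR, rfl⟩ := mem_image.1 hy
        obtain ⟨R', hR', rfl⟩ := mem_image.1 hy'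
        rw [hg R hR, hg R' hR'] at h
        rw [h]
      have h1 := s.t1 1 {y'} (f y') (singleton_subset_iff.2 (hYm y' hy').1)
        (s.hf _ (hYm y' hy').1) (by
        intro z hz
        rw [mem_singleton] at hz
        rw [hz]
        rfl) y (hYm y hy).1 hne
      rwa [sum_singleton] at h1
  -- the size of a class
  have hfib : ∀ R ∈ U.image ρ, (U.filter (fun x => ρ x = R)).card ≤ 2 * k + 4 * J := by
    intro R hR
    obtain ⟨x₁, hx₁, hx₁R⟩ := mem_image.1 hR
    have hfR : f R = a := hx₁R ▸ hρ1 x₁ hx₁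
    have hRa : R ≠ a := hx₁R ▸ hρ2 x₁ hx₁
    have hRA : R ∈ A := hx₁R ▸ hρA x₁ hx₁
    by_contra hcon
    push Not at hcon
    set Y := U.filter (fun x => ρ x = R) with hY
    have hYU : ∀ y ∈ Y, y ∈ U ∧ f^[lev y - 1] y = R := by
      intro y hy
      rw [hY, mem_filter] at hy
      exact hy
    have hYA : Y ⊆ A := fun y hy => hFaA (hUmem y (hYU y hy).1).1
    have hx0 : k ≤ ((D j₀).erase a |>.erase R).card := by
      have h1 := pred_card_le_card_erase (s := D j₀) (a := a)
      have h2 := pred_card_le_card_erase (s := (D j₀).erase a) (a := R)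
      omega
    obtain ⟨X, hX, hXk⟩ := exists_subset_card_eq hx0
    have hXm : ∀ x ∈ X, x ∈ D j₀ ∧ x ≠ a ∧ x ≠ R := by
      intro x hx
      have h1 := hX hx
      exact ⟨mem_of_mem_erase (mem_of_mem_erase h1), ne_of_mem_erase (mem_of_mem_erase h1),
        ne_of_mem_erase h1⟩
    have hXA : X ⊆ A := fun x hx => hFaA (hDFa _ (hXm x hx).1)
    have hRD : R ∈ D j₀ := by
      rw [hDmem]
      refine ⟨hall R hRA 1 hfR, hmono 1 j₀ R hj1 hfR⟩
    have hnD : ∀ y ∈ Y, y ∉ D j₀ := fun y hy => (mem_sdiff.1 (hYU y hy).1).2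
    have hRm : ∀ m, 1 ≤ m → f^[m] R = a := fun m hm => hmono 1 m R hm hfR
    have hsum : ∀ c ∈ A, (∀ m, 1 ≤ m → f^[m] c = a) → (c ∉ Y) →
        ∑ y ∈ Y, r c y ≤ J * r R a := by
      intro c hc hcm hcY
      have hmaps : ∀ y ∈ Y, lev y - 1 ∈ range J := by
        intro y hy
        obtain ⟨h1, h2⟩ := hUmem y (hYU y hy).1
        have := hlevJ y h1
        rw [mem_range]
        omega
      rw [← sum_fiberwise_of_maps_to hmaps (fun y => r c y)]
      calc ∑ m ∈ range J, ∑ y ∈ Y with lev y - 1 = m, r c y ≤ ∑ m ∈ range J, r R a := by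
            refine sum_le_sum fun m _ => ?_
            by_cases hm0 : m = 0
            · have : Y.filter (fun y => lev y - 1 = m) = ∅ := by
                rw [filter_eq_empty_iff]
                intro y hy h
                obtain ⟨h1, h2⟩ := hUmem y (hYU y hy).1
                omega
              rw [this, sum_empty]
              exact s.r0 R hRA a ha hRa
            · have h1 := s.t1 m (Y.filter (fun y => lev y - 1 = m)) R
                ((filter_subset _ _).trans hYA) hRA (by
                  intro y hy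
                  rw [mem_filter] at hy
                  rw [← hy.2]
                  exact (hYU y hy.1).2) c hc (by rw [hcm m (by omega)]; exact Ne.symm hRa)
              rw [hcm m (by omega), s.rsymm a R] at h1
              exact h1
        _ = J * r R a := by rw [sum_const, card_range, nsmul_eq_mul]
    refine s.claimB (J := J) hXA hYA ?_ hXk hcon.le hk hK hRA ha hRa (fun h => hnD R h hRD)
      (fun h => hnD a h (haD _)) ?_ ?_ ?_
    · rw [disjoint_left]
      intro x hx hx'
      exact hnD x hx' (hXm x hx).1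
    · intro y hy
      obtain ⟨h1, h2⟩ := hUmem y (hYU y hy).1
      have h3 := s.t1 (lev y - 1) (insert R (insert a X)) a (by
        intro z hz
        rcases mem_insert.1 hz with rfl | hz
        · exact hRA
        rcases mem_insert.1 hz with rfl | hz
        · exact ha
        · exact hXA hz) ha (by
        intro z hz
        rcases mem_insert.1 hz with rfl | hz
        · exact hRm _ (by omega)
        rcases mem_insert.1 hz with rfl | hz
        · exact haj _
        · exact hmono j₀ _ z (by omega) ((hDmem _ _).1 (hXm z hz).1).2) y (hYA hy) (by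
          rw [(hYU y hy).2]; exact hRa)
      rw [sum_insert, sum_insert (fun h => (hXm a h).2.1 rfl), (hYU y hy).2] at h3
      · linarith
      · rw [mem_insert, not_or]
        exact ⟨hRa, fun h => (hXm R h).2.2 rfl⟩
    · exact hsum R hRA hRm (fun h => hnD R h hRD)
    · exact hsum a ha (fun m _ => haj m) (fun h => hnD a h (haD _))
  have hUc : U.card ≤ k * (2 * k + 4 * J) := by
    rw [card_eq_sum_card_image ρ U]
    refine (sum_le_card_nsmul _ _ _ hfib).trans ?_
    rw [smul_eq_mul]
    exact Nat.mul_le_mul_right _ hcl.le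
  have h8 : Fa.card ≤ (D j₀).card + U.card := by
    have := card_sdiff_add_card_eq_card (hDFa j₀)
    have h9 : U.card = (Fa \ D j₀).card := rfl
    omega
  exact ⟨cc, hccA, by omega⟩

/-- **the number of all points if there are few periodic points** -/
theorem tails {N k J : ℕ} (hne : A.Nonempty) (hN : ∀ x ∈ A, f^[N] (f^[N] x) = f^[N] x)
    (hJ : ∀ x ∈ A, ∀ a, f a = a → f^[N] x = a → f^[J] x = a)
    (hk : 1000000 * S ^ 3 ≤ k) (hK : 2 * K < k)
    (hper : (A.filter (fun x => f^[N] x = x)).card < 2 * k) :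
    ∃ c ∈ A, A.card ≤ (A.filter (fun x => f x = c)).card + 10 * k ^ 2 + 4 * (k * J) := by
  classical
  have hS := s.one_le_S
  have hS3 : 1 ≤ S ^ 3 := Nat.one_le_pow _ _ hS
  obtain ⟨x₀, hx₀⟩ := hne
  have hkk0 : k ≤ k ^ 2 := Nat.le_self_pow (by norm_num) _
  rcases Nat.eq_zero_or_pos N with hN0 | hN0
  · subst hN0
    have h0 : A.filter (fun x => f^[0] x = x) = A := filter_true_of_mem fun x _ => rfl
    rw [h0] at hper
    exact ⟨x₀, hx₀, by omega⟩
  set P := A.filter (fun x => f^[N] x = x) with hP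
  have hmaps : ∀ x ∈ A, f^[N] x ∈ P := fun x hx =>
    mem_filter.2 ⟨s.iter_mem N hx, hN x hx⟩
  have h1 : A.card = ∑ a ∈ P, (A.filter (fun x => f^[N] x = a)).card :=
    card_eq_sum_card_fiberwise hmaps
  have her : ∀ a ∈ P, (A.filter (fun x => f^[N] x = a)).card =
      ((A.filter (fun x => f^[N] x = a)).erase a).card + 1 := by
    intro a ha
    rw [card_erase_add_one]
    exact mem_filter.2 ⟨(mem_filter.1 ha).1, (mem_filter.1 ha).2⟩
  obtain ⟨a, ha, h2, h3⟩ := one_big (C := P) (k := k + 1) ⟨_, hmaps x₀ hx₀⟩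
    (fun a => (A.filter (fun x => f^[N] x = a)).card) (by
      intro c hc c' hc' hcc' h3 h4
      have e1 := her c hc
      have e2 := her c' hc'
      exact s.fibA hN hk hK (mem_filter.1 hc).1 (mem_filter.1 hc').1 (mem_filter.1 hc).2
        (mem_filter.1 hc').2 hcc' (by omega) (by omega))
  have haA := (mem_filter.1 ha).1
  have haa := (mem_filter.1 ha).2
  have h4 : P.card * (k + 1) ≤ (2 * k) * (k + 1) := Nat.mul_le_mul_right _ hper.le
  have h5 : ∑ c ∈ P, (A.filter (fun x => f^[N] x = c)).card ≤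
      (A.filter (fun x => f^[N] x = a)).card + P.card * (k + 1) := h2
  have hk1 : 1 ≤ k := by omega
  have hkk : k ≤ k ^ 2 := Nat.le_self_pow (by norm_num) _
  have e1 : (2 * k) * (k + 1) = 2 * k ^ 2 + 2 * k := by ring
  by_cases hfa : f a = a
  · obtain ⟨c, hcA, h6⟩ := s.caseD2 hk hK haA hfa (Fa := A.filter (fun x => f^[N] x = a))
      (J := J) (filter_subset _ _) (by
        intro x hx
        rw [mem_filter] at hx ⊢
        refine ⟨s.hf x hx.1, ?_⟩
        rw [← Function.iterate_succ_apply, Function.iterate_succ_apply', hx.2, hfa]) (by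
        intro x hx
        rw [mem_filter] at hx
        exact hJ x hx.1 a hfa hx.2) (by
        intro x hx j hj
        rw [mem_filter]
        refine ⟨hx, ?_⟩
        -- `f^[N] x` is periodic and some iterate is `a`
        have h7 : ∀ t, f^[N] (f^[t] (f^[N] x)) = f^[t] (f^[N] x) := by
          intro t
          rw [← Function.iterate_add_apply, add_comm, Function.iterate_add_apply, hN x hx]
        have h8 : f^[j] (f^[N] x) = a := by
          rw [← Function.iterate_add_apply, add_comm, Function.iterate_add_apply, hj]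
          exact Function.iterate_fixed hfa N
        have h9 : ∀ t, (f^[N])^[t] (f^[N] x) = f^[N] x := fun t =>
          Function.iterate_fixed (hN x hx) t
        have h10 : f^[N * j] (f^[N] x) = a := by
          have h11 : j ≤ N * j := Nat.le_mul_of_pos_left j hN0
          have h12 : f^[(N * j)] (f^[N] x) = f^[N * j - j] (f^[j] (f^[N] x)) := by
            rw [← Function.iterate_add_apply f (N * j - j) j,
              show N * j - j + j = N * j by omega]
          rw [h12, h8]
          exact Function.iterate_fixed hfa _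
        rw [← h10, Function.iterate_mul]
        exact (h9 j).symm)
    have e2 : (k + 1) ^ 2 = k ^ 2 + 2 * k + 1 := by ring
    have e3 : k * (2 * k + 4 * J) = 2 * k ^ 2 + 4 * (k * J) := by ring
    exact ⟨c, hcA, by omega⟩
  · have hfaP : f a ∈ P := by
      rw [hP, mem_filter]
      refine ⟨s.hf a haA, ?_⟩
      rw [← Function.iterate_succ_apply, Function.iterate_succ_apply', haa]
    have h6 := h3 (f a) hfaP hfa
    have h7 := her (f a) hfaP
    have h8 : (A.filter (fun x => f^[N] x = f a)).card < k + 1 := h6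
    obtain ⟨c, hcA, h9⟩ := s.caseD1 hN hk hK haA haa hfa (by omega)
    have e2 : k * k = k ^ 2 := by ring
    exact ⟨c, hcA, by omega⟩

end Sy

end Pool.Agent.T6.H83.SH
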