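import Pool.Agent.T6.H83.SH.Abs5

/-!
# The periodic points
-/

set_option autoImplicit false
set_option linter.unusedSectionVars false
set_option linter.unusedVariables false

namespace Pool.Agent.T6.H83.SH

open Finset
open Pool.Agent.T6.H83.RM

variable {α ι Φ : Type*} [DecidableEq α] [DecidableEq ι]

lemma en_image (E : α → α → ℝ) (g : α → α) {Z : Finset α} (hg : Set.InjOn g Z) :
    en E (Z.image g) = en (fun x y => E (g x) (g y)) Z := by
  unfold en
  rw [sum_image hg]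
  refine sum_congr rfl fun x hx => ?_
  have h1 : (Z.image g).erase (g x) = (Z.erase x).image g := by
    ext z
    simp only [mem_erase, mem_image]
    constructor
    · rintro ⟨h1, y, hy, rfl⟩
      exact ⟨y, ⟨fun h => h1 (by rw [h]), hy⟩, rfl⟩
    · rintro ⟨y, ⟨h1, hy⟩, rfl⟩
      exact ⟨fun h => h1 (hg hy hx h), y, hy, rfl⟩
  rw [h1, sum_image (hg.mono (by
    intro y hy
    exact mem_of_mem_erase hy))]

variable {A : Finset α} {f : α → α} {B : Finset ι} {inf : ι} {S K : ℕ} {r : α → α → ℝ}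
  {E : Φ → ι → α → α → ℝ} {h : Φ → α → ℝ}

namespace Sy

variable (s : Sy Φ A f B inf S K r E h)
include s

/-- the good part is invariant on the periodic points -/
lemma per_r {N : ℕ} (hN1 : 1 ≤ N) {x y : α} (hx : x ∈ A) (hy : y ∈ A) (hxx : f^[N] x = x)
    (hyy : f^[N] y = y) (hxy : x ≠ y) : f x ≠ f y ∧ r (f x) (f y) = r x y := by
  obtain ⟨n, rfl⟩ : ∃ n, N = n + 1 := ⟨N - 1, by omega⟩
  rw [Function.iterate_succ_apply] at hxx hyy
  have hne : f x ≠ f y := by
    intro h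
    apply hxy
    rw [← hxx, ← hyy, h]
  refine ⟨hne, le_antisymm ?_ ?_⟩
  · have := s.t1 n {f y} y (singleton_subset_iff.2 (s.hf y hy)) hy (by
      intro z hz
      rw [mem_singleton] at hz
      rw [hz]
      exact hyy) (f x) (s.hf x hx) (by rw [hxx]; exact hxy)
    rw [sum_singleton, hxx] at this
    exact this
  · have := s.t1 1 {y} (f y) (singleton_subset_iff.2 hy) (s.hf y hy) (by
      intro z hz
      rw [mem_singleton] at hz
      rw [hz]
      rfl) x hx hne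
    rw [sum_singleton] at this
    exact this

/-- the determinant inequality cannot hold -/
theorem det_contra {Z : Finset α} (hZ : Z ⊆ A) {J : ℕ} (hZc : Z.card = (J + 1) * 2)
    (hn : 300000 * S ^ 3 ≤ Z.card) (hK : 2 * K < Z.card) (hinj : Set.InjOn f Z)
    (hr : ∀ x ∈ Z, ∀ y ∈ Z, x ≠ y → r (f x) (f y) = r x y)
    (hdet : ∀ φ φ', ∃ I : ι → Finset α, (∀ v ∈ B, I v ⊆ Z ∧ (I v).card = J + 1) ∧
      en r Z / 2 + ∑ v ∈ B, (en (E φ v) (I v) + en (E φ v) (Z \ I v)) / 2 ≤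
        J * ∑ x ∈ Z, h φ x + ∑ x ∈ Z, h φ' (f x) + 2 * ((J : ℝ) + 1)) : False := by
  have hS := s.one_le_S
  have hSR := s.one_le_SR
  have hS3 : 1 ≤ S ^ 3 := Nat.one_le_pow _ _ hS
  have hfZ : Z.image f ⊆ A := by
    intro z hz
    obtain ⟨x, hx, rfl⟩ := mem_image.1 hz
    exact s.hf x (hZ hx)
  have hfc : (Z.image f).card = Z.card := card_image_of_injOn hinj
  obtain ⟨φ, hb1, hb2, -⟩ := s.frame Z hZ (by omega)
  obtain ⟨φ', hb1', hb2', -⟩ := s.frame (Z.image f) hfZ (by omega)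
  obtain ⟨h4, h5⟩ := s.good_large φ hZ hn hK ⟨hb1, hb2⟩
  obtain ⟨h4', h5'⟩ := s.good_large φ' hfZ (by rw [hfc]; exact hn) (by rw [hfc]; exact hK)
    ⟨hb1', hb2'⟩
  have hen : en r (Z.image f) = en r Z := by
    rw [en_image r f hinj]
    exact en_congr hr
  rw [hfc, hen] at h5'
  rw [hfc] at h4'
  obtain ⟨I, hI, hdet⟩ := hdet φ φ'
  -- the kernels
  obtain ⟨n, hnd⟩ : ∃ n : ℝ, n = Z.card := ⟨_, rfl⟩
  obtain ⟨H, hHd⟩ : ∃ H, H = HH (h φ) Z := ⟨_, rfl⟩
  obtain ⟨H', hHd'⟩ : ∃ H', H' = HH (h φ') (Z.image f) := ⟨_, rfl⟩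
  obtain ⟨R, hR⟩ : ∃ R, R = en r Z := ⟨_, rfl⟩
  have hker : ∀ v ∈ B, en (E φ v) Z / 4 - (6 * H + n ^ 2 / (10000 * (S : ℝ) ^ 2)) ≤
      (en (E φ v) (I v) + en (E φ v) (Z \ I v)) / 2 := by
    intro v hv
    obtain ⟨hIZ, hIc⟩ := hI v hv
    have hd : Disjoint (I v) (Z \ I v) := disjoint_sdiff
    have hun : I v ∪ (Z \ I v) = Z := union_sdiff_of_subset hIZ
    have hc2 : (Z \ I v).card = J + 1 := by
      rw [card_sdiff_of_subset hIZ]
      omega
    have h1 := s.ker φ v hv (I v) (Z \ I v) (hIZ.trans hZ) (sdiff_subset.trans hZ) hd (by omega)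
    have h2 := en_union (E φ v) (s.symm φ v) hd
    rw [hun] at h1 h2
    have hHH : ∑ x ∈ Z, max (h φ x) 0 = H := hHd.symm
    unfold fm at h1
    rw [hHH, hIc, hc2] at h1
    have hnJ : n = 2 * ((J + 1 : ℕ) : ℝ) := by rw [hnd, hZc]; push_cast; ring
    obtain ⟨m, hm⟩ : ∃ m : ℝ, m = ((J + 1 : ℕ) : ℝ) := ⟨_, rfl⟩
    rw [← hm] at h1 hnJ
    have hm0 : 0 < m := by rw [hm]; positivity
    have e1 : m + m = n := by rw [hnJ]; ring
    rw [e1] at h1
    have e2 : m ^ 2 * (-(4 * (6 * H + n ^ 2 / (10000 * (S : ℝ) ^ 2)))) ≤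
        m ^ 2 * (en (E φ v) (I v) + en (E φ v) (Z \ I v) - 2 * cr (E φ v) (I v) (Z \ I v)) := by
      have e3 : n ^ 2 = 4 * m ^ 2 := by rw [hnJ]; ring
      have e4 : m ^ 2 * (-(4 * (6 * H + n ^ 2 / (10000 * (S : ℝ) ^ 2)))) =
          -(n ^ 2 * (6 * H + n ^ 2 / (10000 * (S : ℝ) ^ 2))) := by
        rw [e3]
        ring
      rw [e4]
      refine h1.trans (le_of_eq ?_)
      ring
    have e5 := le_of_mul_le_mul_left e2 (by positivity)
    linarith
  have hsum := sum_le_sum hker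
  rw [sum_sub_distrib, ← sum_div, sum_const, nsmul_eq_mul, s.hB] at hsum
  have htot : ∑ v ∈ B, en (E φ v) Z + en r Z = 2 * ((Z.card : ℝ) - 1) * ∑ x ∈ Z, h φ x := by
    rw [sum_en, ← en_addfun (fun x y => ∑ v ∈ B, E φ v x y) r, ← en_add]
    exact en_congr fun x hx y hy hxy => s.sum φ x (hZ hx) y (hZ hy) hxy
  have hpos := s.pos_part φ hZ (by omega)
  have hfsum : ∑ x ∈ Z, h φ' (f x) ≤ H' := by
    have : ∑ x ∈ Z, h φ' (f x) = ∑ y ∈ Z.image f, h φ' y := (sum_image hinj).symm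
    rw [this, hHd']
    exact sum_le_HH _ _
  have hJ : (J : ℝ) = n / 2 - 1 := by
    rw [hnd, hZc]; push_cast; ring
  rw [← hnd, ← hHd] at h4 h5
  rw [← hR] at h5
  rw [← hnd, ← hHd', ← hR] at h5'
  rw [← hnd, ← hR] at htot
  rw [← hR, hJ] at hdet
  rw [← hnd, ← hHd] at hpos
  obtain ⟨sh, hsh⟩ : ∃ t, t = ∑ x ∈ Z, h φ x := ⟨_, rfl⟩
  rw [← hsh] at htot hdet hpos
  have hnS : 300000 * (S : ℝ) ^ 3 ≤ n := by
    rw [hnd]; exact_mod_cast hn
  have hS2 : (S : ℝ) ^ 2 ≤ S ^ 3 := pow_le_pow_right₀ hSR (by norm_num)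
  have hS1 : (1 : ℝ) ≤ S ^ 3 := one_le_pow₀ hSR
  have hSS : (S : ℝ) ≤ S ^ 2 := by nlinarith
  have hn0 : 300000 ≤ n := by linarith
  have hH0 : 0 < H := by linarith
  have hsh0 : 0 ≤ sh := by
    by_contra hcon
    push Not at hcon
    nlinarith
  obtain ⟨T, hT⟩ : ∃ T, T = ∑ v ∈ B, (en (E φ v) (I v) + en (E φ v) (Z \ I v)) / 2 := ⟨_, rfl⟩
  rw [← hT] at hdet hsum
  have g1 : R / 4 ≤ H' + n + S * (6 * H + n ^ 2 / (10000 * (S : ℝ) ^ 2)) := by
    linarith
  -- everything in terms of `R`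
  have hR0 : 0 < R := by
    have : 0 < n * H := by positivity
    have h6 : 0 < 20 * (S : ℝ) * R := by linarith
    by_contra hcon
    push Not at hcon
    have h7 : 20 * (S : ℝ) * R ≤ 0 := mul_nonpos_of_nonneg_of_nonpos (by positivity) hcon
    linarith
  have g2 : n * (R / 4) ≤ n * (H' + n + S * (6 * H + n ^ 2 / (10000 * (S : ℝ) ^ 2))) :=
    mul_le_mul_of_nonneg_left g1 (by linarith)
  have g3 : n * n ≤ 5 * S * R := by nlinarith
  have g4 : n * (S * (6 * H + n ^ 2 / (10000 * (S : ℝ) ^ 2))) =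
      6 * S * (n * H) + n * (n * n) / (10000 * S) := by
    field_simp
  have g5 : n * (n * n) / (10000 * S) ≤ n * R / 2000 := by
    rw [div_le_div_iff₀ (by positivity) (by norm_num)]
    have := mul_le_mul_of_nonneg_left g3 (show (0 : ℝ) ≤ n by linarith)
    nlinarith
  have g6 : 6 * (S : ℝ) * (n * H) ≤ 6 * S * (20 * S * R) :=
    mul_le_mul_of_nonneg_left h5 (by positivity)
  have g7 : n * (R / 4) ≤ 20 * S * R + 5 * S * R + (6 * S * (20 * S * R) + n * R / 2000) := by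
    have : n * (H' + n + S * (6 * H + n ^ 2 / (10000 * (S : ℝ) ^ 2))) = n * H' + n * n +
        n * (S * (6 * H + n ^ 2 / (10000 * (S : ℝ) ^ 2))) := by ring
    rw [this, g4] at g2
    linarith
  have g8 : R * (n / 4) ≤ R * (25 * S + 120 * S ^ 2 + n / 2000) := by
    refine le_trans (le_of_eq (by ring)) (g7.trans (le_of_eq (by ring)))
  have g9 := le_of_mul_le_mul_left g8 hR0
  linarith

end Sy

/-- an idempotent iterate -/
lemma exists_idem {A : Finset α} {f : α → α} (hf : ∀ x ∈ A, f x ∈ A) :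
    ∃ N, 1 ≤ N ∧ ∀ x ∈ A, f^[N] (f^[N] x) = f^[N] x := by
  have hit : ∀ n, ∀ x ∈ A, f^[n] x ∈ A := by
    intro n x hx
    induction n with
    | zero => exact hx
    | succ n ih => rw [Function.iterate_succ_apply']; exact hf _ ih
  refine ⟨A.card.factorial, Nat.factorial_pos _, fun x hx => ?_⟩
  obtain ⟨i, hi, j, hj, hij, h⟩ := exists_ne_map_eq_of_card_lt_of_maps_to
    (s := range (A.card + 1)) (t := A) (by rw [card_range]; omega) (f := fun n => f^[n] x)
    (fun n _ => hit n x hx)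
  rw [mem_range] at hi hj
  have key : ∀ i j : ℕ, i < j → j ≤ A.card → f^[i] x = f^[j] x →
      f^[A.card.factorial] (f^[A.card.factorial] x) = f^[A.card.factorial] x := by
    intro i j hij hj h
    obtain ⟨N, hN⟩ : ∃ N, N = A.card.factorial := ⟨_, rfl⟩
    rw [← hN]
    have hiN : i ≤ N := by
      rw [hN]
      exact (by omega : i ≤ A.card).trans (Nat.self_le_factorial _)
    have hdvd : j - i ∣ N := by
      rw [hN]
      exact Nat.dvd_factorial (by omega) (by omega)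
    obtain ⟨t, ht⟩ := hdvd
    have hper : Function.IsPeriodicPt f (j - i) (f^[i] x) := by
      unfold Function.IsPeriodicPt Function.IsFixedPt
      rw [← Function.iterate_add_apply, show j - i + i = j by omega, ← h]
    have hperN : f^[N] (f^[i] x) = f^[i] x := by
      rw [ht]
      exact hper.mul_const t
    have h1 : f^[N] x = f^[N - i] (f^[i] x) := by
      rw [← Function.iterate_add_apply, show N - i + i = N by omega]
    rw [h1, ← Function.iterate_add_apply, add_comm, Function.iterate_add_apply, hperN]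
  rcases lt_or_gt_of_ne hij with h1 | h1
  · exact key i j h1 (by omega) h
  · exact key j i h1 (by omega) h.symm

end Pool.Agent.T6.H83.SH
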