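import Pool.Agent.T6.H83.RM.Con3

/-!
# Determinants of products of monomials and linear forms: local bounds
-/

set_option autoImplicit false
set_option linter.unusedSectionVars false
set_option linter.unusedVariables false

namespace Pool.Agent.T6.H83.SH

open Finset Matrix
open Pool.Agent.T6.H83.RM
open Pool.Agent.H892.PGR (nm nm_pos nm_smul sum_le)

section alg

variable {L : Type*} [Field L] {J : ℕ}

/-- the index set -/
abbrev Rho (J : ℕ) : Type := Fin (J + 1) × Fin 2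

/-- rows of the first kind -/
def R0 (u : Rho J → Fin 2 → L) (a c : Rho J) : L :=
  if c.2 = 0 then (u a 0) ^ (c.1 : ℕ) * (u a 1) ^ (c.1.rev : ℕ) else 0

/-- rows of the second kind -/
def R1 (u : Rho J → Fin 2 → L) (a c : Rho J) : L :=
  if c.2 = 1 then (u a 0) ^ (c.1 : ℕ) * (u a 1) ^ (c.1.rev : ℕ) else 0

/-- the determinant of a choice of rows -/
noncomputable def Ws (u : Rho J → Fin 2 → L) (s : Finset (Rho J)) : L :=
  Matrix.det (Matrix.of (s.piecewise (R0 u) (R1 u)))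

lemma laplace (u v : Rho J → Fin 2 → L) :
    (TM J 2 u v).det = ∑ s : Finset (Rho J),
      ((∏ a ∈ s, v a 1) * ∏ a ∈ sᶜ, v a 0) * Ws u s := by
  have h1 : TM J 2 u v = Matrix.of ((fun a => v a 1 • R0 u a) + fun a => v a 0 • R1 u a) := by
    ext a c
    obtain ⟨c1, c2⟩ := c
    unfold TM R0 R1
    simp only [Matrix.of_apply, Pi.add_apply, Pi.smul_apply, smul_eq_mul]
    fin_cases c2
    · simp
      ring
    · simp
      ring
  have h2 := (Matrix.detRowAlternating (R := L) (n := Rho J)).toMultilinearMap.map_add_univ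
    (fun a => v a 1 • R0 u a) (fun a => v a 0 • R1 u a)
  have h3 : (TM J 2 u v).det = (Matrix.detRowAlternating (R := L) (n := Rho J)).toMultilinearMap
      ((fun a => v a 1 • R0 u a) + fun a => v a 0 • R1 u a) := by
    rw [h1]
    rfl
  rw [h3, h2]
  refine sum_congr rfl fun s _ => ?_
  have h4 : s.piecewise (fun a => v a 1 • R0 u a) (fun a => v a 0 • R1 u a) =
      fun a => (s.piecewise (fun a => v a 1) (fun a => v a 0) a) • (s.piecewise (R0 u) (R1 u) a) := by
    ext a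
    by_cases ha : a ∈ s
    · simp [ha]
    · simp [ha]
  rw [h4, MultilinearMap.map_smul_univ, smul_eq_mul]
  congr 1
  rw [← Finset.prod_mul_prod_compl s]
  congr 1
  · exact prod_congr rfl fun a ha => by simp [ha]
  · exact prod_congr rfl fun a ha => by
      have : a ∉ s := by simpa using ha
      simp [this]

lemma Ws_zero [CharZero L] (u : Rho J → Fin 2 → L) (s : Finset (Rho J)) (hs : s.card ≠ J + 1) :
    Ws u s = 0 := by
  set M : Matrix (Rho J) (Rho J) L := Matrix.of (s.piecewise (R0 u) (R1 u)) with hM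
  set d1 : Rho J → L := fun a => if a ∈ s then 2 else 1 with hd1
  set d2 : Rho J → L := fun c => if c.2 = 0 then 2 else 1 with hd2
  have h1 : Matrix.diagonal d1 * M = M * Matrix.diagonal d2 := by
    ext a c
    rw [Matrix.diagonal_mul, Matrix.mul_diagonal, hM, Matrix.of_apply, hd1, hd2]
    simp only
    obtain ⟨c1, c2⟩ := c
    by_cases ha : a ∈ s
    · simp only [ha, if_true, Finset.piecewise_eq_of_mem]
      unfold R0
      fin_cases c2 <;> simp [mul_comm]
    · simp only [ha, if_false, not_false_eq_true, Finset.piecewise_eq_of_notMem]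
      unfold R1
      fin_cases c2 <;> simp [mul_comm]
  have h2 := congrArg Matrix.det h1
  rw [Matrix.det_mul, Matrix.det_mul, Matrix.det_diagonal, Matrix.det_diagonal] at h2
  have h3 : ∏ a, d1 a = 2 ^ s.card := by
    rw [hd1, Finset.prod_ite_mem]
    simp
  have h4 : ∏ c, d2 c = 2 ^ (J + 1) := by
    rw [hd2, Fintype.prod_prod_type]
    simp [Fin.prod_univ_two]
  rw [h3, h4] at h2
  have h5 : ((2 : L) ^ s.card - 2 ^ (J + 1)) * M.det = 0 := by
    linear_combination h2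
  rcases mul_eq_zero.1 h5 with h6 | h6
  · exfalso
    apply hs
    have h7 : (2 : L) ^ s.card = 2 ^ (J + 1) := sub_eq_zero.1 h6
    have h8 : (2 : ℕ) ^ s.card = 2 ^ (J + 1) := by exact_mod_cast h7
    exact Nat.pow_right_injective le_rfl h8
  · exact h6

lemma Ws_eq (w : AbsoluteValue L ℝ) (u : Rho J → Fin 2 → L) (s : Finset (Rho J))
    (e₁ : Fin (J + 1) ≃ s) (e₂ : Fin (J + 1) ≃ (sᶜ : Finset (Rho J))) :
    w (Ws u s) = w (VP (fun i => u (e₁ i))) * w (VP (fun i => u (e₂ i))) := by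
  classical
  set M : Matrix (Rho J) (Rho J) L := Matrix.of (s.piecewise (R0 u) (R1 u)) with hM
  -- the columns
  let κ : Fin (J + 1) ⊕ Fin (J + 1) ≃ Rho J :=
    { toFun := Sum.elim (fun j => (j, 0)) (fun j => (j, 1))
      invFun := fun c => if c.2 = 0 then Sum.inl c.1 else Sum.inr c.1
      left_inv := by
        rintro (j | j)
        · simp
        · simp
      right_inv := by
        rintro ⟨j, k⟩
        fin_cases k
        · simp
        · simp }
  -- the rows
  let ε : Fin (J + 1) ⊕ Fin (J + 1) ≃ Rho J :=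
    (Equiv.sumCongr e₁ e₂).trans
      ((Equiv.sumCongr (Equiv.refl s) (Equiv.subtypeEquivRight (fun x => by simp))).trans
        (Equiv.sumCompl (fun x => x ∈ s)))
  have hε1 : ∀ i, ε (Sum.inl i) = (e₁ i : Rho J) := fun i => rfl
  have hε2 : ∀ i, ε (Sum.inr i) = (e₂ i : Rho J) := fun i => rfl
  have h1 : M.submatrix ε κ = Matrix.fromBlocks
      (projVandermonde (fun i => u (e₁ i) 0) (fun i => u (e₁ i) 1)) 0 0
      (projVandermonde (fun i => u (e₂ i) 0) (fun i => u (e₂ i) 1)) := by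
    ext i j
    rcases i with i | i <;> rcases j with j | j
    · rw [Matrix.submatrix_apply, hε1, Matrix.fromBlocks_apply₁₁, projVandermonde_apply, hM,
        Matrix.of_apply, Finset.piecewise_eq_of_mem _ _ _ (e₁ i).2]
      simp [R0, κ]
    · rw [Matrix.submatrix_apply, hε1, Matrix.fromBlocks_apply₁₂, hM,
        Matrix.of_apply, Finset.piecewise_eq_of_mem _ _ _ (e₁ i).2]
      simp [R0, κ]
    · have h2 : (e₂ i : Rho J) ∉ s := by
        have := (e₂ i).2
        rwa [Finset.mem_compl] at this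
      rw [Matrix.submatrix_apply, hε2, Matrix.fromBlocks_apply₂₁, hM,
        Matrix.of_apply, Finset.piecewise_eq_of_notMem _ _ _ h2]
      simp [R1, κ]
    · have h2 : (e₂ i : Rho J) ∉ s := by
        have := (e₂ i).2
        rwa [Finset.mem_compl] at this
      rw [Matrix.submatrix_apply, hε2, Matrix.fromBlocks_apply₂₂, projVandermonde_apply, hM,
        Matrix.of_apply, Finset.piecewise_eq_of_notMem _ _ _ h2]
      simp [R1, κ]
  have h2 : M.submatrix ε κ = (M.submatrix (κ.symm.trans ε) id).submatrix κ κ := by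
    ext i j
    simp [Matrix.submatrix_apply]
  have h3 : w (M.submatrix ε κ).det = w M.det := by
    rw [h2, Matrix.det_submatrix_equiv_self, Matrix.det_permute, map_mul]
    rcases Int.units_eq_one_or (Equiv.Perm.sign (κ.symm.trans ε)) with h | h
    · rw [h]; simp
    · rw [h]; simp
  have h4 : w (Ws u s) = w M.det := rfl
  rw [h4, ← h3, h1, Matrix.det_fromBlocks_zero₂₁, map_mul, det_pv (fun i => u (e₁ i)),
    det_pv (fun i => u (e₂ i))]

open Kronecker in
lemma TM_mulVec_right (M : Matrix (Fin 2) (Fin 2) L) (u v : Rho J → Fin 2 → L) :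
    TM J 2 u (fun a => M.mulVec (v a)) =
      TM J 2 u v * ((1 : Matrix (Fin (J + 1)) (Fin (J + 1)) L) ⊗ₖ Sm M 2) := by
  ext a c
  obtain ⟨c1, c2⟩ := c
  rw [Matrix.mul_apply, Fintype.sum_prod_type]
  unfold TM
  simp only [Matrix.of_apply]
  rw [Sm_apply]
  have h1 : ∀ k : Fin (J + 1), ∑ l : Fin 2, (u a 0 ^ (k : ℕ) * u a 1 ^ (k.rev : ℕ) *
      (v a 0 ^ (l : ℕ) * v a 1 ^ (l.rev : ℕ))) *
        ((1 : Matrix (Fin (J + 1)) (Fin (J + 1)) L) ⊗ₖ Sm M 2) (k, l) (c1, c2) =
      if k = c1 then (u a 0 ^ (k : ℕ) * u a 1 ^ (k.rev : ℕ)) *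
        ∑ l : Fin 2, (v a 0 ^ (l : ℕ) * v a 1 ^ (l.rev : ℕ)) * Sm M 2 l c2 else 0 := by
    intro k
    by_cases hk : k = c1
    · rw [if_pos hk, mul_sum]
      refine sum_congr rfl fun l _ => ?_
      rw [Matrix.kroneckerMap_apply, hk, Matrix.one_apply_eq]
      ring
    · rw [if_neg hk]
      refine sum_eq_zero fun l _ => ?_
      rw [Matrix.kroneckerMap_apply, Matrix.one_apply_ne hk]
      ring
  rw [sum_congr rfl fun k _ => h1 k, Finset.sum_ite_eq', if_pos (mem_univ _)]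

lemma tr_two : tr 2 = 1 := by
  have := tr_mul_two 2
  omega

lemma det_TM_mulVec_right [CharZero L] (M : Matrix (Fin 2) (Fin 2) L) (u v : Rho J → Fin 2 → L) :
    (TM J 2 u (fun a => M.mulVec (v a))).det = M.det ^ (J + 1) * (TM J 2 u v).det := by
  rw [TM_mulVec_right, Matrix.det_mul, Matrix.det_kronecker, Matrix.det_one, one_pow, one_mul,
    det_Sm, tr_two, pow_one, Fintype.card_fin, mul_comm]

/-- a large term of the expansion -/
lemma exists_term [CharZero L] (w : AbsoluteValue L ℝ) (u v : Rho J → Fin 2 → L)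
    (nrm : (Fin 2 → L) → ℝ)
    (hn : ∀ u i, w (u i) ≤ nrm u) {κ : ℝ} (hκ0 : 0 < κ)
    (hκ : ∀ f : Finset (Rho J) → L, ∃ s, w (∑ t, f t) ≤ κ * w (f s))
    (h0 : (TM J 2 u v).det ≠ 0) :
    ∃ s : Finset (Rho J), s.card = J + 1 ∧
      w (TM J 2 u v).det ≤ κ * ((∏ a, nrm (v a)) * w (Ws u s)) := by
  obtain ⟨s, hs⟩ := hκ (fun s => ((∏ a ∈ s, v a 1) * ∏ a ∈ sᶜ, v a 0) * Ws u s)
  rw [← laplace] at hs
  have hpos : 0 < w (TM J 2 u v).det := w.pos h0
  refine ⟨s, ?_, ?_⟩
  · by_contra hcon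
    rw [Ws_zero u s hcon, mul_zero, map_zero, mul_zero] at hs
    linarith
  · refine hs.trans (mul_le_mul_of_nonneg_left ?_ hκ0.le)
    rw [map_mul]
    refine mul_le_mul_of_nonneg_right ?_ (w.nonneg _)
    rw [map_mul, map_prod, map_prod, ← Finset.prod_mul_prod_compl s (fun a => nrm (v a))]
    have hn0 : ∀ x, 0 ≤ nrm x := fun x => (w.nonneg _).trans (hn x 0)
    exact mul_le_mul (prod_le_prod (fun a _ => w.nonneg _) fun a _ => hn _ _)
      (prod_le_prod (fun a _ => w.nonneg _) fun a _ => hn _ _)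
      (prod_nonneg fun a _ => w.nonneg _) (prod_nonneg fun a _ => hn0 _)

end alg

lemma ultra_term {L : Type*} [Field L] (w : AbsoluteValue L ℝ)
    (hna : ∀ x y : L, w (x + y) ≤ max (w x) (w y)) {ι : Type*} [Fintype ι] [Nonempty ι]
    (f : ι → L) : ∃ s, w (∑ t, f t) ≤ 1 * w (f s) := by
  obtain ⟨s, -, hs⟩ := exists_max_image (univ : Finset ι) (fun t => w (f t)) univ_nonempty
  refine ⟨s, ?_⟩
  rw [one_mul]
  exact sum_le w hna _ _ (w.nonneg _) hs

lemma arch_term {L : Type*} [Field L] (w : AbsoluteValue L ℝ) {ι : Type*} [Fintype ι] [Nonempty ι]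
    (f : ι → L) : ∃ s, w (∑ t, f t) ≤ (Fintype.card ι : ℝ) * w (f s) := by
  obtain ⟨s, -, hs⟩ := exists_max_image (univ : Finset ι) (fun t => w (f t)) univ_nonempty
  refine ⟨s, (w.sum_le _ _).trans ?_⟩
  have := sum_le_card_nsmul univ (fun t => w (f t)) _ hs
  rwa [nsmul_eq_mul, card_univ] at this

section change

variable {K L : Type*} [Field K] [Field L] (φ : K →+* L)

/-- the local inequality at a bad place -/
lemma local_bad [CharZero L] (w : AbsoluteValue L ℝ) (M : Matrix (Fin 2) (Fin 2) L)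
    (hM : M.det ≠ 0) (nrm : (Fin 2 → L) → ℝ) (hn : ∀ u i, w (u i) ≤ nrm u) {J : ℕ} {κ : ℝ}
    (hκ0 : 0 < κ) (hκ : ∀ f : Finset (Rho J) → L, ∃ s, w (∑ t, f t) ≤ κ * w (f s))
    (x y : Rho J → Fin 2 → K) (hy : ∀ a, y a ≠ 0) (h0 : (TM J 2 x y).det ≠ 0) :
    ∃ s : Finset (Rho J), s.card = J + 1 ∧ ∀ (e₁ : Fin (J + 1) ≃ s)
      (e₂ : Fin (J + 1) ≃ (sᶜ : Finset (Rho J))),
      Real.log (w (φ (TM J 2 x y).det)) ≤ Real.log κ + Real.log (w (φ (VP (fun i => x (e₁ i))))) +
        Real.log (w (φ (VP (fun i => x (e₂ i))))) + ∑ a, lN φ w M nrm (y a) := by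
  have h1 := det_TM_mulVec_right M (fun a => im φ (x a)) (fun a => im φ (y a))
  rw [TM_im] at h1
  have hne : (TM J 2 (fun a => im φ (x a)) (fun a => M.mulVec (im φ (y a)))).det ≠ 0 := by
    rw [h1]
    exact mul_ne_zero (pow_ne_zero _ hM) ((map_ne_zero φ).2 h0)
  obtain ⟨s, hs, h2⟩ := exists_term w (fun a => im φ (x a)) (fun a => M.mulVec (im φ (y a))) nrm
    hn hκ0 hκ hne
  refine ⟨s, hs, fun e₁ e₂ => ?_⟩
  have h3 := Ws_eq w (fun a => im φ (x a)) s e₁ e₂
  have h4 : VP (fun i => im φ (x (e₁ i))) = φ (VP (fun i => x (e₁ i))) := VP_im φ _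
  have h5 : VP (fun i => im φ (x (e₂ i))) = φ (VP (fun i => x (e₂ i))) := VP_im φ _
  rw [h4, h5] at h3
  rw [h1, h3, map_mul, map_pow] at h2
  have hpos : ∀ v : Fin 2 → K, v ≠ 0 → 0 < nrm (M.mulVec (im φ v)) := by
    intro v hv
    have h2 := mulVec_ne_zero hM (im_ne_zero φ hv)
    obtain ⟨i, hi⟩ : ∃ i, M.mulVec (im φ v) i ≠ 0 := by
      by_contra h3
      push Not at h3
      exact h2 (funext h3)
    exact lt_of_lt_of_le (w.pos hi) (hn _ i)
  have hM0 : 0 < w M.det := w.pos hM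
  have hD0 : 0 < w (φ (TM J 2 x y).det) := w.pos ((map_ne_zero φ).2 h0)
  have hprod : 0 < ∏ a, nrm (M.mulVec (im φ (y a))) := prod_pos fun a _ => hpos _ (hy a)
  obtain ⟨V1, hV1⟩ : ∃ V, V = w (φ (VP (fun i => x (e₁ i)))) := ⟨_, rfl⟩
  obtain ⟨V2, hV2⟩ : ∃ V, V = w (φ (VP (fun i => x (e₂ i)))) := ⟨_, rfl⟩
  rw [← hV1, ← hV2] at h2 ⊢
  have hV1n : 0 ≤ V1 := hV1 ▸ w.nonneg _
  have hV2n : 0 ≤ V2 := hV2 ▸ w.nonneg _
  have hV : 0 < V1 ∧ 0 < V2 := by
    have h6 : 0 < κ * ((∏ a, nrm (M.mulVec (im φ (y a)))) * (V1 * V2)) :=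
      lt_of_lt_of_le (by positivity) h2
    refine ⟨lt_of_le_of_ne hV1n fun h => ?_, lt_of_le_of_ne hV2n fun h => ?_⟩
    · rw [← h, zero_mul, mul_zero, mul_zero] at h6; exact lt_irrefl _ h6
    · rw [← h, mul_zero, mul_zero, mul_zero] at h6; exact lt_irrefl _ h6
  have h6 := Real.log_le_log (by positivity) h2
  rw [Real.log_mul (by positivity) (by positivity), Real.log_pow, Real.log_mul hκ0.ne'
    (mul_pos hprod (mul_pos hV.1 hV.2)).ne', Real.log_mul hprod.ne' (mul_pos hV.1 hV.2).ne',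
    Real.log_mul hV.1.ne' hV.2.ne', Real.log_prod (fun a _ => (hpos _ (hy a)).ne')] at h6
  have h7 : ∑ a : Rho J, lN φ w M nrm (y a) =
      ∑ a, Real.log (nrm (M.mulVec (im φ (y a)))) - ((J : ℝ) + 1) * Real.log (w M.det) := by
    unfold lN
    rw [sum_sub_distrib, sum_const, card_univ, Fintype.card_prod, Fintype.card_fin,
      Fintype.card_fin, nsmul_eq_mul]
    push_cast
    ring
  rw [h7]
  push_cast at h6
  linarith

end change

end Pool.Agent.T6.H83.SH
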