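import Pool.Agent.T6.H83.SH.Abs1

/-!
# Coordinates which are almost optimal
-/

set_option autoImplicit false
set_option linter.unusedSectionVars false
set_option linter.unusedVariables false

namespace Pool.Agent.T6.H83.SH

open Finset Matrix
open Pool.Agent.T6.H83.RM
open Pool.Agent.H892.PGR (nm nm_pos nm_smul)
open Pool.Agent.TH856.PG (Pr qav qav_eq discQ)

variable {α : Type*} [DecidableEq α]

/-- Coordinates at the archimedean place for which at most two thirds of the points are near a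
given one. -/
theorem exists_frame_arch2 (A : Finset α) (r : α → Fin 2 → ℚ) (hr : ∀ x ∈ A, r x ≠ 0)
    (hbr : ∀ x ∈ A, ∀ y ∈ A, x ≠ y → br (r x) (r y) ≠ 0) (hA : 2 ≤ A.card) :
    ∃ M : GLR, (∀ M' : GLR, ∑ x ∈ A, lR M.1 (r x) ≤ ∑ x ∈ A, lR M'.1 (r x) + 1) ∧ ∀ x₀ ∈ A,
      3 * (A.filter (fun x => |br (un M.1 (r x₀)) (un M.1 (r x))| ≤ 1 / 4)).card ≤
        2 * A.card + 1 := by
  classical
  -- the function to be minimised
  set Ψ : GLR → ℝ := fun M => ∑ x ∈ A, lR M.1 (r x) with hΨ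
  have hlow : ∃ b : ℝ, ∀ M : GLR, b ≤ Ψ M := by
    refine ⟨en (fun x y => Real.log (Rat.AbsoluteValue.real (br (r x) (r y)))) A /
      (2 * ((A.card : ℝ) - 1)), fun M => ?_⟩
    have hc : (0 : ℝ) < 2 * ((A.card : ℝ) - 1) := by
      have : (2 : ℝ) ≤ A.card := by exact_mod_cast hA
      linarith
    rw [div_le_iff₀ hc]
    have h1 := en_add (fun x => lR M.1 (r x)) A
    have h2 : en (fun x y => Real.log (Rat.AbsoluteValue.real (br (r x) (r y)))) A ≤
        en (fun x y => lR M.1 (r x) + lR M.1 (r y)) A := by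
      unfold en
      refine sum_le_sum fun x hx => sum_le_sum fun y hy => ?_
      rw [mem_erase] at hy
      have h3 := lE_arch_nonneg M.2 (hr x hx) (hr y hy.2) (hbr x hx y hy.2 (Ne.symm hy.1))
      unfold lE at h3
      linarith
    rw [h1] at h2
    rw [hΨ]
    simp only
    linarith
  obtain ⟨b, hb⟩ := hlow
  have hlog2 : 0 < Real.log 2 := Real.log_pos (by norm_num)
  obtain ⟨M, hM⟩ := near_min Ψ hb (show 0 < Real.log 2 / 2 by linarith)
  refine ⟨M, fun M' => ?_, fun x₀ hx₀ => ?_⟩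
  · have h0 : ∑ x ∈ A, lR M.1 (r x) ≤ ∑ x ∈ A, lR M'.1 (r x) + Real.log 2 / 2 := hM M'
    have := Real.log_two_lt_d9
    linarith
  set u := un M.1 (r x₀) with hu
  have hu1 : en2 u = 1 := en2_un M.2 (hr x₀ hx₀)
  have hgM : (gR u * M.1).det ≠ 0 := by
    rw [Matrix.det_mul, gR_det hu1, one_mul]; exact M.2
  have h1 := hM ⟨gR u * M.1, hgM⟩
  set N := A.filter (fun x => |br u (un M.1 (r x))| ≤ 1 / 4) with hN
  -- the change of the norms
  have hdiff : ∀ x ∈ A, lR (gR u * M.1) (r x) - lR M.1 (r x) =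
      Real.log (en2 ((gR u).mulVec (M.1.mulVec (im φR (r x))))) -
        Real.log (en2 (M.1.mulVec (im φR (r x)))) := by
    intro x hx
    unfold lR lN
    rw [Matrix.det_mul, gR_det hu1, one_mul, ← Matrix.mulVec_mulVec]
    ring
  have hpos : ∀ x ∈ A, 0 < en2 (M.1.mulVec (im φR (r x))) := fun x hx =>
    en2_mulVec_pos M.2 (hr x hx)
  have hpos' : ∀ x ∈ A, 0 < en2 ((gR u).mulVec (M.1.mulVec (im φR (r x)))) := fun x hx => by
    apply en2_pos
    apply mulVec_ne_zero
    · rw [gR_det hu1]; exact one_ne_zero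
    · exact mulVec_ne_zero M.2 (im_ne_zero φR (hr x hx))
  have hall : ∀ x ∈ A, lR (gR u * M.1) (r x) - lR M.1 (r x) ≤ Real.log 2 := by
    intro x hx
    rw [hdiff x hx]
    have h2 := Real.log_le_log (hpos' x hx) (gR_le hu1 _)
    rw [Real.log_mul (by norm_num) (hpos x hx).ne'] at h2
    linarith
  have hnear : ∀ x ∈ N, lR (gR u * M.1) (r x) - lR M.1 (r x) ≤ -(Real.log 2 / 2) := by
    intro x hx
    rw [hN, mem_filter] at hx
    rw [hdiff x hx.1]
    have h2 : |br u (M.1.mulVec (im φR (r x)))| ≤ 1 / 4 * en2 (M.1.mulVec (im φR (r x))) := by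
      have h3 := hx.2
      have h4 : br u (un M.1 (r x)) =
          (en2 (M.1.mulVec (im φR (r x))))⁻¹ * br u (M.1.mulVec (im φR (r x))) := by
        unfold un br
        simp only [Pi.smul_apply, smul_eq_mul]
        ring
      rw [h4, abs_mul, abs_of_pos (inv_pos.2 (hpos x hx.1)), inv_mul_le_iff₀ (hpos x hx.1)] at h3
      linarith
    have h5 := gR_near hu1 _ h2
    have h6 := Real.log_le_log (pow_pos (hpos' x hx.1) 2) h5
    rw [Real.log_mul (by norm_num) (pow_pos (hpos x hx.1) 2).ne', Real.log_pow, Real.log_pow,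
      Real.log_div (by norm_num) (by norm_num), Real.log_one] at h6
    push_cast at h6
    linarith
  have hNA : N ⊆ A := filter_subset _ _
  have hsum : Ψ ⟨gR u * M.1, hgM⟩ - Ψ M ≤
      (N.card : ℝ) * (-(Real.log 2 / 2)) + ((A.card : ℝ) - N.card) * Real.log 2 := by
    rw [hΨ]
    simp only
    rw [← sum_sub_distrib, ← sum_sdiff hNA]
    have h2 := sum_le_card_nsmul N _ _ hnear
    have h3 := sum_le_card_nsmul (A \ N) (fun x => lR (gR u * M.1) (r x) - lR M.1 (r x))
      (Real.log 2) (fun x hx => hall x (mem_sdiff.1 hx).1)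
    rw [nsmul_eq_mul] at h2 h3
    rw [card_sdiff_of_subset hNA, Nat.cast_sub (card_le_card hNA)] at h3
    linarith
  have h7 : (3 * (N.card : ℝ)) * Real.log 2 ≤ (2 * (A.card : ℝ) + 1) * Real.log 2 := by
    linarith
  have h8 := le_of_mul_le_mul_right h7 hlog2
  exact_mod_cast h8


/-- Coordinates at the prime `p` for which every residue class contains at most half of the
points. -/
theorem exists_frame_nonarch2 (p : Pr) (A : Finset α) (r : α → Fin 2 → ℚ)
    (hr : ∀ x ∈ A, r x ≠ 0) (hbr : ∀ x ∈ A, ∀ y ∈ A, x ≠ y → br (r x) (r y) ≠ 0)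
    (hA : 2 ≤ A.card) :
    ∃ M : GLQ, (∀ M' : GLQ, ∑ x ∈ A, lQ p M.1 (r x) ≤ ∑ x ∈ A, lQ p M'.1 (r x) + 1) ∧
      ∀ x₀ ∈ A,
      2 * (A.filter (fun x => x = x₀ ∨ 0 < lE (qav p) (lQ p M.1) (r x₀) (r x))).card ≤
        A.card := by
  classical
  have hwid : ∀ q : ℚ, qav p ((RingHom.id ℚ) q) = qav p q := fun q => rfl
  -- the function to be minimised
  set Ψ : GLQ → ℝ := fun M => ∑ x ∈ A, lQ p M.1 (r x) with hΨ
  have hlow : ∃ b : ℝ, ∀ M : GLQ, b ≤ Ψ M := by
    refine ⟨en (fun x y => Real.log (qav p (br (r x) (r y)))) A /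
      (2 * ((A.card : ℝ) - 1)), fun M => ?_⟩
    have hc : (0 : ℝ) < 2 * ((A.card : ℝ) - 1) := by
      have : (2 : ℝ) ≤ A.card := by exact_mod_cast hA
      linarith
    rw [div_le_iff₀ hc]
    have h1 := en_add (fun x => lQ p M.1 (r x)) A
    have h2 : en (fun x y => Real.log (qav p (br (r x) (r y)))) A ≤
        en (fun x y => lQ p M.1 (r x) + lQ p M.1 (r y)) A := by
      unfold en
      refine sum_le_sum fun x hx => sum_le_sum fun y hy => ?_
      rw [mem_erase] at hy
      have h3 := lE_nonneg (RingHom.id ℚ) (qav_na p) hwid M.2 (hr x hx) (hr y hy.2)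
        (hbr x hx y hy.2 (Ne.symm hy.1))
      unfold lE at h3
      linarith
    rw [h1] at h2
    rw [hΨ]
    simp only
    linarith
  obtain ⟨b, hb⟩ := hlow
  have hp : (0 : ℝ) < p.1 := by exact_mod_cast p.2.pos
  have hp1 : (1 : ℝ) < p.1 := by exact_mod_cast p.2.one_lt
  have hlogp : 0 < Real.log p.1 := Real.log_pos hp1
  obtain ⟨M, hM0⟩ := near_min Ψ hb (show 0 < min 1 (Real.log p.1 / 4) from
    lt_min one_pos (by linarith))
  have hM : ∀ j, Ψ M ≤ Ψ j + Real.log p.1 / 4 := fun j =>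
    (hM0 j).trans (add_le_add_right (min_le_right _ _) _)
  refine ⟨M, fun M' => ?_, fun x₀ hx₀ => ?_⟩
  · exact (hM0 M').trans (add_le_add_right (min_le_left _ _) _)
  have hy₀ : M.1.mulVec (im (RingHom.id ℚ) (r x₀)) ≠ 0 :=
    mulVec_ne_zero M.2 (im_ne_zero _ (hr x₀ hx₀))
  obtain ⟨c, hc, hcu⟩ := exists_scale (w := qav p) hy₀
  set u := c • M.1.mulVec (im (RingHom.id ℚ) (r x₀)) with hu
  obtain ⟨g, hg1, hg2, hg3⟩ := exists_gQ p hcu
  have hg0 : g.det ≠ 0 := by
    intro h
    rw [h, map_zero] at hg1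
    exact (inv_pos.2 hp).ne hg1
  have hgM : (g * M.1).det ≠ 0 := by
    rw [Matrix.det_mul]; exact mul_ne_zero hg0 M.2
  have h1 := hM ⟨g * M.1, hgM⟩
  set N := A.filter (fun x => x = x₀ ∨ 0 < lE (qav p) (lQ p M.1) (r x₀) (r x)) with hN
  have hpos : ∀ x ∈ A, 0 < nm (qav p) (M.1.mulVec (im (RingHom.id ℚ) (r x))) := fun x hx =>
    nm_mulVec_pos _ M.2 (hr x hx)
  have hpos' : ∀ x ∈ A, 0 < nm (qav p) (g.mulVec (M.1.mulVec (im (RingHom.id ℚ) (r x)))) :=
    fun x hx => nm_pos _ (mulVec_ne_zero hg0 (mulVec_ne_zero M.2 (im_ne_zero _ (hr x hx))))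
  have hdiff : ∀ x ∈ A, lQ p (g * M.1) (r x) - lQ p M.1 (r x) =
      Real.log (nm (qav p) (g.mulVec (M.1.mulVec (im (RingHom.id ℚ) (r x))))) -
        Real.log (nm (qav p) (M.1.mulVec (im (RingHom.id ℚ) (r x)))) + Real.log p.1 / 2 := by
    intro x hx
    unfold lQ lN
    rw [Matrix.det_mul, map_mul, Real.log_mul ((qav p).pos hg0).ne' ((qav p).pos M.2).ne', hg1,
      Real.log_inv, ← Matrix.mulVec_mulVec]
    ring
  have hall : ∀ x ∈ A, lQ p (g * M.1) (r x) - lQ p M.1 (r x) ≤ Real.log p.1 / 2 := by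
    intro x hx
    rw [hdiff x hx]
    have h2 := Real.log_le_log (hpos' x hx) (hg2 _)
    linarith
  have hnear : ∀ x ∈ N, lQ p (g * M.1) (r x) - lQ p M.1 (r x) ≤ -(Real.log p.1 / 2) := by
    intro x hx
    rw [hN, mem_filter] at hx
    rw [hdiff x hx.1]
    have hlt : qav p (br u (M.1.mulVec (im (RingHom.id ℚ) (r x)))) <
        nm (qav p) (M.1.mulVec (im (RingHom.id ℚ) (r x))) := by
      have e1 : br u (M.1.mulVec (im (RingHom.id ℚ) (r x))) =
          c * (M.1.det * br (r x₀) (r x)) := by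
        rw [hu]
        have : br (c • M.1.mulVec (im (RingHom.id ℚ) (r x₀)))
            (M.1.mulVec (im (RingHom.id ℚ) (r x))) =
            c * br (M.1.mulVec (im (RingHom.id ℚ) (r x₀)))
              (M.1.mulVec (im (RingHom.id ℚ) (r x))) := by
          unfold br
          simp only [Pi.smul_apply, smul_eq_mul]
          ring
        rw [this, br_mulVec, br_im]
        rfl
      rcases hx.2 with h2 | h2
      · rw [e1, h2]
        have : br (r x₀) (r x₀) = 0 := by unfold br; ring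
        rw [this, mul_zero, mul_zero, map_zero]
        exact hpos x₀ hx₀
      · by_cases h3 : x = x₀
        · rw [e1, h3]
          have : br (r x₀) (r x₀) = 0 := by unfold br; ring
          rw [this, mul_zero, mul_zero, map_zero]
          exact hpos x₀ hx₀
        have hb0 := hbr x₀ hx₀ x hx.1 (Ne.symm h3)
        -- exponentiate the positivity of the local product
        have e2 : nm (qav p) (c • M.1.mulVec (im (RingHom.id ℚ) (r x₀))) = 1 := hcu
        rw [nm_smul] at e2
        have p0 := hpos x₀ hx₀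
        have px := hpos x hx.1
        have pc : 0 < qav p c := (qav p).pos hc
        have pd : 0 < qav p M.1.det := (qav p).pos M.2
        have pb : 0 < qav p (br (r x₀) (r x)) := (qav p).pos hb0
        rw [e1, map_mul, map_mul]
        have e3 : lE (qav p) (lQ p M.1) (r x₀) (r x) =
            Real.log (nm (qav p) (M.1.mulVec (im (RingHom.id ℚ) (r x)))) -
            Real.log (qav p c * (qav p M.1.det * qav p (br (r x₀) (r x)))) := by
          have e4 : Real.log (qav p c) +
              Real.log (nm (qav p) (M.1.mulVec (im (RingHom.id ℚ) (r x₀)))) = 0 := by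
            rw [← Real.log_mul pc.ne' p0.ne', e2, Real.log_one]
          unfold lE lQ lN
          rw [Real.log_mul pc.ne' (mul_pos pd pb).ne', Real.log_mul pd.ne' pb.ne']
          linarith
        rw [e3] at h2
        have h4 : Real.log (qav p c * (qav p M.1.det * qav p (br (r x₀) (r x)))) <
            Real.log (nm (qav p) (M.1.mulVec (im (RingHom.id ℚ) (r x)))) := by linarith
        exact (Real.log_lt_log_iff (by positivity) px).1 h4
    have h5 := hg3 _ hlt
    have h6 := Real.log_le_log (hpos' x hx.1) h5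
    rw [Real.log_div (hpos x hx.1).ne' hp.ne'] at h6
    linarith
  have hNA : N ⊆ A := filter_subset _ _
  have hsum : Ψ ⟨g * M.1, hgM⟩ - Ψ M ≤
      (N.card : ℝ) * (-(Real.log p.1 / 2)) +
        ((A.card : ℝ) - N.card) * (Real.log p.1 / 2) := by
    rw [hΨ]
    simp only
    rw [← sum_sub_distrib, ← sum_sdiff hNA]
    have h2 := sum_le_card_nsmul N _ _ hnear
    have h3 := sum_le_card_nsmul (A \ N) (fun x => lQ p (g * M.1) (r x) - lQ p M.1 (r x))
      (Real.log p.1 / 2) (fun x hx => hall x (mem_sdiff.1 hx).1)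
    rw [nsmul_eq_mul] at h2 h3
    rw [card_sdiff_of_subset hNA, Nat.cast_sub (card_le_card hNA)] at h3
    linarith
  have h7 : (4 * (N.card : ℝ)) * Real.log p.1 ≤ (2 * (A.card : ℝ) + 1) * Real.log p.1 := by
    linarith
  have h8 := le_of_mul_le_mul_right h7 hlogp
  have h9 : 4 * N.card ≤ 2 * A.card + 1 := by exact_mod_cast h8
  omega

end Pool.Agent.T6.H83.SH
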