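import Pool.Agent.T6.H83.SH.Ker1

/-!
# The kernel of the archimedean place
-/

set_option autoImplicit false
set_option linter.unusedSectionVars false
set_option linter.unusedVariables false

namespace Pool.Agent.T6.H83.SH

open Finset
open Pool.Agent.T6.H83.RM
open scoped ComplexConjugate

variable {α : Type} [DecidableEq α]

/-- the point of the unit circle attached to a unit vector -/
noncomputable def zc (u : Fin 2 → ℝ) : ℂ := ⟨u 0 ^ 2 - u 1 ^ 2, 2 * u 0 * u 1⟩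

lemma en2_one {u : Fin 2 → ℝ} (hu : en2 u = 1) : u 0 ^ 2 + u 1 ^ 2 = 1 := by
  have := en2_sq u
  rw [hu] at this
  linarith

lemma norm_zc {u : Fin 2 → ℝ} (hu : en2 u = 1) : ‖zc u‖ = 1 := by
  have h := en2_one hu
  have h1 : ‖zc u‖ ^ 2 = 1 := by
    rw [Complex.sq_norm, Complex.normSq_apply]
    simp only [zc]
    have : (u 0 ^ 2 - u 1 ^ 2) * (u 0 ^ 2 - u 1 ^ 2) + 2 * u 0 * u 1 * (2 * u 0 * u 1) =
        (u 0 ^ 2 + u 1 ^ 2) ^ 2 := by ring
    rw [this, h]; norm_num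
  have h2 := norm_nonneg (zc u)
  nlinarith

lemma norm_one_sub {u v : Fin 2 → ℝ} (hu : en2 u = 1) (hv : en2 v = 1) :
    ‖1 - zc u * conj (zc v)‖ = 2 * |br u v| := by
  have h1 := en2_one hu
  have h2 := en2_one hv
  have h3 : ‖1 - zc u * conj (zc v)‖ ^ 2 = (2 * |br u v|) ^ 2 := by
    rw [Complex.sq_norm, Complex.normSq_apply, mul_pow, sq_abs]
    simp only [zc, br, Complex.sub_re, Complex.one_re, Complex.mul_re, Complex.conj_re,
      Complex.conj_im, Complex.sub_im, Complex.one_im, Complex.mul_im]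
    have e1 : (u 0 * v 0 + u 1 * v 1) ^ 2 + (u 0 * v 1 - u 1 * v 0) ^ 2 = 1 := by
      have : (u 0 * v 0 + u 1 * v 1) ^ 2 + (u 0 * v 1 - u 1 * v 0) ^ 2 =
          (u 0 ^ 2 + u 1 ^ 2) * (v 0 ^ 2 + v 1 ^ 2) := by ring
      rw [this, h1, h2, one_mul]
    obtain ⟨D, hD⟩ : ∃ D, D = u 0 * v 0 + u 1 * v 1 := ⟨_, rfl⟩
    obtain ⟨Bb, hB⟩ : ∃ Bb, Bb = u 0 * v 1 - u 1 * v 0 := ⟨_, rfl⟩
    have e2 : (u 0 ^ 2 - u 1 ^ 2) * (v 0 ^ 2 - v 1 ^ 2) - 2 * u 0 * u 1 * -(2 * v 0 * v 1) =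
        D ^ 2 - Bb ^ 2 := by rw [hD, hB]; ring
    have e3 : (u 0 ^ 2 - u 1 ^ 2) * -(2 * v 0 * v 1) + 2 * u 0 * u 1 * (v 0 ^ 2 - v 1 ^ 2) =
        -2 * D * Bb := by rw [hD, hB]; ring
    rw [e2, e3, ← hB]
    rw [← hD, ← hB] at e1
    have e4 : D ^ 2 = 1 - Bb ^ 2 := by linarith
    have e5 : (1 - (D ^ 2 - Bb ^ 2)) * (1 - (D ^ 2 - Bb ^ 2)) + (0 - -2 * D * Bb) *
        (0 - -2 * D * Bb) = (1 - (D ^ 2 - Bb ^ 2)) ^ 2 + 4 * D ^ 2 * Bb ^ 2 := by ring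
    rw [e5, e4]
    ring
  exact (pow_left_inj₀ (norm_nonneg _) (by positivity) (by norm_num)).1 h3

/-- a positive semidefinite kernel on the unit disc -/
lemma circ_psd (Z : Finset α) (lam : α → ℝ) (a : α → ℂ) (ha : ∀ x ∈ Z, ‖a x‖ < 1) :
    0 ≤ ∑ x ∈ Z, ∑ y ∈ Z, lam x * lam y * (-Real.log ‖1 - a x * conj (a y)‖) := by
  have hs : HasSum (fun n : ℕ => ∑ x ∈ Z, ∑ y ∈ Z, lam x * lam y *
      ((a x * conj (a y)) ^ n / n : ℂ).re)
      (∑ x ∈ Z, ∑ y ∈ Z, lam x * lam y * (-Real.log ‖1 - a x * conj (a y)‖)) := by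
    refine hasSum_sum fun x hx => hasSum_sum fun y hy => ?_
    apply HasSum.mul_left
    have h1 : ‖a x * conj (a y)‖ < 1 := by
      rw [norm_mul, RCLike.norm_conj]
      have e1 := ha x hx
      have e2 := ha y hy
      have e3 := norm_nonneg (a x)
      have e4 := norm_nonneg (a y)
      nlinarith
    have h2 := Complex.hasSum_taylorSeries_neg_log h1
    have h3 := Complex.hasSum_re h2
    rw [Complex.neg_re, Complex.log_re] at h3
    exact h3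
  refine hs.nonneg fun n => ?_
  have h2 : ∑ x ∈ Z, ∑ y ∈ Z, lam x * lam y * ((a x * conj (a y)) ^ n / n : ℂ).re =
      Complex.normSq (∑ x ∈ Z, (lam x : ℂ) * a x ^ n) / n := by
    have h3 : (Complex.normSq (∑ x ∈ Z, (lam x : ℂ) * a x ^ n) : ℝ) =
        ((∑ x ∈ Z, (lam x : ℂ) * a x ^ n) * conj (∑ x ∈ Z, (lam x : ℂ) * a x ^ n)).re := by
      rw [Complex.mul_conj]
      simp
    rw [h3, map_sum, sum_mul_sum, Complex.re_sum, sum_div]
    refine sum_congr rfl fun x _ => ?_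
    rw [Complex.re_sum, sum_div]
    refine sum_congr rfl fun y _ => ?_
    rw [map_mul, Complex.conj_ofReal, map_pow]
    have e1 : (lam x : ℂ) * a x ^ n * (lam y * conj (a y) ^ n) =
        ((lam x * lam y : ℝ) : ℂ) * (a x * conj (a y)) ^ n := by
      push_cast
      rw [mul_pow]
      ring
    rw [e1, Complex.re_ofReal_mul]
    have e2 : ((a x * conj (a y)) ^ n / n : ℂ).re = ((a x * conj (a y)) ^ n).re / n := by
      have : ((n : ℕ) : ℂ) = ((n : ℝ) : ℂ) := by push_cast; rfl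
      rw [this, Complex.div_ofReal_re]
    rw [e2]
    ring
  rw [h2]
  exact div_nonneg (Complex.normSq_nonneg _) (Nat.cast_nonneg _)

/-- comparison of two logarithms -/
lemma log_compare {ζ : ℂ} (hζ : ‖ζ‖ = 1) {ρ κ : ℝ} (hρ1 : ρ ≤ 1) (hκ0 : 0 < κ) (hκ : κ ≤ 1 / 2)
    (h0 : 0 < ‖1 - ζ‖) (h : 1 - ρ ≤ κ * ‖1 - ζ‖) :
    |Real.log ‖1 - (ρ : ℂ) * ζ‖ - Real.log ‖1 - ζ‖| ≤ 2 * κ := by
  have h1 : ‖(1 - (ρ : ℂ) * ζ) - (1 - ζ)‖ = 1 - ρ := by
    have : (1 - (ρ : ℂ) * ζ) - (1 - ζ) = ((1 - ρ : ℝ) : ℂ) * ζ := by push_cast; ring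
    rw [this, norm_mul, hζ, mul_one, Complex.norm_real, Real.norm_eq_abs,
      abs_of_nonneg (by linarith)]
  have h2 := norm_sub_norm_le (1 - (ρ : ℂ) * ζ) (1 - ζ)
  have h3 := norm_sub_norm_le (1 - ζ) (1 - (ρ : ℂ) * ζ)
  rw [norm_sub_rev (1 - ζ) (1 - (ρ : ℂ) * ζ), h1] at h3
  rw [h1] at h2
  obtain ⟨a, ha⟩ : ∃ a, a = ‖1 - (ρ : ℂ) * ζ‖ := ⟨_, rfl⟩
  obtain ⟨b, hb⟩ : ∃ b, b = ‖1 - ζ‖ := ⟨_, rfl⟩
  rw [← ha, ← hb] at h2 h3 ⊢
  rw [← hb] at h0 h
  have h4 : (1 - κ) * b ≤ a := by linarith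
  have h5 : a ≤ (1 + κ) * b := by linarith
  have hk : 0 < 1 - κ := by linarith
  have ha0 : 0 < a := lt_of_lt_of_le (by positivity) h4
  have h6 := Real.log_le_log (by positivity) h4
  have h7 := Real.log_le_log ha0 h5
  rw [Real.log_mul hk.ne' h0.ne'] at h6
  rw [Real.log_mul (by positivity) h0.ne'] at h7
  have h8 := Real.log_le_sub_one_of_pos (show 0 < 1 + κ by positivity)
  have h9 := Real.log_le_sub_one_of_pos (inv_pos.2 hk)
  rw [Real.log_inv] at h9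
  have h10 : (1 - κ)⁻¹ ≤ 1 + 2 * κ := by
    rw [inv_le_iff_one_le_mul₀ hk]
    nlinarith
  rw [abs_le]
  constructor <;> linarith

/-- the form of the archimedean similarity -/
lemma ker_circ (Z : Finset α) (u : α → Fin 2 → ℝ) (hu : ∀ x ∈ Z, en2 (u x) = 1) (m : α → ℝ)
    (hm0 : ∀ x ∈ Z, 0 ≤ m x)
    (hbr : ∀ x ∈ Z, ∀ y ∈ Z, x ≠ y → 0 < |br (u x) (u y)|)
    (hm : ∀ x ∈ Z, ∀ y ∈ Z, x ≠ y → -Real.log |br (u x) (u y)| ≤ m x)
    (lam : α → ℝ) {κ : ℝ} (hκ0 : 0 < κ) (hκ : κ ≤ 1 / 2) :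
    -(∑ x ∈ Z, lam x ^ 2 * (m x + Real.log (1 / κ) + Real.log 2)) -
      2 * κ * (∑ x ∈ Z, |lam x|) ^ 2 ≤
      ∑ x ∈ Z, ∑ y ∈ Z.erase x, lam x * lam y * (-Real.log |br (u x) (u y)|) := by
  set ρ : α → ℝ := fun x => 1 - κ * Real.exp (-m x) with hρ
  have hρ1 : ∀ x ∈ Z, 0 < κ * Real.exp (-m x) ∧ κ * Real.exp (-m x) ≤ 1 / 2 := by
    intro x hx
    have e1 := Real.exp_pos (-m x)
    have e2 : Real.exp (-m x) ≤ 1 := Real.exp_le_one_iff.2 (by have := hm0 x hx; linarith)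
    exact ⟨by positivity, by nlinarith⟩
  set a : α → ℂ := fun x => (ρ x : ℂ) * zc (u x) with ha
  have hprod : ∀ x y, a x * conj (a y) = ((ρ x * ρ y : ℝ) : ℂ) * (zc (u x) * conj (zc (u y))) := by
    intro x y
    rw [ha]
    simp only
    rw [map_mul, Complex.conj_ofReal]
    push_cast
    ring
  have hpsd := circ_psd Z lam a (by
    intro x hx
    rw [ha]
    simp only
    rw [norm_mul, norm_zc (hu x hx), mul_one, Complex.norm_real, Real.norm_eq_abs]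
    have e1 := hρ1 x hx
    have e2 : ρ x = 1 - κ * Real.exp (-m x) := rfl
    rw [e2, abs_of_nonneg (by linarith)]
    linarith)
  -- the diagonal
  have hdiag : ∀ x ∈ Z, -Real.log ‖1 - a x * conj (a x)‖ ≤ m x + Real.log (1 / κ) := by
    intro x hx
    obtain ⟨e1, e2⟩ := hρ1 x hx
    have e3 : ρ x = 1 - κ * Real.exp (-m x) := rfl
    have e4 : zc (u x) * conj (zc (u x)) = 1 := by
      rw [Complex.mul_conj, Complex.normSq_eq_norm_sq, norm_zc (hu x hx)]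
      simp
    have e5 : 1 - a x * conj (a x) = ((1 - ρ x * ρ x : ℝ) : ℂ) := by
      rw [hprod, e4]; push_cast; ring
    obtain ⟨t, ht⟩ : ∃ t, t = κ * Real.exp (-m x) := ⟨_, rfl⟩
    rw [← ht] at e1 e2 e3
    have e6 : t ≤ 1 - ρ x * ρ x := by rw [e3]; nlinarith
    rw [e5, Complex.norm_real, Real.norm_eq_abs, abs_of_nonneg (by linarith)]
    have e7 := Real.log_le_log e1 e6
    have e8 : Real.log t = Real.log κ - m x := by
      rw [ht, Real.log_mul hκ0.ne' (Real.exp_pos _).ne', Real.log_exp]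
      ring
    rw [one_div, Real.log_inv]
    linarith
  -- the other terms
  have hoff : ∀ x ∈ Z, ∀ y ∈ Z.erase x, lam x * lam y * (-Real.log ‖1 - a x * conj (a y)‖) -
      2 * κ * (|lam x| * |lam y|) + lam x * lam y * Real.log 2 ≤
        lam x * lam y * (-Real.log |br (u x) (u y)|) := by
    intro x hx y hy
    have hyZ := mem_of_mem_erase hy
    have hxy : x ≠ y := Ne.symm (ne_of_mem_erase hy)
    have hb := hbr x hx y hyZ hxy
    have n1 := norm_one_sub (hu x hx) (hu y hyZ)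
    obtain ⟨e1, e2⟩ := hρ1 x hx
    obtain ⟨f1, f2⟩ := hρ1 y hyZ
    have e3 : ρ x = 1 - κ * Real.exp (-m x) := rfl
    have f3 : ρ y = 1 - κ * Real.exp (-m y) := rfl
    have g1 : Real.exp (-m x) ≤ |br (u x) (u y)| := by
      rw [← Real.exp_log hb]
      apply Real.exp_le_exp.2
      have := hm x hx y hyZ hxy
      linarith
    have g2 : Real.exp (-m y) ≤ |br (u x) (u y)| := by
      rw [← Real.exp_log hb]
      apply Real.exp_le_exp.2
      have h1 := hm y hyZ x hx (Ne.symm hxy)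
      have h2 : |br (u y) (u x)| = |br (u x) (u y)| := by
        have : br (u y) (u x) = - br (u x) (u y) := by unfold br; ring
        rw [this, abs_neg]
      rw [h2] at h1
      linarith
    have g3 : κ * Real.exp (-m x) ≤ κ * |br (u x) (u y)| := mul_le_mul_of_nonneg_left g1 hκ0.le
    have g4 : κ * Real.exp (-m y) ≤ κ * |br (u x) (u y)| := mul_le_mul_of_nonneg_left g2 hκ0.le
    have hζ : ‖zc (u x) * conj (zc (u y))‖ = 1 := by
      rw [norm_mul, RCLike.norm_conj, norm_zc (hu x hx), norm_zc (hu y hyZ), mul_one]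
    have g5 := log_compare (ρ := ρ x * ρ y) hζ (by rw [e3, f3]; nlinarith) hκ0 hκ
      (by rw [n1]; positivity) (by rw [n1, e3, f3]; nlinarith)
    rw [← hprod, n1, Real.log_mul (by norm_num) hb.ne'] at g5
    have g6 : |lam x * lam y * (Real.log ‖1 - a x * conj (a y)‖ -
        (Real.log 2 + Real.log |br (u x) (u y)|))| ≤ |lam x| * |lam y| * (2 * κ) := by
      rw [abs_mul, abs_mul]
      exact mul_le_mul_of_nonneg_left g5 (by positivity)
    have g7 := (abs_le.1 g6).1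
    have g8 := (abs_le.1 g6).2
    nlinarith
  have h1 : ∑ x ∈ Z, ∑ y ∈ Z, lam x * lam y * (-Real.log ‖1 - a x * conj (a y)‖) ≤
      ∑ x ∈ Z, (lam x ^ 2 * (m x + Real.log (1 / κ)) +
        ∑ y ∈ Z.erase x, lam x * lam y * (-Real.log ‖1 - a x * conj (a y)‖)) := by
    refine sum_le_sum fun x hx => ?_
    rw [← add_sum_erase Z _ hx]
    have e1 := mul_le_mul_of_nonneg_left (hdiag x hx) (sq_nonneg (lam x))
    have e2 : lam x * lam x * (-Real.log ‖1 - a x * conj (a x)‖) =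
        lam x ^ 2 * (-Real.log ‖1 - a x * conj (a x)‖) := by ring
    rw [e2]
    linarith
  have h2 : ∑ x ∈ Z, ∑ y ∈ Z.erase x, (lam x * lam y * (-Real.log ‖1 - a x * conj (a y)‖) -
      2 * κ * (|lam x| * |lam y|) + lam x * lam y * Real.log 2) ≤
      ∑ x ∈ Z, ∑ y ∈ Z.erase x, lam x * lam y * (-Real.log |br (u x) (u y)|) :=
    sum_le_sum fun x hx => sum_le_sum fun y hy => hoff x hx y hy
  have h3 : ∑ x ∈ Z, ∑ y ∈ Z.erase x, (lam x * lam y * (-Real.log ‖1 - a x * conj (a y)‖) -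
      2 * κ * (|lam x| * |lam y|) + lam x * lam y * Real.log 2) =
      ∑ x ∈ Z, ∑ y ∈ Z.erase x, lam x * lam y * (-Real.log ‖1 - a x * conj (a y)‖) -
      2 * κ * ∑ x ∈ Z, ∑ y ∈ Z.erase x, |lam x| * |lam y| +
      (∑ x ∈ Z, ∑ y ∈ Z.erase x, lam x * lam y) * Real.log 2 := by
    rw [mul_sum, sum_mul, ← sum_sub_distrib, ← sum_add_distrib]
    refine sum_congr rfl fun x _ => ?_
    rw [sum_add_distrib, sum_sub_distrib, mul_sum, sum_mul]
  have h4 : ∑ x ∈ Z, ∑ y ∈ Z.erase x, |lam x| * |lam y| ≤ (∑ x ∈ Z, |lam x|) ^ 2 := by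
    rw [sq, sum_mul_sum]
    refine sum_le_sum fun x hx => sum_le_sum_of_subset_of_nonneg (erase_subset _ _)
      fun y _ _ => by positivity
  have h5 : -(∑ x ∈ Z, lam x ^ 2) ≤ ∑ x ∈ Z, ∑ y ∈ Z.erase x, lam x * lam y := by
    have e1 : ∑ x ∈ Z, lam x ^ 2 + ∑ x ∈ Z, ∑ y ∈ Z.erase x, lam x * lam y =
        (∑ x ∈ Z, lam x) ^ 2 := by
      rw [sq, sum_mul_sum, ← sum_add_distrib]
      refine sum_congr rfl fun x hx => ?_
      rw [← add_sum_erase Z _ hx]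
      ring
    have := sq_nonneg (∑ x ∈ Z, lam x)
    linarith
  have hl2 : 0 < Real.log 2 := Real.log_pos (by norm_num)
  have h6 := mul_le_mul_of_nonneg_right h5 hl2.le
  have h7 : 2 * κ * ∑ x ∈ Z, ∑ y ∈ Z.erase x, |lam x| * |lam y| ≤
      2 * κ * (∑ x ∈ Z, |lam x|) ^ 2 := mul_le_mul_of_nonneg_left h4 (by positivity)
  rw [sum_add_distrib] at h1
  have h8 : ∑ x ∈ Z, lam x ^ 2 * (m x + Real.log (1 / κ) + Real.log 2) =
      ∑ x ∈ Z, lam x ^ 2 * (m x + Real.log (1 / κ)) + (∑ x ∈ Z, lam x ^ 2) * Real.log 2 := by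
    rw [sum_mul, ← sum_add_distrib]
    refine sum_congr rfl fun x _ => ?_
    ring
  rw [h3] at h2
  rw [h8]
  linarith

/-- points on the same side of a given point -/
lemma same_side {e u v : Fin 2 → ℝ} (he : en2 e = 1) (hu : en2 u = 1) (hv : en2 v = 1)
    (h : 0 ≤ (e 0 * u 0 + e 1 * u 1) * br e u ↔ 0 ≤ (e 0 * v 0 + e 1 * v 1) * br e v) :
    |br u v| ≤ max |br u e| |br v e| := by
  have h1 := en2_one he
  have h2 := en2_one hu
  have h3 := en2_one hv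
  obtain ⟨Du, hDu⟩ : ∃ D, D = e 0 * u 0 + e 1 * u 1 := ⟨_, rfl⟩
  obtain ⟨Dv, hDv⟩ : ∃ D, D = e 0 * v 0 + e 1 * v 1 := ⟨_, rfl⟩
  obtain ⟨Bu, hBu⟩ : ∃ D, D = br e u := ⟨_, rfl⟩
  obtain ⟨Bv, hBv⟩ : ∃ D, D = br e v := ⟨_, rfl⟩
  rw [← hDu, ← hDv, ← hBu, ← hBv] at h
  have e1 : |br u e| = |Bu| := by
    have : br u e = - br e u := by unfold br; ring
    rw [this, abs_neg, hBu]
  have e2 : |br v e| = |Bv| := by
    have : br v e = - br e v := by unfold br; ring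
    rw [this, abs_neg, hBv]
  have e3 : br u v = Du * Bv - Bu * Dv := by
    have : br u v = (e 0 ^ 2 + e 1 ^ 2) * br u v := by rw [h1, one_mul]
    rw [this, hDu, hDv, hBu, hBv]
    unfold br
    ring
  have e4 : Du ^ 2 + Bu ^ 2 = 1 := by
    have : Du ^ 2 + Bu ^ 2 = (e 0 ^ 2 + e 1 ^ 2) * (u 0 ^ 2 + u 1 ^ 2) := by
      rw [hDu, hBu]; unfold br; ring
    rw [this, h1, h2, one_mul]
  have e5 : Dv ^ 2 + Bv ^ 2 = 1 := by
    have : Dv ^ 2 + Bv ^ 2 = (e 0 ^ 2 + e 1 ^ 2) * (v 0 ^ 2 + v 1 ^ 2) := by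
      rw [hDv, hBv]; unfold br; ring
    rw [this, h1, h3, one_mul]
  have e6 : |Du| ≤ 1 := by
    rw [← sq_le_sq₀ (abs_nonneg _) zero_le_one, sq_abs]
    nlinarith [sq_nonneg Bu]
  have e7 : |Dv| ≤ 1 := by
    rw [← sq_le_sq₀ (abs_nonneg _) zero_le_one, sq_abs]
    nlinarith [sq_nonneg Bv]
  have e8 : 0 ≤ (Du * Bv) * (Bu * Dv) := by
    have : (Du * Bv) * (Bu * Dv) = (Du * Bu) * (Dv * Bv) := by ring
    rw [this]
    by_cases h4 : 0 ≤ Du * Bu
    · exact mul_nonneg h4 (h.1 h4)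
    · have h5 : ¬ 0 ≤ Dv * Bv := fun h6 => h4 (h.2 h6)
      exact (mul_pos_of_neg_of_neg (not_le.1 h4) (not_le.1 h5)).le
  have e9 : ∀ X Y : ℝ, 0 ≤ X * Y → |X - Y| ≤ max |X| |Y| := by
    intro X Y hXY
    rcases le_total |X| |Y| with h5 | h5
    · rw [max_eq_right h5]
      rw [← sq_le_sq₀ (abs_nonneg _) (abs_nonneg _), sq_abs, sq_abs]
      have h6 : X ^ 2 ≤ X * Y := by
        rw [← sq_abs, ← abs_of_nonneg hXY, abs_mul, sq]
        exact mul_le_mul_of_nonneg_left h5 (abs_nonneg _)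
      nlinarith
    · rw [max_eq_left h5]
      rw [← sq_le_sq₀ (abs_nonneg _) (abs_nonneg _), sq_abs, sq_abs]
      have h6 : Y ^ 2 ≤ X * Y := by
        rw [← sq_abs Y, ← abs_of_nonneg hXY, abs_mul, sq]
        exact mul_le_mul_of_nonneg_right h5 (abs_nonneg _)
      nlinarith
  rw [e1, e2, e3]
  refine (e9 _ _ e8).trans (max_le ?_ ?_)
  · rw [abs_mul]
    refine le_trans ?_ (le_max_right _ _)
    have := abs_nonneg Bv
    nlinarith
  · rw [abs_mul]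
    refine le_trans ?_ (le_max_left _ _)
    have := abs_nonneg Bu
    nlinarith

/-- the form of the archimedean place -/
lemma ker_arch_fm (E : α → α → ℝ) (h : α → ℝ) (hs : ∀ x y, E x y = E y x) {P Q : Finset α}
    (hd : Disjoint P Q) (u : α → Fin 2 → ℝ) (hu : ∀ x ∈ P ∪ Q, en2 (u x) = 1)
    (hbr : ∀ x ∈ P ∪ Q, ∀ y ∈ P ∪ Q, x ≠ y → 0 < |br (u x) (u y)|)
    (hEu : ∀ x ∈ P ∪ Q, ∀ y ∈ P ∪ Q, x ≠ y → E x y = -Real.log |br (u x) (u y)|)
    (hE : ∀ x ∈ P ∪ Q, ∀ y ∈ P ∪ Q, x ≠ y → 0 ≤ E x y ∧ E x y ≤ h x + h y) {S : ℕ} (hS : 1 ≤ S)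
    (hn : 300000 * S ^ 3 ≤ P.card + Q.card) :
    -(((P.card : ℝ) + Q.card) ^ 2 * (6 * (∑ x ∈ P ∪ Q, max (h x) 0) +
      ((P.card : ℝ) + Q.card) ^ 2 / (10000 * (S : ℝ) ^ 2))) ≤ fm E P Q := by
  obtain ⟨m, hm0, hm, hms⟩ := exists_m E h
    (fun y x => 0 ≤ (u y 0 * u x 0 + u y 1 * u x 1) * br (u y) (u x)) hs _ (P ∪ Q) rfl hE (by
    intro y hy x hx x' hx' hxy hxy' hxx' hc
    rw [hEu x hx y hy hxy, hEu x' hx' y hy hxy', hEu x hx x' hx' hxx']
    have h1 := same_side (hu y hy) (hu x hx) (hu x' hx') hc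
    have p1 := hbr x hx y hy hxy
    have p2 := hbr x' hx' y hy hxy'
    have p3 := hbr x hx x' hx' hxx'
    rcases le_max_iff.1 h1 with h2 | h2
    · have := Real.log_le_log p3 h2
      exact (min_le_left _ _).trans (by linarith)
    · have := Real.log_le_log p3 h2
      exact (min_le_right _ _).trans (by linarith))
  have hSR : (1 : ℝ) ≤ S := by exact_mod_cast hS
  obtain ⟨κ, hκ⟩ : ∃ κ : ℝ, κ = 1 / (80000 * (S : ℝ) ^ 2) := ⟨_, rfl⟩
  have hS2 : (1 : ℝ) ≤ (S : ℝ) ^ 2 := one_le_pow₀ hSR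
  have hκ0 : 0 < κ := by rw [hκ]; positivity
  have hκ1 : κ ≤ 1 / 2 := by
    rw [hκ]
    apply one_div_le_one_div_of_le (by norm_num)
    linarith
  have h1 := ker_circ (P ∪ Q) u hu m hm0 hbr (fun x hx y hy hxy => by
    rw [← hEu x hx y hy hxy]; exact hm x hx y hy hxy) (lamPQ P Q) hκ0 hκ1
  have h2 : ∑ x ∈ P ∪ Q, ∑ y ∈ (P ∪ Q).erase x, lamPQ P Q x * lamPQ P Q y *
      (-Real.log |br (u x) (u y)|) = fm E P Q := by
    rw [fm_quad E hs hd]
    refine sum_congr rfl fun x hx => sum_congr rfl fun y hy => ?_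
    rw [hEu x hx y (mem_of_mem_erase hy) (Ne.symm (ne_of_mem_erase hy))]
  rw [h2] at h1
  obtain ⟨n, hnd⟩ : ∃ n : ℝ, n = (P.card : ℝ) + Q.card := ⟨_, rfl⟩
  have hcard : ((P ∪ Q).card : ℝ) = n := by
    rw [hnd, card_union_of_disjoint hd]; push_cast; rfl
  have hlam : ∀ x ∈ P ∪ Q, |lamPQ P Q x| ≤ n := fun x _ => by rw [hnd]; exact lamPQ_le x
  have hn0 : 0 ≤ n := by rw [hnd]; positivity
  have hnS : 300000 * (S : ℝ) ^ 3 ≤ n := by rw [hnd]; exact_mod_cast hn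
  have hHH : HH h (P ∪ Q) = ∑ x ∈ P ∪ Q, max (h x) 0 := rfl
  rw [← hnd, ← hHH]
  -- the error terms
  have hlsq : ∀ x ∈ P ∪ Q, lamPQ P Q x ^ 2 ≤ n ^ 2 := by
    intro x hx
    rw [← sq_abs]
    exact pow_le_pow_left₀ (abs_nonneg _) (hlam x hx) 2
  have hlogk : 0 ≤ Real.log (1 / κ) + Real.log 2 := by
    have e1 : 0 ≤ Real.log (1 / κ) := by
      apply Real.log_nonneg
      rw [le_div_iff₀ hκ0]
      linarith
    have e2 : 0 < Real.log 2 := Real.log_pos (by norm_num)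
    linarith
  have e1 : ∑ x ∈ P ∪ Q, lamPQ P Q x ^ 2 * (m x + Real.log (1 / κ) + Real.log 2) ≤
      n ^ 2 * (6 * HH h (P ∪ Q)) + n ^ 2 * (n * (Real.log (1 / κ) + Real.log 2)) := by
    calc ∑ x ∈ P ∪ Q, lamPQ P Q x ^ 2 * (m x + Real.log (1 / κ) + Real.log 2)
        ≤ ∑ x ∈ P ∪ Q, n ^ 2 * (m x + (Real.log (1 / κ) + Real.log 2)) := by
          refine sum_le_sum fun x hx => ?_
          rw [add_assoc]
          exact mul_le_mul_of_nonneg_right (hlsq x hx) (add_nonneg (hm0 x hx) hlogk)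
      _ = n ^ 2 * ∑ x ∈ P ∪ Q, m x + n ^ 2 * (n * (Real.log (1 / κ) + Real.log 2)) := by
          rw [← mul_sum, sum_add_distrib, sum_const, nsmul_eq_mul, hcard]
          ring
      _ ≤ _ := by
          have := mul_le_mul_of_nonneg_left hms (sq_nonneg n)
          linarith
  have e2 : ∑ x ∈ P ∪ Q, |lamPQ P Q x| ≤ n ^ 2 := by
    have := sum_le_card_nsmul (P ∪ Q) _ _ hlam
    rw [nsmul_eq_mul, hcard] at this
    rw [sq]
    exact this
  have e3 : 2 * κ * (∑ x ∈ P ∪ Q, |lamPQ P Q x|) ^ 2 ≤ n ^ 4 / (40000 * (S : ℝ) ^ 2) := by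
    have f1 : (∑ x ∈ P ∪ Q, |lamPQ P Q x|) ^ 2 ≤ (n ^ 2) ^ 2 :=
      pow_le_pow_left₀ (sum_nonneg fun x _ => abs_nonneg _) e2 2
    have f2 := mul_le_mul_of_nonneg_left f1 (show 0 ≤ 2 * κ by positivity)
    refine f2.trans (le_of_eq ?_)
    rw [hκ]
    field_simp
    ring
  have e4 : Real.log (1 / κ) + Real.log 2 ≤ 22 * S := by
    rw [hκ, one_div_one_div, Real.log_mul (by norm_num) (by positivity), Real.log_pow]
    have f1 : Real.log 80000 ≤ 17 * Real.log 2 := by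
      rw [← Real.log_rpow (by norm_num)]
      apply Real.log_le_log (by norm_num)
      norm_num
    have f2 := Real.log_two_lt_d9
    have f3 := Real.log_le_sub_one_of_pos (show (0 : ℝ) < S by linarith)
    push_cast
    linarith
  have e5 : n * (Real.log (1 / κ) + Real.log 2) ≤ 3 * n ^ 2 / (40000 * (S : ℝ) ^ 2) := by
    have f1 : n * (Real.log (1 / κ) + Real.log 2) ≤ n * (22 * S) :=
      mul_le_mul_of_nonneg_left e4 hn0
    refine f1.trans ?_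
    rw [le_div_iff₀ (by positivity)]
    have f2 : 22 * (S : ℝ) * (40000 * S ^ 2) ≤ 3 * n := by
      have : 22 * (S : ℝ) * (40000 * S ^ 2) = 880000 * S ^ 3 := by ring
      rw [this]
      linarith [pow_pos (lt_of_lt_of_le one_pos hSR) 3]
    nlinarith
  have e6 : n ^ 2 * (6 * HH h (P ∪ Q) + n ^ 2 / (10000 * (S : ℝ) ^ 2)) =
      n ^ 2 * (6 * HH h (P ∪ Q)) + n ^ 2 * (3 * n ^ 2 / (40000 * (S : ℝ) ^ 2)) +
        n ^ 4 / (40000 * (S : ℝ) ^ 2) := by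
    field_simp
    ring
  have e7 := mul_le_mul_of_nonneg_left e5 (sq_nonneg n)
  rw [e6]
  linarith

end Pool.Agent.T6.H83.SH
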