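import Pool.Agent.T6.H83.SH.Good
import Pool.Agent.T6.H83.SH.Frame
import Pool.Agent.T6.H83.SH.Ker2

/-!
# The abstract situation of a finite invariant set
-/

set_option autoImplicit false
set_option linter.unusedSectionVars false
set_option linter.unusedVariables false

namespace Pool.Agent.T6.H83.SH

open Finset MvPolynomial
open Pool.Agent.T6.H83.RM (im Phi_im im_smul im_ne_zero lN lE tr ex TM VP br_mulVec
  mulVec_ne_zero nm_mulVec_pos lE_nonneg lE_ultra lN_smul TM_im GLR GLQ lR lQ aw un lE_arch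
  lE_arch_nonneg lE_arch_ultra lE_symm qav_na br_rep_ne br_un_ne en2_un en2 en2_smul
  en2_mulVec_pos hwR φR wR grid en cr en_enum en_add prod_formula_log exists_supp br_tri)
open Pool.Agent.H892.PGR (nm Phi phi_smul nm_pos nm_smul sum_le)
open Pool.Agent.H892.PGK (PotGood PP fX br_zero_iff)
open Pool.Agent.TH856.PG (Pr qav qav_eq NoZero phi_ne_zero rep_fX)

/-- the iterates of the inequality for the fibres -/
lemma t1_iter {α : Type*} [DecidableEq α] {A : Finset α} {f : α → α} (hf : ∀ x ∈ A, f x ∈ A)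
    {r : α → α → ℝ} (r0 : ∀ x ∈ A, ∀ y ∈ A, x ≠ y → 0 ≤ r x y)
    (h1 : ∀ (X : Finset α) (b : α), X ⊆ A → b ∈ A → (∀ x ∈ X, f x = b) →
      ∀ y ∈ A, f y ≠ b → ∑ x ∈ X, r y x ≤ r (f y) b) :
    ∀ (k : ℕ) (X : Finset α) (b : α), X ⊆ A → b ∈ A → (∀ x ∈ X, f^[k] x = b) →
      ∀ y ∈ A, f^[k] y ≠ b → ∑ x ∈ X, r y x ≤ r (f^[k] y) b := by
  intro k
  induction k with
  | zero =>
    intro X b hX hb hXb y hy hyb
    have h2 : X ⊆ {b} := fun x hx => mem_singleton.2 (hXb x hx)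
    rcases subset_singleton_iff.1 h2 with h3 | h3
    · rw [h3, sum_empty]
      exact r0 y hy b hb hyb
    · rw [h3, sum_singleton]
      exact le_rfl
  | succ k ih =>
    intro X b hX hb hXb y hy hyb
    have hit : ∀ z ∈ A, f^[k] z ∈ A := by
      intro z hz
      clear ih hXb hyb
      induction k with
      | zero => exact hz
      | succ k ih2 => rw [Function.iterate_succ_apply']; exact hf _ ih2
    rw [Function.iterate_succ_apply'] at hyb ⊢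
    have h2 : ∑ x ∈ X, r y x = ∑ z ∈ X.image f^[k], ∑ x ∈ X with f^[k] x = z, r y x :=
      (sum_fiberwise_of_maps_to (fun x hx => mem_image_of_mem _ hx) _).symm
    rw [h2]
    have hbz : ∀ z ∈ X.image f^[k], f z = b := by
      intro z hz
      obtain ⟨x, hx, rfl⟩ := mem_image.1 hz
      have := hXb x hx
      rwa [Function.iterate_succ_apply'] at this
    have hXA : X.image f^[k] ⊆ A := by
      intro z hz
      obtain ⟨x, hx, rfl⟩ := mem_image.1 hz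
      exact hit x (hX hx)
    have h3 : ∑ z ∈ X.image f^[k], ∑ x ∈ X with f^[k] x = z, r y x ≤
        ∑ z ∈ X.image f^[k], r (f^[k] y) z := by
      refine sum_le_sum fun z hz => ?_
      apply ih
      · exact (filter_subset _ _).trans hX
      · exact hXA hz
      · intro x hx
        exact (mem_filter.1 hx).2
      · exact hy
      · intro h4
        exact hyb (by rw [h4]; exact hbz z hz)
    exact h3.trans (h1 _ b hXA hb hbz _ (hit y hy) hyb)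

/-- the choices of the coordinates -/
abbrev Fr : Type := GLR × (Pr → GLQ)

open Classical in
/-- the logarithmic norms -/
noncomputable def lw (Bd : Finset Pr) (lg : Pr → (Fin 2 → ℚ) → ℝ) (φ : Fr) :
    Option Pr → (Fin 2 → ℚ) → ℝ
  | none => lR φ.1.1
  | some p => if p ∈ Bd then lQ p (φ.2 p).1 else lg p

/-- the local products -/
noncomputable def Ew (Bd : Finset Pr) (lg : Pr → (Fin 2 → ℚ) → ℝ) (φ : Fr) (w : Option Pr)
    (x y : PP ℚ) : ℝ := lE (aw w) (lw Bd lg φ w) x.rep y.rep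

/-- the heights -/
noncomputable def hw (Bd P₁ : Finset Pr) (lg : Pr → (Fin 2 → ℚ) → ℝ) (φ : Fr) (x : PP ℚ) : ℝ :=
  ∑ w ∈ insertNone P₁, lw Bd lg φ w x.rep

/-- the good part -/
noncomputable def rw' (Bd P₁ : Finset Pr) (lg : Pr → (Fin 2 → ℚ) → ℝ) (x y : PP ℚ) : ℝ :=
  ∑ p ∈ P₁ \ Bd, lE (qav p) (lg p) x.rep y.rep

section

variable {Bd P₁ : Finset Pr} {lg : Pr → (Fin 2 → ℚ) → ℝ} {F G : MvPolynomial (Fin 2) ℚ} {d : ℕ}

lemma lw_none (φ : Fr) : lw Bd lg φ none = lR φ.1.1 := rfl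

lemma lw_bad (φ : Fr) {p : Pr} (hp : p ∈ Bd) : lw Bd lg φ (some p) = lQ p (φ.2 p).1 := by
  simp [lw, hp]

lemma lw_good (φ : Fr) {p : Pr} (hp : p ∉ Bd) : lw Bd lg φ (some p) = lg p := by
  simp [lw, hp]

lemma lw_smul (hlg : ∀ p ∉ Bd, GoodD (qav p) F G d (lg p)) (φ : Fr) (w : Option Pr) (c : ℚ)
    (v : Fin 2 → ℚ) (hc : c ≠ 0) (hv : v ≠ 0) :
    lw Bd lg φ w (c • v) = Real.log (aw w c) + lw Bd lg φ w v := by
  rcases w with _ | p
  · rw [lw_none]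
    show _ = Real.log (Rat.AbsoluteValue.real c) + _
    rw [← hwR]
    exact lN_smul φR (w := wR) en2_smul c hc v (en2_mulVec_pos φ.1.2 hv)
  · by_cases hp : p ∈ Bd
    · rw [lw_bad φ hp]
      exact lN_smul (RingHom.id ℚ) (nm_smul (qav p)) c hc v (nm_mulVec_pos _ (φ.2 p).2 hv)
    · rw [lw_good φ hp]
      exact (hlg p hp).smul c v hc hv

lemma Ew_symm (φ : Fr) (w : Option Pr) (x y : PP ℚ) : Ew Bd lg φ w x y = Ew Bd lg φ w y x :=
  lE_symm _ _ _ _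

lemma Ew_nonneg (φ : Fr) {w : Option Pr} (hw : w ∈ insertNone Bd) {x y : PP ℚ} (hxy : x ≠ y) :
    0 ≤ Ew Bd lg φ w x y := by
  rcases w with _ | p
  · exact lE_arch_nonneg φ.1.2 x.rep_nonzero y.rep_nonzero (br_rep_ne hxy)
  · have hp : p ∈ Bd := some_mem_insertNone.1 hw
    unfold Ew
    rw [lw_bad φ hp]
    exact lE_nonneg (RingHom.id ℚ) (qav_na p) (fun q => rfl) (φ.2 p).2 x.rep_nonzero
      y.rep_nonzero (br_rep_ne hxy)

lemma Ew_ultra (φ : Fr) {w : Option Pr} (hw : w ∈ insertNone Bd) (hw0 : w ≠ none)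
    {x y z : PP ℚ} (hxy : x ≠ y) (hyz : y ≠ z) (hxz : x ≠ z) :
    min (Ew Bd lg φ w x y) (Ew Bd lg φ w y z) ≤ Ew Bd lg φ w x z := by
  rcases w with _ | p
  · exact absurd rfl hw0
  · have hp : p ∈ Bd := some_mem_insertNone.1 hw
    unfold Ew
    rw [lw_bad φ hp]
    exact lE_ultra (RingHom.id ℚ) (qav_na p) (fun q => rfl) (φ.2 p).2 x.rep_nonzero
      y.rep_nonzero z.rep_nonzero (br_rep_ne hxy) (br_rep_ne hyz) (br_rep_ne hxz)

lemma Ew_quasi (φ : Fr) {w : Option Pr} (hw : w ∈ insertNone Bd)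
    {x y z : PP ℚ} (hxy : x ≠ y) (hyz : y ≠ z) (hxz : x ≠ z) :
    min (Ew Bd lg φ w x y) (Ew Bd lg φ w y z) ≤ Ew Bd lg φ w x z + 1 := by
  by_cases hw0 : w = none
  · subst hw0
    exact lE_arch_ultra φ.1.2 x.rep_nonzero y.rep_nonzero z.rep_nonzero (br_rep_ne hxy)
      (br_rep_ne hyz) (br_rep_ne hxz)
  · have := Ew_ultra (lg := lg) φ hw hw0 hxy hyz hxz
    linarith

lemma rw_symm (x y : PP ℚ) : rw' Bd P₁ lg x y = rw' Bd P₁ lg y x :=
  sum_congr rfl fun p _ => lE_symm _ _ _ _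

lemma rw_nonneg (hlg : ∀ p ∉ Bd, GoodD (qav p) F G d (lg p)) {x y : PP ℚ} (hxy : x ≠ y) :
    0 ≤ rw' Bd P₁ lg x y :=
  sum_nonneg fun p hp => (hlg p (mem_sdiff.1 hp).2).nonneg _ _ x.rep_nonzero y.rep_nonzero
    (br_rep_ne hxy)

/-- a sum over all places -/
lemma sum_places (hBP : Bd ⊆ P₁) (g : Option Pr → ℝ) :
    ∑ w ∈ insertNone P₁, g w = ∑ v ∈ insertNone Bd, g v + ∑ p ∈ P₁ \ Bd, g (some p) := by
  classical
  rw [sum_insertNone, sum_insertNone, ← sum_sdiff hBP]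
  ring

lemma sum_Ew (hBP : Bd ⊆ P₁) (φ : Fr) {x y : PP ℚ}
    (hsupp : ∑ w ∈ insertNone P₁, Real.log (aw w (RM.br x.rep y.rep)) = 0) :
    ∑ v ∈ insertNone Bd, Ew Bd lg φ v x y + rw' Bd P₁ lg x y =
      hw Bd P₁ lg φ x + hw Bd P₁ lg φ y := by
  have h1 := sum_places hBP (fun w => Ew Bd lg φ w x y)
  have h2 : ∑ p ∈ P₁ \ Bd, Ew Bd lg φ (some p) x y = rw' Bd P₁ lg x y := by
    unfold rw' Ew
    refine sum_congr rfl fun p hp => ?_
    rw [lw_good φ (mem_sdiff.1 hp).2]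
    rfl
  rw [h2] at h1
  rw [← h1]
  unfold hw Ew lE
  rw [sum_sub_distrib, sum_add_distrib, hsupp, sub_zero]

/-- the inequality for a fibre -/
lemma rw_fibre (hlg : ∀ p ∉ Bd, GoodD (qav p) F G d (lg p)) (h0 : NoZero F G)
    (X : Finset (PP ℚ)) (b : PP ℚ) (hX : ∀ x ∈ X, fX F G (phi_ne_zero h0) x = b) (y : PP ℚ)
    (hy : fX F G (phi_ne_zero h0) y ≠ b) :
    ∑ x ∈ X, rw' Bd P₁ lg y x ≤ rw' Bd P₁ lg (fX F G (phi_ne_zero h0) y) b := by
  classical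
  unfold rw'
  rw [sum_comm]
  refine sum_le_sum fun p hp => ?_
  have hg := hlg p (mem_sdiff.1 hp).2
  obtain ⟨β, hβ, hβy⟩ := rep_fX (phi_ne_zero h0) y
  have hbs : ∀ (c : ℚ) (u v : Fin 2 → ℚ), RM.br (c • u) v = c * RM.br u v := by
    intro c u v
    unfold RM.br
    simp only [Pi.smul_apply, smul_eq_mul]
    ring
  have h1 : RM.br (Phi F G y.rep) b.rep ≠ 0 := by
    have h2 := br_rep_ne hy
    rw [hβy, hbs] at h2
    exact right_ne_zero_of_mul h2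
  have h2 := hg.fibre X y.rep b.rep y.rep_nonzero b.rep_nonzero (by
    intro x hx
    obtain ⟨β', hβ', hx'⟩ := rep_fX (phi_ne_zero h0) x
    rw [hX x hx] at hx'
    rw [hx']
    unfold RM.br
    simp only [Pi.smul_apply, smul_eq_mul]
    ring) h1
  refine h2.trans (le_of_eq ?_)
  unfold lE
  rw [hβy, hg.smul β _ hβ (phi_ne_zero h0 _ y.rep_nonzero), hbs, map_mul,
    Real.log_mul ((qav p).pos hβ).ne' ((qav p).pos h1).ne']
  ring

/-- the lower bound for the forms -/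
lemma ker_Ew [DecidableEq (PP ℚ)] (φ : Fr) {v : Option Pr} (hv : v ∈ insertNone Bd)
    (h : PP ℚ → ℝ) {P Q : Finset (PP ℚ)} (hd : Disjoint P Q) {S : ℕ} (hS : 1 ≤ S)
    (hE : ∀ x ∈ P ∪ Q, ∀ y ∈ P ∪ Q, x ≠ y → Ew Bd lg φ v x y ≤ h x + h y)
    (hn : 300000 * S ^ 3 ≤ P.card + Q.card) :
    -(((P.card : ℝ) + Q.card) ^ 2 * (6 * (∑ x ∈ P ∪ Q, max (h x) 0) +
      ((P.card : ℝ) + Q.card) ^ 2 / (10000 * (S : ℝ) ^ 2))) ≤ fm (Ew Bd lg φ v) P Q := by
  by_cases hv0 : v = none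
  · subst hv0
    refine ker_arch_fm (Ew Bd lg φ none) h (fun x y => Ew_symm φ none x y) hd
      (fun x => un φ.1.1 x.rep) (fun x _ => en2_un φ.1.2 x.rep_nonzero)
      (fun x _ y _ hxy => br_un_ne φ.1.2 x.rep_nonzero y.rep_nonzero (br_rep_ne hxy))
      (fun x _ y _ hxy => lE_arch φ.1.2 x.rep_nonzero y.rep_nonzero (br_rep_ne hxy))
      (fun x hx y hy hxy => ⟨Ew_nonneg φ hv hxy, hE x hx y hy hxy⟩) hS hn
  · have h1 := ker_ultra (Ew Bd lg φ v) h (fun x y => Ew_symm φ v x y) (P ∪ Q)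
      (fun x hx y hy hxy => ⟨Ew_nonneg φ hv hxy, hE x hx y hy hxy⟩)
      (fun x _ y _ z _ hxy hyz hxz => Ew_ultra φ hv hv0 hxy hyz hxz) (lamPQ P Q)
      (fun x _ => lamPQ_le x)
    rw [← fm_quad (Ew Bd lg φ v) (fun x y => Ew_symm φ v x y) hd] at h1
    refine le_trans ?_ h1
    have hHH : HH h (P ∪ Q) = ∑ x ∈ P ∪ Q, max (h x) 0 := rfl
    rw [hHH]
    have hSR : (1 : ℝ) ≤ S := by exact_mod_cast hS
    have : 0 ≤ ((P.card : ℝ) + Q.card) ^ 2 *
        (((P.card : ℝ) + Q.card) ^ 2 / (10000 * (S : ℝ) ^ 2)) := by positivity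
    linarith

/-- two of many points are near to each other -/
lemma cap_Ew [DecidableEq (PP ℚ)] {q : ℕ} (hq : 2 * Real.exp 24 < q) (φ : Fr)
    (Z : Finset (PP ℚ)) (hZ : (2 * q + 1) ^ 2 < Z.card) :
    ∃ x ∈ Z, ∃ y ∈ Z, x ≠ y ∧ 24 < Ew Bd lg φ none x y := by
  have hexp : 0 < Real.exp 24 := Real.exp_pos _
  have hq0R : (0 : ℝ) < q := by linarith
  have hq0 : 0 < q := by exact_mod_cast hq0R
  obtain ⟨y₀, hy₀, h1⟩ := grid q hq0 Z (card_pos.1 (by omega)) (fun x => un φ.1.1 x.rep)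
    (fun x _ => en2_un φ.1.2 x.rep_nonzero)
  have h2 : 1 < (Z.filter (fun x => |RM.br (un φ.1.1 y₀.rep) (un φ.1.1 x.rep)| ≤ 2 / q)).card := by
    by_contra h3
    push Not at h3
    have : Z.card ≤ (2 * q + 1) ^ 2 * 1 := h1.trans (Nat.mul_le_mul_left _ h3)
    omega
  obtain ⟨y, hy, hyy⟩ := exists_mem_ne h2 y₀
  rw [mem_filter] at hy
  refine ⟨y₀, hy₀, y, hy.1, Ne.symm hyy, ?_⟩
  have hE : Ew Bd lg φ none y₀ y = -Real.log |RM.br (un φ.1.1 y₀.rep) (un φ.1.1 y.rep)| :=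
    lE_arch φ.1.2 y₀.rep_nonzero y.rep_nonzero (br_rep_ne (Ne.symm hyy))
  rw [hE]
  have h3 := br_un_ne φ.1.2 y₀.rep_nonzero y.rep_nonzero (br_rep_ne (Ne.symm hyy))
  have h4 : |RM.br (un φ.1.1 y₀.rep) (un φ.1.1 y.rep)| < Real.exp (-24) := by
    refine lt_of_le_of_lt hy.2 ?_
    rw [Real.exp_neg, div_lt_iff₀ hq0R, inv_mul_eq_div, lt_div_iff₀ hexp]
    exact hq
  have h5 := Real.log_lt_log h3 h4
  rw [Real.log_exp] at h5
  linarith

/-- almost optimal coordinates -/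
lemma frame_Ew [DecidableEq (PP ℚ)] (hBP : Bd ⊆ P₁) (Z : Finset (PP ℚ)) (hZ : 2 ≤ Z.card) :
    ∃ φ : Fr, (∀ v ∈ insertNone Bd, v ≠ none → ∀ x ∈ Z,
      2 * (Z.filter (fun y => y = x ∨ 0 < Ew Bd lg φ v x y)).card ≤ Z.card) ∧
    (∀ x ∈ Z, 3 * (Z.filter (fun y => 3 / 2 < Ew Bd lg φ none x y)).card ≤ 2 * Z.card + 1) ∧
    ∀ φ' : Fr, ∑ x ∈ Z, hw Bd P₁ lg φ x ≤ ∑ x ∈ Z, hw Bd P₁ lg φ' x + ((Bd.card + 1 : ℕ) : ℝ) := by
  classical
  obtain ⟨M, hM1, hM2⟩ := exists_frame_arch2 Z (fun x : PP ℚ => x.rep)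
    (fun x _ => x.rep_nonzero) (fun x _ y _ hxy => br_rep_ne hxy) hZ
  have hfr := fun p : Pr => exists_frame_nonarch2 p Z (fun x : PP ℚ => x.rep)
    (fun x _ => x.rep_nonzero) (fun x _ y _ hxy => br_rep_ne hxy) hZ
  choose Mp hMp1 hMp2 using hfr
  refine ⟨(M, Mp), ?_, ?_, ?_⟩
  · intro v hv hv0 x hx
    rcases v with _ | p
    · exact absurd rfl hv0
    · have hp : p ∈ Bd := some_mem_insertNone.1 hv
      have h1 := hMp2 p x hx
      have h2 : ∀ y, Ew Bd lg (M, Mp) (some p) x y = lE (qav p) (lQ p (Mp p).1) x.rep y.rep := by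
        intro y
        unfold Ew
        rw [lw_bad (M, Mp) hp]
        rfl
      simp_rw [h2]
      exact h1
  · intro x hx
    refine le_trans (Nat.mul_le_mul_left 3 (card_le_card ?_)) (hM2 x hx)
    intro y hy
    rw [mem_filter] at hy ⊢
    refine ⟨hy.1, ?_⟩
    by_cases hxy : x = y
    · subst hxy
      have : RM.br (un M.1 x.rep) (un M.1 x.rep) = 0 := by unfold RM.br; ring
      rw [this, abs_zero]
      norm_num
    · have hE : Ew Bd lg (M, Mp) none x y = -Real.log |RM.br (un M.1 x.rep) (un M.1 y.rep)| :=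
        lE_arch M.2 x.rep_nonzero y.rep_nonzero (br_rep_ne hxy)
      have h1 := hy.2
      rw [hE] at h1
      have h3 := br_un_ne M.2 x.rep_nonzero y.rep_nonzero (br_rep_ne hxy)
      by_contra hcon
      push Not at hcon
      have h4 := Real.log_le_log (by norm_num) hcon.le
      rw [Real.log_div one_ne_zero (by norm_num), Real.log_one] at h4
      have h5 : Real.log 4 = 2 * Real.log 2 := by
        rw [show (4 : ℝ) = 2 ^ 2 by norm_num, Real.log_pow]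
        norm_num
      have h6 := Real.log_two_lt_d9
      linarith
  · intro φ'
    have hsw : ∀ φ : Fr, ∑ x ∈ Z, hw Bd P₁ lg φ x =
        ∑ x ∈ Z, lR φ.1.1 x.rep + ∑ p ∈ Bd, ∑ x ∈ Z, lQ p (φ.2 p).1 x.rep +
          ∑ p ∈ P₁ \ Bd, ∑ x ∈ Z, lg p x.rep := by
      intro φ
      have h1 : ∀ x, hw Bd P₁ lg φ x = lR φ.1.1 x.rep + ∑ p ∈ Bd, lQ p (φ.2 p).1 x.rep +
          ∑ p ∈ P₁ \ Bd, lg p x.rep := by
        intro x
        unfold hw
        rw [sum_places hBP (fun w => lw Bd lg φ w x.rep), sum_insertNone]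
        congr 1
        · congr 1
          exact sum_congr rfl fun p hp => by rw [lw_bad φ hp]
        · exact sum_congr rfl fun p hp => by rw [lw_good φ (mem_sdiff.1 hp).2]
      rw [sum_congr rfl fun x _ => h1 x, sum_add_distrib, sum_add_distrib]
      congr 1
      · congr 1
        exact sum_comm
      · exact sum_comm
    rw [hsw, hsw]
    have h1 := hM1 φ'.1
    have h2 : ∑ p ∈ Bd, ∑ x ∈ Z, lQ p (Mp p).1 x.rep ≤
        ∑ p ∈ Bd, (∑ x ∈ Z, lQ p (φ'.2 p).1 x.rep + 1) :=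
      sum_le_sum fun p _ => hMp1 p (φ'.2 p)
    rw [sum_add_distrib, sum_const, nsmul_eq_mul, mul_one] at h2
    push_cast
    linarith

end

/-- **the abstract situation** -/
theorem exists_sy0 [DecidableEq (PP ℚ)] [DecidableEq (Option Pr)] {Bd P₁ : Finset Pr}
    {lg : Pr → (Fin 2 → ℚ) → ℝ}
    {F G : MvPolynomial (Fin 2) ℚ} {d : ℕ} (hlg : ∀ p ∉ Bd, GoodD (qav p) F G d (lg p))
    (h0 : NoZero F G) (hBP : Bd ⊆ P₁) (A : Finset (PP ℚ))
    (hA : ∀ P ∈ A, fX F G (phi_ne_zero h0) P ∈ A)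
    (hsupp : ∀ x ∈ A, ∀ y ∈ A, x ≠ y →
      ∑ w ∈ insertNone P₁, Real.log (aw w (RM.br x.rep y.rep)) = 0)
    {q : ℕ} (hq : 2 * Real.exp 24 < q) :
    Sy Fr A (fX F G (phi_ne_zero h0)) (insertNone Bd) none (Bd.card + 1) ((2 * q + 1) ^ 2)
      (rw' Bd P₁ lg) (Ew Bd lg) (hw Bd P₁ lg) := by
  have hsum : ∀ φ, ∀ x ∈ A, ∀ y ∈ A, x ≠ y → ∑ v ∈ insertNone Bd, Ew Bd lg φ v x y +
      rw' Bd P₁ lg x y = hw Bd P₁ lg φ x + hw Bd P₁ lg φ y := by
    intro φ x hx y hy hxy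
    exact sum_Ew hBP φ (hsupp x hx y hy hxy)
  have hEle : ∀ φ, ∀ v ∈ insertNone Bd, ∀ x ∈ A, ∀ y ∈ A, x ≠ y → Ew Bd lg φ v x y ≤
      hw Bd P₁ lg φ x + hw Bd P₁ lg φ y := by
    intro φ v hv x hx y hy hxy
    have h1 := hsum φ x hx y hy hxy
    have h2 := single_le_sum (f := fun w => Ew Bd lg φ w x y)
      (fun w hw => Ew_nonneg φ hw hxy) hv
    have h3 : 0 ≤ rw' Bd P₁ lg x y := rw_nonneg hlg hxy
    linarith
  refine ⟨card_insertNone _, none_mem_insertNone, hA, ?_, rw_symm, ?_, ?_, ?_, ?_, hsum, ?_, ?_,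
    ?_, ?_⟩
  · intro x _ y _ hxy
    exact rw_nonneg hlg hxy
  · intro φ v hv x _ y _ hxy
    exact Ew_nonneg φ hv hxy
  · intro φ v x y
    exact Ew_symm φ v x y
  · intro φ v hv x _ y _ z _ hxy hyz hxz
    exact Ew_quasi φ hv hxy hyz hxz
  · intro φ v hv hv0 x _ y _ z _ hxy hyz hxz
    exact Ew_ultra φ hv hv0 hxy hyz hxz
  · intro φ v hv P Q hP hQ hd hn
    exact ker_Ew φ hv (hw Bd P₁ lg φ) hd (by omega)
      (fun x hx y hy hxy => hEle φ v hv x (union_subset hP hQ hx) y (union_subset hP hQ hy) hxy)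
      hn
  · intro φ Z _ hZ
    exact cap_Ew hq φ Z hZ
  · intro Z _ hZ
    exact frame_Ew hBP Z hZ
  · exact t1_iter hA (fun x _ y _ hxy => rw_nonneg hlg hxy)
      (fun X b _ _ hX y _ hy => rw_fibre hlg h0 X b hX y hy)

end Pool.Agent.T6.H83.SH
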