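import Pool.Agent.T6.H83.SH.Glob1

/-!
# The determinant inequality
-/

set_option autoImplicit false
set_option linter.unusedSectionVars false
set_option linter.unusedVariables false

namespace Pool.Agent.T6.H83.SH

open Finset MvPolynomial
open Pool.Agent.T6.H83.RM (im Phi_im im_smul im_ne_zero lN lE tr ex TM VP br_mulVec
  mulVec_ne_zero nm_mulVec_pos lE_nonneg lE_ultra lN_smul TM_im GLR GLQ lR lQ aw un lE_arch
  lE_arch_nonneg lE_arch_ultra lE_symm qav_na br_rep_ne br_un_ne en2_un en2 en2_smul abs_le_en2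
  en2_mulVec_pos hwR φR wR grid en cr en_enum en_add prod_formula_log exists_supp br_tri le_nm
  sum_en)
open Pool.Agent.H892.PGR (nm Phi phi_smul nm_pos nm_smul sum_le)
open Pool.Agent.H892.PGK (PotGood PP fX br_zero_iff)
open Pool.Agent.TH856.PG (Pr qav qav_eq NoZero phi_ne_zero rep_fX)

/-- the row of a point -/
noncomputable def rowv (F G : MvPolynomial (Fin 2) ℚ) (J : ℕ) (x : PP ℚ) : Rho J → ℚ :=
  fun c => (x.rep 0) ^ (c.1 : ℕ) * (x.rep 1) ^ (c.1.rev : ℕ) *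
    ((Phi F G x.rep 0) ^ (c.2 : ℕ) * (Phi F G x.rep 1) ^ (c.2.rev : ℕ))

/-- the determinant of an enumeration -/
noncomputable def DD (F G : MvPolynomial (Fin 2) ℚ) (J : ℕ) (x : Fin ((J + 1) * 2) → PP ℚ) : ℚ :=
  (TM J 2 (fun a => (x (finProdFinEquiv a)).rep)
    (fun a => Phi F G (x (finProdFinEquiv a)).rep)).det

section enum

variable {α : Type*} [DecidableEq α]

lemma en_enum' (e : α → α → ℝ) (hs : ∀ x y, e x y = e y x) {n : ℕ} (g : Fin n → α)
    (hg : Function.Injective g) :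
    en e (univ.image g) = 2 * ∑ i, ∑ j ∈ Ioi i, e (g i) (g j) := by
  have hb : Function.Bijective (fun i : Fin n => (⟨g i, mem_image_of_mem g (mem_univ i)⟩ :
      (univ.image g : Finset α))) := by
    constructor
    · intro i j h
      exact hg (congrArg Subtype.val h)
    · rintro ⟨y, hy⟩
      obtain ⟨i, -, rfl⟩ := mem_image.1 hy
      exact ⟨i, rfl⟩
  exact en_enum e hs (univ.image g) (Equiv.ofBijective _ hb)

end enum

lemma log_VP [DecidableEq (PP ℚ)] (a : AbsoluteValue ℚ ℝ) {n : ℕ} (g : Fin n → PP ℚ)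
    (hg : Function.Injective g) :
    Real.log (a (VP (fun i => (g i).rep))) =
      en (fun x y : PP ℚ => Real.log (a (RM.br x.rep y.rep))) (univ.image g) / 2 := by
  have hs : ∀ x y : PP ℚ, Real.log (a (RM.br x.rep y.rep)) = Real.log (a (RM.br y.rep x.rep)) := by
    intro x y
    have : RM.br x.rep y.rep = - RM.br y.rep x.rep := by unfold RM.br; ring
    rw [this, AbsoluteValue.map_neg]
  have hbr : ∀ i j : Fin n, i ≠ j → RM.br (g i).rep (g j).rep ≠ 0 := fun i j hij =>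
    br_rep_ne fun h => hij (hg h)
  rw [en_enum' _ hs g hg]
  unfold VP
  rw [map_prod, Real.log_prod]
  · have : ∑ i : Fin n, Real.log (a (∏ j ∈ Ioi i, RM.br (g j).rep (g i).rep)) =
        ∑ i : Fin n, ∑ j ∈ Ioi i, Real.log (a (RM.br (g i).rep (g j).rep)) := by
      refine sum_congr rfl fun i _ => ?_
      rw [map_prod, Real.log_prod]
      · exact sum_congr rfl fun j _ => hs _ _
      · intro j hj
        exact (a.pos (hbr j i (ne_of_gt (mem_Ioi.1 hj)))).ne'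
    rw [this]
    ring
  · intro i _
    rw [map_prod]
    refine prod_ne_zero_iff.2 fun j hj => ?_
    exact (a.pos (hbr j i (ne_of_gt (mem_Ioi.1 hj)))).ne'

section

variable {Bd P₁ : Finset Pr} {lg : Pr → (Fin 2 → ℚ) → ℝ} {F G : MvPolynomial (Fin 2) ℚ} {d : ℕ}
  {J : ℕ}

/-- the inequality at a bad place -/
lemma bad_ineq [DecidableEq (PP ℚ)] (h0 : NoZero F G) (φ' : Fr) {v : Option Pr}
    (hv : v ∈ insertNone Bd) (Z : Finset (PP ℚ)) (e : Fin ((J + 1) * 2) ≃ Z)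
    (hD : DD F G J (fun i => (e i : PP ℚ)) ≠ 0) :
    ∃ I ⊆ Z, I.card = J + 1 ∧ Real.log (aw v (DD F G J (fun i => (e i : PP ℚ)))) ≤
      (if v = none then 2 * ((J : ℝ) + 1) else 0) +
      en (fun x y : PP ℚ => Real.log (aw v (RM.br x.rep y.rep))) I / 2 +
      en (fun x y : PP ℚ => Real.log (aw v (RM.br x.rep y.rep))) (Z \ I) / 2 +
      ∑ x ∈ Z, lw Bd lg φ' v (Phi F G x.rep) := by
  classical
  set Eq : Rho J ≃ Z := finProdFinEquiv.trans e with hEq
  set x : Rho J → Fin 2 → ℚ := fun a => (Eq a : PP ℚ).rep with hx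
  set y : Rho J → Fin 2 → ℚ := fun a => Phi F G (Eq a : PP ℚ).rep with hy
  have hDx : DD F G J (fun i => (e i : PP ℚ)) = (TM J 2 x y).det := rfl
  rw [hDx] at hD ⊢
  have hy0 : ∀ a, y a ≠ 0 := fun a => phi_ne_zero h0 _ (Eq a : PP ℚ).rep_nonzero
  -- the local inequality
  obtain ⟨s, hs, hloc⟩ : ∃ s : Finset (Rho J), s.card = J + 1 ∧ ∀ (e₁ : Fin (J + 1) ≃ s)
      (e₂ : Fin (J + 1) ≃ (sᶜ : Finset (Rho J))),
      Real.log (aw v (TM J 2 x y).det) ≤ (if v = none then 2 * ((J : ℝ) + 1) else 0) +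
        Real.log (aw v (VP (fun i => x (e₁ i)))) +
        Real.log (aw v (VP (fun i => x (e₂ i)))) + ∑ a, lw Bd lg φ' v (y a) := by
    rcases v with _ | p
    · obtain ⟨s, hs, h1⟩ := local_bad φR wR φ'.1.1 φ'.1.2 en2 abs_le_en2
        (κ := (Fintype.card (Finset (Rho J)) : ℝ)) (by exact_mod_cast Fintype.card_pos)
        (fun f => arch_term wR f) x y hy0 hD
      refine ⟨s, hs, fun e₁ e₂ => ?_⟩
      have h2 := h1 e₁ e₂
      rw [hwR, hwR, hwR] at h2
      have h3 : Real.log (Fintype.card (Finset (Rho J)) : ℝ) ≤ 2 * ((J : ℝ) + 1) := by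
        rw [Fintype.card_finset, Fintype.card_prod, Fintype.card_fin, Fintype.card_fin]
        push_cast
        rw [Real.log_pow]
        push_cast
        have := Real.log_two_lt_d9
        have h4 : (0 : ℝ) ≤ (J : ℝ) + 1 := by positivity
        nlinarith
      rw [if_pos rfl]
      have h4 : ∑ a, lN φR wR φ'.1.1 en2 (y a) = ∑ a, lw Bd lg φ' none (y a) := rfl
      rw [h4] at h2
      exact h2.trans (by
        have e1 : Real.log (aw none (VP fun i => x (e₁ i))) =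
          Real.log (Rat.AbsoluteValue.real (VP fun i => x (e₁ i))) := rfl
        have e2 : Real.log (aw none (VP fun i => x (e₂ i))) =
          Real.log (Rat.AbsoluteValue.real (VP fun i => x (e₂ i))) := rfl
        rw [e1, e2]
        linarith)
    · have hp : p ∈ Bd := some_mem_insertNone.1 hv
      obtain ⟨s, hs, h1⟩ := local_bad (RingHom.id ℚ) (qav p) (φ'.2 p).1 (φ'.2 p).2 (nm (qav p))
        le_nm (κ := 1) one_pos (fun f => ultra_term (qav p) (qav_na p) f) x y hy0 hD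
      refine ⟨s, hs, fun e₁ e₂ => ?_⟩
      have h2 := h1 e₁ e₂
      rw [Real.log_one] at h2
      rw [if_neg (by simp), lw_bad φ' hp]
      exact h2
  have hsc : (sᶜ : Finset (Rho J)).card = J + 1 := by
    rw [card_compl, hs, Fintype.card_prod, Fintype.card_fin, Fintype.card_fin]
    omega
  set e₁ : Fin (J + 1) ≃ s := (Fintype.equivFinOfCardEq (by rw [Fintype.card_coe, hs])).symm
  set e₂ : Fin (J + 1) ≃ (sᶜ : Finset (Rho J)) :=
    (Fintype.equivFinOfCardEq (by rw [Fintype.card_coe, hsc])).symm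
  set g₁ : Fin (J + 1) → PP ℚ := fun i => (Eq (e₁ i) : PP ℚ) with hg₁
  set g₂ : Fin (J + 1) → PP ℚ := fun i => (Eq (e₂ i) : PP ℚ) with hg₂
  have hi₁ : Function.Injective g₁ := fun i j h =>
    e₁.injective (Subtype.ext (Eq.injective (Subtype.ext h)))
  have hi₂ : Function.Injective g₂ := fun i j h =>
    e₂.injective (Subtype.ext (Eq.injective (Subtype.ext h)))
  have hI : univ.image g₁ ⊆ Z := by
    intro z hz
    obtain ⟨i, -, rfl⟩ := mem_image.1 hz
    exact (Eq (e₁ i)).2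
  have hIc : Z \ univ.image g₁ = univ.image g₂ := by
    ext z
    rw [mem_sdiff]
    constructor
    · rintro ⟨h1, h2⟩
      have h3 : Eq.symm ⟨z, h1⟩ ∉ s := by
        intro h4
        apply h2
        rw [mem_image]
        refine ⟨e₁.symm ⟨_, h4⟩, mem_univ _, ?_⟩
        rw [hg₁]
        simp
      rw [mem_image]
      refine ⟨e₂.symm ⟨_, mem_compl.2 h3⟩, mem_univ _, ?_⟩
      rw [hg₂]
      simp
    · intro h1
      obtain ⟨i, -, rfl⟩ := mem_image.1 h1
      refine ⟨(Eq (e₂ i)).2, ?_⟩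
      intro h2
      obtain ⟨j, -, h3⟩ := mem_image.1 h2
      have h4 : (e₁ j : Rho J) = (e₂ i : Rho J) := Eq.injective (Subtype.ext h3)
      have h5 := (e₂ i).2
      rw [mem_compl, ← h4] at h5
      exact h5 (e₁ j).2
  refine ⟨univ.image g₁, hI, ?_, ?_⟩
  · rw [card_image_of_injective _ hi₁, card_univ, Fintype.card_fin]
  · have h1 := hloc e₁ e₂
    have h2 := log_VP (aw v) g₁ hi₁
    have h3 := log_VP (aw v) g₂ hi₂
    have h4 : ∑ a, lw Bd lg φ' v (y a) = ∑ z ∈ Z, lw Bd lg φ' v (Phi F G z.rep) := by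
      rw [← sum_coe_sort Z (fun z => lw Bd lg φ' v (Phi F G z.rep)), ← Equiv.sum_comp Eq]
    rw [h4] at h1
    rw [hIc, ← h2, ← h3]
    exact h1

/-- **the determinant inequality** -/
theorem det_ineq [DecidableEq (PP ℚ)] (hlg : ∀ p ∉ Bd, GoodD (qav p) F G d (lg p))
    (h0 : NoZero F G) (hBP : Bd ⊆ P₁) (A : Finset (PP ℚ)) (b : PP ℚ → ℚ)
    (hb0 : ∀ x, b x ≠ 0)
    (hb : ∀ x, (fX F G (phi_ne_zero h0) x).rep = b x • Phi F G x.rep)
    (hsuppb : ∀ x ∈ A, ∑ w ∈ insertNone P₁, Real.log (aw w (b x)) = 0)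
    (hsuppD : ∀ x : Fin ((J + 1) * 2) → PP ℚ, (∀ i, x i ∈ A) → DD F G J x ≠ 0 →
      ∑ w ∈ insertNone P₁, Real.log (aw w (DD F G J x)) = 0)
    (Z : Finset (PP ℚ)) (hZA : Z ⊆ A) (hZ : Z.card = (J + 1) * 2)
    (hli : LinearIndependent ℚ (fun x : Z => rowv F G J (x : PP ℚ))) (φ φ' : Fr) :
    ∃ I : Option Pr → Finset (PP ℚ), (∀ v ∈ insertNone Bd, I v ⊆ Z ∧ (I v).card = J + 1) ∧
      en (rw' Bd P₁ lg) Z / 2 + ∑ v ∈ insertNone Bd,
        (en (Ew Bd lg φ v) (I v) + en (Ew Bd lg φ v) (Z \ I v)) / 2 ≤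
      J * ∑ x ∈ Z, hw Bd P₁ lg φ x + ∑ x ∈ Z, hw Bd P₁ lg φ' (fX F G (phi_ne_zero h0) x) +
        2 * ((J : ℝ) + 1) := by
  classical
  have hcard : Fintype.card Z = (J + 1) * 2 := by rw [Fintype.card_coe, hZ]
  set e : Fin ((J + 1) * 2) ≃ Z := (Fintype.equivFinOfCardEq hcard).symm with he
  obtain ⟨D, hDd⟩ : ∃ D, D = DD F G J (fun i => (e i : PP ℚ)) := ⟨_, rfl⟩
  have hD : D ≠ 0 := by
    rw [hDd]
    unfold DD
    have h1 : LinearIndependent ℚ (TM J 2 (fun a => (e (finProdFinEquiv a) : PP ℚ).rep)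
        (fun a => Phi F G (e (finProdFinEquiv a) : PP ℚ).rep)).row := by
      have h2 := hli.comp (fun a : Rho J => e (finProdFinEquiv a))
        (e.injective.comp finProdFinEquiv.injective)
      exact h2
    have h2 := Matrix.linearIndependent_rows_iff_isUnit.1 h1
    exact ((Matrix.isUnit_iff_isUnit_det _).1 h2).ne_zero
  have hbad : ∀ v : Option Pr, ∃ I : Finset (PP ℚ), v ∈ insertNone Bd → I ⊆ Z ∧ I.card = J + 1 ∧
      Real.log (aw v D) ≤ (if v = none then 2 * ((J : ℝ) + 1) else 0) +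
      en (fun x y : PP ℚ => Real.log (aw v (RM.br x.rep y.rep))) I / 2 +
      en (fun x y : PP ℚ => Real.log (aw v (RM.br x.rep y.rep))) (Z \ I) / 2 +
      ∑ x ∈ Z, lw Bd lg φ' v (Phi F G x.rep) := by
    intro v
    by_cases hv : v ∈ insertNone Bd
    · obtain ⟨I, h1, h2, h3⟩ := bad_ineq (Bd := Bd) (lg := lg) h0 φ' hv Z e (by
        rw [← hDd]; exact hD)
      rw [← hDd] at h3
      exact ⟨I, fun _ => ⟨h1, h2, h3⟩⟩
    · exact ⟨∅, fun h => absurd h hv⟩
  choose I hI using hbad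
  refine ⟨I, fun v hv => ⟨(hI v hv).1, (hI v hv).2.1⟩, ?_⟩
  -- the bad places
  have hbad2 : ∀ v ∈ insertNone Bd, Real.log (aw v D) ≤
      (if v = none then 2 * ((J : ℝ) + 1) else 0) + J * ∑ x ∈ Z, lw Bd lg φ v x.rep +
      ∑ x ∈ Z, lw Bd lg φ' v (Phi F G x.rep) -
      (en (Ew Bd lg φ v) (I v) + en (Ew Bd lg φ v) (Z \ I v)) / 2 := by
    intro v hv
    obtain ⟨h1, h2, h3⟩ := hI v hv
    have hen : ∀ X : Finset (PP ℚ), en (fun x y : PP ℚ => Real.log (aw v (RM.br x.rep y.rep))) X =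
        2 * ((X.card : ℝ) - 1) * ∑ x ∈ X, lw Bd lg φ v x.rep - en (Ew Bd lg φ v) X := by
      intro X
      rw [← en_add (fun x : PP ℚ => lw Bd lg φ v x.rep) X]
      unfold en Ew lE
      rw [← sum_sub_distrib]
      refine sum_congr rfl fun x _ => ?_
      rw [← sum_sub_distrib]
      refine sum_congr rfl fun y _ => ?_
      ring
    have hc : (Z \ I v).card = J + 1 := by
      rw [card_sdiff_of_subset h1, hZ, h2]
      omega
    rw [hen, hen, h2, hc] at h3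
    have h4 : ∑ x ∈ Z, lw Bd lg φ v x.rep = ∑ x ∈ Z \ I v, lw Bd lg φ v x.rep +
        ∑ x ∈ I v, lw Bd lg φ v x.rep := (sum_sdiff h1).symm
    rw [h4]
    push_cast at h3
    linarith
  -- the good places
  have hgood : ∀ p ∈ P₁ \ Bd, Real.log (aw (some p) D) ≤
      J * ∑ x ∈ Z, lw Bd lg φ (some p) x.rep + ∑ x ∈ Z, lw Bd lg φ' (some p) (Phi F G x.rep) -
      en (fun x y : PP ℚ => lE (qav p) (lg p) x.rep y.rep) Z / 2 := by
    intro p hp
    have hpb := (mem_sdiff.1 hp).2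
    rw [lw_good φ hpb, lw_good φ' hpb]
    have h1 := (hlg p hpb).det J (fun i => (e i : PP ℚ).rep) (fun i => (e i : PP ℚ).rep_nonzero)
      (fun i j hij => br_rep_ne fun h => hij (e.injective (Subtype.ext h))) (by
        rw [hDd] at hD; exact hD)
    have h2 : en (fun x y : PP ℚ => lE (qav p) (lg p) x.rep y.rep) Z =
        2 * ∑ i, ∑ j ∈ Ioi i, lE (qav p) (lg p) (e i : PP ℚ).rep (e j : PP ℚ).rep :=
      en_enum (fun x y : PP ℚ => lE (qav p) (lg p) x.rep y.rep) (fun x y => lE_symm _ _ _ _) Z e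
    have hsum : ∀ g : (Fin 2 → ℚ) → ℝ, ∑ i, g (e i : PP ℚ).rep = ∑ y ∈ Z, g y.rep := by
      intro g
      rw [← sum_coe_sort Z (fun y => g y.rep), ← Equiv.sum_comp e]
    rw [hsum (lg p), hsum (fun y => lg p (Phi F G y))] at h1
    rw [h2, hDd]
    have h3 : aw (some p) = qav p := rfl
    rw [h3]
    unfold DD
    linarith
  -- the sum
  have hprod := hsuppD (fun i => (e i : PP ℚ)) (fun i => hZA (e i).2) (by rw [← hDd]; exact hD)
  rw [← hDd, sum_places hBP] at hprod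
  have s1 := sum_le_sum hbad2
  have s2 := sum_le_sum hgood
  have s3 := add_le_add s1 s2
  rw [hprod] at s3
  have k1 : ∑ v ∈ insertNone Bd, (if v = none then 2 * ((J : ℝ) + 1) else 0) =
      2 * ((J : ℝ) + 1) := by
    rw [sum_insertNone]
    simp
  have k2 : ∀ (φ : Fr) (g : PP ℚ → Fin 2 → ℚ), ∑ v ∈ insertNone Bd, ∑ x ∈ Z, lw Bd lg φ v (g x) +
      ∑ p ∈ P₁ \ Bd, ∑ x ∈ Z, lw Bd lg φ (some p) (g x) =
      ∑ x ∈ Z, ∑ w ∈ insertNone P₁, lw Bd lg φ w (g x) := by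
    intro φ g
    rw [← sum_places hBP (fun w => ∑ x ∈ Z, lw Bd lg φ w (g x))]
    exact sum_comm
  have k3 : ∑ x ∈ Z, ∑ w ∈ insertNone P₁, lw Bd lg φ' w (Phi F G x.rep) =
      ∑ x ∈ Z, hw Bd P₁ lg φ' (fX F G (phi_ne_zero h0) x) := by
    refine sum_congr rfl fun x hx => ?_
    unfold hw
    have h1 : ∀ w ∈ insertNone P₁, lw Bd lg φ' w (fX F G (phi_ne_zero h0) x).rep =
        Real.log (aw w (b x)) + lw Bd lg φ' w (Phi F G x.rep) := by
      intro w _
      rw [hb x]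
      exact lw_smul hlg φ' w _ _ (hb0 x) (phi_ne_zero h0 _ x.rep_nonzero)
    rw [sum_congr rfl h1, sum_add_distrib, hsuppb x (hZA hx), zero_add]
  have k4 : ∑ x ∈ Z, ∑ w ∈ insertNone P₁, lw Bd lg φ w x.rep = ∑ x ∈ Z, hw Bd P₁ lg φ x := rfl
  have k5 : ∑ p ∈ P₁ \ Bd, en (fun x y : PP ℚ => lE (qav p) (lg p) x.rep y.rep) Z / 2 =
      en (rw' Bd P₁ lg) Z / 2 := by
    rw [← sum_div, sum_en]
    rfl
  have k6 := k2 φ' (fun x => Phi F G x.rep)
  have k7 := k2 φ (fun x => x.rep)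
  rw [k3] at k6
  rw [k4] at k7
  rw [sum_sub_distrib, sum_add_distrib, sum_add_distrib, k1, ← mul_sum, sum_sub_distrib,
    sum_add_distrib, ← mul_sum, k5] at s3
  have k8 : (J : ℝ) * ∑ v ∈ insertNone Bd, ∑ x ∈ Z, lw Bd lg φ v x.rep +
      J * ∑ p ∈ P₁ \ Bd, ∑ x ∈ Z, lw Bd lg φ (some p) x.rep = J * ∑ x ∈ Z, hw Bd P₁ lg φ x := by
    rw [← mul_add, k7]
  linarith

end

end Pool.Agent.T6.H83.SH
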