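import Pool.Agent.T6.H83.SH.Det1
import Pool.Agent.T6.H83.RM.Con10

/-!
# Places of potentially good reduction
-/

set_option autoImplicit false
set_option linter.unusedSectionVars false
set_option linter.unusedVariables false

namespace Pool.Agent.T6.H83.SH

open Finset MvPolynomial
open Pool.Agent.T6.H83.RM (im Phi_im im_smul im_ne_zero lN lE tr ex TM VP VP_mulVec br_mulVec
  exists_scale nm_Phi mulVec_ne_zero nm_mulVec_pos lE_nonneg lE_ultra lN_smul det_TM_mulVec TM_im
  lE_eq_dL fin_rev_add lin_hom2 dL_pos')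
open Pool.Agent.H892.PGR (nm Phi phi_smul nm_pos nm_smul sum_le dL dL_ultra br br_smul dL_smul)
open Pool.Agent.H892.PGK (PotGood PP fX br_zero_iff)
open Pool.Agent.TH856.PG (O uv mem_O uv_coprime exists_lift ev_lift dt ev prod_dt_dvd dL_le_one)

section L

variable {L : Type*} [Field L] (w : AbsoluteValue L ℝ)
  (hna : ∀ x y : L, w (x + y) ≤ max (w x) (w y))

lemma eval_hom_smul {R : Type*} [CommRing R] {H : MvPolynomial (Fin 2) R} {n : ℕ}
    (hH : H.IsHomogeneous n) (c : R) (v : Fin 2 → R) : eval (c • v) H = c ^ n * eval v H := by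
  have h := congrFun (phi_smul hH hH c v) 0
  simpa [Phi] using h

include hna in
/-- the value at a point of a form with given zeros -/
lemma form_le {ι : Type*} [DecidableEq ι] {H : MvPolynomial (Fin 2) L} {n : ℕ}
    (hH : H.IsHomogeneous n) {c : L} (hc : c ≠ 0) (hHi : ∀ s, w (H.coeff s) ≤ w c)
    (X : Finset ι) (u : ι → Fin 2 → L) (hu : ∀ i, u i ≠ 0)
    (hne : ∀ i ∈ X, ∀ j ∈ X, i ≠ j → br (u i) (u j) ≠ 0) (h0 : ∀ i ∈ X, eval (u i) H = 0)
    {p : Fin 2 → L} (hp : p ≠ 0) :
    w (eval p H) ≤ w c * nm w p ^ n * ∏ i ∈ X, dL w p (u i) := by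
  classical
  choose k hk0 hk1 using fun i => exists_scale (w := w) (hu i)
  obtain ⟨kp, hkp0, hkp1⟩ := exists_scale (w := w) hp
  have hc0 : 0 < w c := w.pos hc
  set H₁ : MvPolynomial (Fin 2) L := C c⁻¹ * H with hH₁
  have hH₁h : H₁.IsHomogeneous n := by
    simpa using (MvPolynomial.isHomogeneous_C (Fin 2) c⁻¹).mul hH
  have hH₁i : ∀ s, w (H₁.coeff s) ≤ 1 := by
    intro s
    rw [hH₁, coeff_C_mul, map_mul, map_inv₀, inv_mul_le_iff₀ hc0, mul_one]
    exact hHi s
  obtain ⟨H', hH'⟩ := exists_lift w hna hH₁i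
  have hsub : Function.Injective (O w hna).subtype := Subtype.val_injective
  have hH'h : H'.IsHomogeneous n := by
    apply MvPolynomial.IsHomogeneous.of_map hsub
    rw [hH']; exact hH₁h
  let U : ι → O w hna × O w hna := fun i => uv w hna (k i • u i) (hk1 i)
  let Up : O w hna × O w hna := uv w hna (kp • p) hkp1
  have hdtU : ∀ i j : ι, ((dt (U i) (U j) : O w hna) : L) = br (k i • u i) (k j • u j) := by
    intro i j; rfl
  have hdtp : ∀ i : ι, ((dt Up (U i) : O w hna) : L) = br (kp • p) (k i • u i) := by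
    intro i; rfl
  have hzero : ∀ i ∈ X, ev H' (U i) = 0 := by
    intro i hi
    apply hsub
    change ((ev H' (U i) : O w hna) : L) = _
    rw [ev_lift w hna hH' (k i • u i) (hk1 i), eval_hom_smul hH₁h, hH₁, map_mul, h0 i hi,
      mul_zero, mul_zero]
    rfl
  have hne' : ∀ i ∈ X, ∀ j ∈ X, i ≠ j → dt (U i) (U j) ≠ 0 := by
    intro i hi j hj hij h1
    have h2 : br (k i • u i) (k j • u j) = 0 := by
      rw [← hdtU, h1]; rfl
    rw [br_smul] at h2
    exact hne i hi j hj hij ((mul_eq_zero.1 h2).resolve_left (mul_ne_zero (hk0 i) (hk0 j)))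
  obtain ⟨r, hr⟩ := prod_dt_dvd X U (fun i _ => uv_coprime w hna _ _) hne' hH'h hzero Up
  have h1 : eval (kp • p) H₁ = (∏ i ∈ X, br (kp • p) (k i • u i)) * (r : L) := by
    rw [← ev_lift w hna hH' (kp • p) hkp1]
    change ((ev H' Up : O w hna) : L) = _
    rw [hr]
    push_cast
    rfl
  have h2 : w (eval (kp • p) H₁) ≤ ∏ i ∈ X, dL w p (u i) := by
    rw [h1, map_mul, map_prod]
    have e1 : w (r : L) ≤ 1 := r.2
    have e2 : ∏ i ∈ X, w (br (kp • p) (k i • u i)) = ∏ i ∈ X, dL w p (u i) := by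
      refine prod_congr rfl fun i _ => ?_
      rw [← dL_smul w hkp0 (hk0 i) p (u i)]
      unfold dL
      rw [hkp1, hk1, mul_one, div_one]
    rw [e2]
    have e3 : 0 ≤ ∏ i ∈ X, dL w p (u i) := by
      apply prod_nonneg
      intro i _
      unfold dL
      have := nm_pos w hp
      have := nm_pos w (hu i)
      have := w.nonneg (br p (u i))
      positivity
    exact mul_le_of_le_one_right e3 e1
  have h2' : eval (kp • p) H₁ = kp ^ n * (c⁻¹ * eval p H) := by
    rw [eval_hom_smul hH₁h, hH₁, map_mul, eval_C]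
  rw [h2', map_mul, map_mul, map_pow, map_inv₀] at h2
  rw [nm_smul] at hkp1
  have hkw : 0 < w kp := w.pos hkp0
  have hnp : 0 < nm w p := nm_pos w hp
  have h3 : (w kp * nm w p) ^ n = 1 := by rw [hkp1, one_pow]
  rw [mul_pow] at h3
  have h4 : w (eval p H) = w c * nm w p ^ n * (w kp ^ n * ((w c)⁻¹ * w (eval p H))) := by
    have : w c * nm w p ^ n * (w kp ^ n * ((w c)⁻¹ * w (eval p H))) =
        (w kp ^ n * nm w p ^ n) * (w c * (w c)⁻¹) * w (eval p H) := by ring
    rw [this, h3, mul_inv_cancel₀ hc0.ne', one_mul, one_mul]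
  rw [h4]
  exact mul_le_mul_of_nonneg_left h2 (by positivity)

include hna in
/-- the distance to a fibre -/
lemma fibre_le {ι : Type*} [DecidableEq ι] {F₁ G₁ : MvPolynomial (Fin 2) L} {d : ℕ}
    (hF₁ : F₁.IsHomogeneous d) (hG₁ : G₁.IsHomogeneous d)
    (hFi : ∀ s, w (F₁.coeff s) ≤ 1) (hGi : ∀ s, w (G₁.coeff s) ≤ 1)
    (hR : ∀ u : Fin 2 → L, nm w u = 1 → nm w (Phi F₁ G₁ u) = 1)
    (X : Finset ι) (u : ι → Fin 2 → L) (hu : ∀ i, u i ≠ 0)
    (hne : ∀ i ∈ X, ∀ j ∈ X, i ≠ j → br (u i) (u j) ≠ 0) {q : Fin 2 → L} (hq : q ≠ 0)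
    (h0 : ∀ i ∈ X, br (Phi F₁ G₁ (u i)) q = 0) {p : Fin 2 → L} (hp : p ≠ 0) :
    dL w (Phi F₁ G₁ p) q ≤ ∏ i ∈ X, dL w p (u i) := by
  set H : MvPolynomial (Fin 2) L := C (q 1) * F₁ - C (q 0) * G₁ with hH
  have hHh : H.IsHomogeneous d := by
    apply MvPolynomial.IsHomogeneous.sub
    · simpa using (MvPolynomial.isHomogeneous_C (Fin 2) (q 1)).mul hF₁
    · simpa using (MvPolynomial.isHomogeneous_C (Fin 2) (q 0)).mul hG₁
  have hev : ∀ v, eval v H = br (Phi F₁ G₁ v) q := by
    intro v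
    rw [hH, map_sub, map_mul, map_mul, eval_C, eval_C]
    unfold br Phi
    simp
    ring
  have hnq : 0 < nm w q := nm_pos w hq
  have hnp : 0 < nm w p := nm_pos w hp
  obtain ⟨c, hc⟩ : ∃ c : L, w c = nm w q := by
    unfold nm
    rcases max_choice (w (q 0)) (w (q 1)) with h | h
    · exact ⟨q 0, h.symm⟩
    · exact ⟨q 1, h.symm⟩
  have hc0 : c ≠ 0 := by
    rintro rfl
    rw [map_zero] at hc
    exact hnq.ne hc
  have hcoef : ∀ s, w (H.coeff s) ≤ w c := by
    intro s
    rw [hc, hH, coeff_sub, coeff_C_mul, coeff_C_mul, sub_eq_add_neg]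
    refine (hna _ _).trans (max_le ?_ ?_)
    · rw [map_mul]
      exact (mul_le_of_le_one_right (w.nonneg _) (hFi s)).trans (le_max_right _ _)
    · rw [AbsoluteValue.map_neg, map_mul]
      exact (mul_le_of_le_one_right (w.nonneg _) (hGi s)).trans (le_max_left _ _)
  have h1 := form_le w hna hHh hc0 hcoef X u hu hne (fun i hi => by rw [hev]; exact h0 i hi) hp
  rw [hev, hc] at h1
  have h2 := nm_Phi hF₁ hG₁ hR hp
  have h3 : dL w (Phi F₁ G₁ p) q = w (br (Phi F₁ G₁ p) q) / (nm w p ^ d * nm w q) := by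
    unfold dL
    rw [h2]
  rw [h3, div_le_iff₀ (by positivity)]
  linarith

include hna in
/-- the determinant of the values of integral forms -/
lemma det_forms_le {e : ℕ} : ∀ (n : ℕ) (g : Fin n → MvPolynomial (Fin 2) L)
    (P : Fin n → Fin 2 → L) (_ : ∀ j, (g j).IsHomogeneous e)
    (_ : ∀ j s, w ((g j).coeff s) ≤ 1) (_ : ∀ i, P i ≠ 0)
    (_ : ∀ i j, i ≠ j → br (P i) (P j) ≠ 0),
    w (Matrix.det (Matrix.of fun i j => eval (P i) (g j))) ≤
      (∏ i, nm w (P i) ^ e) * ∏ i : Fin n, ∏ j ∈ Ioi i, dL w (P i) (P j) := by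
  classical
  intro n
  induction n with
  | zero =>
    intro g P _ _ _ _
    simp
  | succ n ih =>
    intro g P hg hgi hP hne
    set M : Matrix (Fin (n + 1)) (Fin (n + 1)) L := Matrix.of fun i j => eval (P i) (g j) with hM
    set mn : Fin (n + 1) → L := fun j => (M.submatrix Fin.succ j.succAbove).det with hmn
    have hmn1 : ∀ j, w (mn j) ≤ (∏ i : Fin n, nm w (P i.succ) ^ e) *
        ∏ i : Fin n, ∏ j ∈ Ioi i, dL w (P i.succ) (P j.succ) := by
      intro j
      exact ih (fun k => g (j.succAbove k)) (fun i => P i.succ) (fun k => hg _)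
        (fun k => hgi _) (fun i => hP _) (fun i k hik => hne _ _ (fun h => hik
          (Fin.succ_injective n h)))
    have hrhs : (∏ i : Fin (n + 1), nm w (P i) ^ e) * ∏ i : Fin (n + 1), ∏ j ∈ Ioi i,
        dL w (P i) (P j) = ((∏ i : Fin n, nm w (P i.succ) ^ e) *
        ∏ i : Fin n, ∏ j ∈ Ioi i, dL w (P i.succ) (P j.succ)) *
          nm w (P 0) ^ e * ∏ i : Fin n, dL w (P 0) (P i.succ) := by
      rw [Fin.prod_univ_succ, Fin.prod_univ_succ (fun i => ∏ j ∈ Ioi i, dL w (P i) (P j)),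
        Fin.prod_Ioi_zero]
      simp_rw [Fin.prod_Ioi_succ]
      ring
    rw [hrhs]
    obtain ⟨j₀, -, hj₀⟩ := exists_max_image (univ : Finset (Fin (n + 1))) (fun j => w (mn j))
      univ_nonempty
    have hdet : M.det = ∑ j : Fin (n + 1), (-1) ^ (j : ℕ) * M 0 j * mn j := Matrix.det_succ_row_zero M
    have hnn : ∀ i j, i ≠ j → 0 < dL w (P i) (P j) := by
      intro i j hij
      unfold dL
      have := nm_pos w (hP i)
      have := nm_pos w (hP j)
      have := w.pos (hne i j hij)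
      positivity
    by_cases hz : mn j₀ = 0
    · have h1 : M.det = 0 := by
        rw [hdet]
        refine sum_eq_zero fun j _ => ?_
        have h2 := hj₀ j (mem_univ j)
        rw [hz, map_zero] at h2
        have h3 : mn j = 0 := by
          by_contra h4
          exact absurd (w.pos h4) (not_lt.2 h2)
        rw [h3, mul_zero]
      rw [h1, map_zero]
      have h2 : 0 ≤ (∏ i : Fin n, nm w (P i.succ) ^ e) *
          ∏ i : Fin n, ∏ j ∈ Ioi i, dL w (P i.succ) (P j.succ) := (w.nonneg _).trans (hmn1 j₀)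
      have h3 : 0 ≤ ∏ i : Fin n, dL w (P 0) (P i.succ) :=
        prod_nonneg fun i _ => (hnn _ _ (Fin.succ_ne_zero i).symm).le
      have h4 := nm_pos w (hP 0)
      positivity
    set H : MvPolynomial (Fin 2) L := ∑ j : Fin (n + 1), C ((-1) ^ (j : ℕ) * mn j) * g j with hH
    have hHh : H.IsHomogeneous e := by
      apply MvPolynomial.IsHomogeneous.sum
      intro j _
      simpa using (MvPolynomial.isHomogeneous_C (Fin 2) ((-1) ^ (j : ℕ) * mn j)).mul (hg j)
    have hHi : ∀ s, w (H.coeff s) ≤ w (mn j₀) := by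
      intro s
      rw [hH, coeff_sum]
      refine sum_le w hna _ _ (w.nonneg _) fun j _ => ?_
      rw [coeff_C_mul, map_mul, map_mul, map_pow, AbsoluteValue.map_neg, map_one, one_pow,
        one_mul]
      exact (mul_le_of_le_one_right (w.nonneg _) (hgi j s)).trans (hj₀ j (mem_univ j))
    have hHev : ∀ i, eval (P i) H = ∑ j : Fin (n + 1), (-1) ^ (j : ℕ) * M i j * mn j := by
      intro i
      rw [hH, map_sum]
      refine sum_congr rfl fun j _ => ?_
      rw [map_mul, eval_C, hM, Matrix.of_apply]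
      ring
    have hH0 : ∀ i : Fin n, eval (P i.succ) H = 0 := by
      intro i
      rw [hHev]
      have h1 : (M.updateRow 0 (M i.succ)).det = 0 :=
        Matrix.det_zero_of_row_eq (Fin.succ_ne_zero i).symm (by
          rw [Matrix.updateRow_self, Matrix.updateRow_ne (Fin.succ_ne_zero i)])
      rw [Matrix.det_succ_row_zero] at h1
      rw [← h1]
      refine sum_congr rfl fun j _ => ?_
      rw [Matrix.updateRow_self]
      congr 2
    have h1 := form_le w hna hHh hz hHi (univ : Finset (Fin n)) (fun i => P i.succ)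
      (fun i => hP _) (fun i _ k _ hik => hne _ _ (fun h => hik (Fin.succ_injective n h)))
      (fun i _ => hH0 i) (hP 0)
    rw [hHev, ← hdet] at h1
    refine h1.trans ?_
    have h3 : 0 ≤ ∏ i : Fin n, dL w (P 0) (P i.succ) :=
      prod_nonneg fun i _ => (hnn _ _ (Fin.succ_ne_zero i).symm).le
    have h4 := nm_pos w (hP 0)
    exact mul_le_mul_of_nonneg_right (mul_le_mul_of_nonneg_right (hmn1 j₀) (by positivity)) h3

end L

/-- what is needed at a place of potentially good reduction -/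
structure GoodD {K : Type} [Field K] (a : AbsoluteValue K ℝ) (F G : MvPolynomial (Fin 2) K)
    (d : ℕ) (l : (Fin 2 → K) → ℝ) : Prop where
  smul : ∀ (c : K) (v : Fin 2 → K), c ≠ 0 → v ≠ 0 → l (c • v) = Real.log (a c) + l v
  nonneg : ∀ u v : Fin 2 → K, u ≠ 0 → v ≠ 0 → RM.br u v ≠ 0 → 0 ≤ lE a l u v
  fibre : ∀ (X : Finset (PP K)) (p q : Fin 2 → K), p ≠ 0 → q ≠ 0 →
    (∀ x ∈ X, RM.br (Phi F G x.rep) q = 0) → RM.br (Phi F G p) q ≠ 0 →
    ∑ x ∈ X, lE a l p x.rep ≤ lE a l (Phi F G p) q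
  det : ∀ (J : ℕ) (x : Fin ((J + 1) * 2) → Fin 2 → K), (∀ i, x i ≠ 0) →
    (∀ i j, i ≠ j → RM.br (x i) (x j) ≠ 0) →
    (TM J 2 (fun a => x (finProdFinEquiv a)) (fun a => Phi F G (x (finProdFinEquiv a)))).det ≠ 0 →
    Real.log (a (TM J 2 (fun a => x (finProdFinEquiv a))
      (fun a => Phi F G (x (finProdFinEquiv a)))).det) ≤
      J * ∑ i, l (x i) + ∑ i, l (Phi F G (x i)) - ∑ i, ∑ j ∈ Ioi i, lE a l (x i) (x j)

lemma br_rep_ne_aux {K : Type} [Field K] {x y : PP K} (h : x ≠ y) : RM.br x.rep y.rep ≠ 0 := by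
  intro h0
  apply h
  have := (br_zero_iff x.rep_nonzero y.rep_nonzero).1 h0
  rwa [x.mk_rep, y.mk_rep] at this

lemma TM_smul_right {L : Type*} [Field L] (J : ℕ) (c : L) (u v : Rho J → Fin 2 → L) :
    (TM J 2 u (fun a => c • v a)).det = c ^ ((J + 1) * 2) * (TM J 2 u v).det := by
  have h1 : TM J 2 u (fun a => c • v a) = c • TM J 2 u v := by
    ext a b
    obtain ⟨b1, b2⟩ := b
    unfold TM
    simp only [Matrix.of_apply, Pi.smul_apply, smul_eq_mul, Matrix.smul_apply, mul_pow]
    fin_cases b2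
    · simp
      ring
    · simp
      ring
  rw [h1, Matrix.det_smul, Fintype.card_prod, Fintype.card_fin, Fintype.card_fin]

lemma ex_two' (J : ℕ) : (ex J 2 : ℝ) = ((J : ℝ) + 1) * (J + 1) := by
  have h := RM.ex_two J 2
  push_cast at h
  linarith

lemma exists_goodD {K : Type} [Field K] [CharZero K] {a : AbsoluteValue K ℝ}
    {F G : MvPolynomial (Fin 2) K} {d : ℕ} (hp : PotGood a F G d) :
    ∃ l : (Fin 2 → K) → ℝ, GoodD a F G d l := by
  classical
  obtain ⟨L, _, _, w, A, c, F₁, G₁, hna, hw, hA, hc, hF₁, hG₁, hFi, hGi, hR, hconj⟩ := hp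
  set φ : K →+* L := algebraMap K L with hφ
  have hch : CharZero L := charZero_of_injective_algebraMap (algebraMap K L).injective
  have hA0 : 0 < w A.det := w.pos hA
  have hc0 : 0 < w c := w.pos hc
  have hAΦ : ∀ v : Fin 2 → K, A.mulVec (im φ (Phi F G v)) = c • Phi F₁ G₁ (A.mulVec (im φ v)) := by
    intro v
    rw [← Phi_im]
    exact hconj _
  have hAne : ∀ v : Fin 2 → K, v ≠ 0 → A.mulVec (im φ v) ≠ 0 := fun v hv =>
    mulVec_ne_zero hA (im_ne_zero φ hv)
  have hbr : ∀ u v : Fin 2 → K, br (A.mulVec (im φ u)) (A.mulVec (im φ v)) =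
      A.det * φ (RM.br u v) := by
    intro u v
    rw [← RM.br_im]
    exact br_mulVec A _ _
  have hΦne : ∀ v : Fin 2 → K, v ≠ 0 → Phi F G v ≠ 0 := by
    intro v hv h0
    have h1 := hAΦ v
    have h2 : im φ (Phi F G v) = 0 := by
      rw [h0]; ext i; simp [im]
    rw [h2, Matrix.mulVec_zero] at h1
    have h3 := nm_Phi hF₁ hG₁ hR (hAne v hv)
    have h4 : Phi F₁ G₁ (A.mulVec (im φ v)) = 0 := by
      rcases smul_eq_zero.1 h1.symm with h5 | h5
      · exact absurd h5 hc
      · exact h5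
    rw [h4] at h3
    have h5 : nm w (0 : Fin 2 → L) = 0 := by unfold nm; simp
    rw [h5] at h3
    have h6 := pow_pos (nm_pos w (hAne v hv)) d
    linarith
  refine ⟨lN φ w A (nm w), ?_, ?_, ?_, ?_⟩
  · intro b v hb hv
    rw [lN_smul φ (nm_smul w) b hb v (nm_mulVec_pos φ hA hv), hw]
  · intro u v hu hv h
    exact lE_nonneg φ hna hw hA hu hv h
  · intro X p q hp hq h0 h1
    have hpq : ∀ x ∈ X, RM.br p x.rep ≠ 0 := by
      intro x hx h2
      apply h1
      -- `p` is proportional to `x.rep`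
      obtain ⟨t, ht⟩ : ∃ t : K, p = t • x.rep := by
        have h3 := (br_zero_iff hp x.rep_nonzero).1 h2
        rw [Projectivization.mk_eq_mk_iff'] at h3
        obtain ⟨t, ht⟩ := h3
        exact ⟨t, ht.symm⟩
      have h4 : A.mulVec (im φ p) = φ t • A.mulVec (im φ x.rep) := by
        rw [ht, im_smul, Matrix.mulVec_smul]
      have h5 : A.mulVec (im φ (Phi F G p)) = φ t ^ d • A.mulVec (im φ (Phi F G x.rep)) := by
        rw [hAΦ, hAΦ, h4, phi_smul hF₁ hG₁, smul_comm]
      have h6 := hbr (Phi F G p) q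
      have h7 := hbr (Phi F G x.rep) q
      rw [h0 x hx, map_zero, mul_zero] at h7
      have h8 : br (A.mulVec (im φ (Phi F G p))) (A.mulVec (im φ q)) = 0 := by
        rw [h5]
        have := br_smul (φ t ^ d) 1 (A.mulVec (im φ (Phi F G x.rep))) (A.mulVec (im φ q))
        rw [one_smul] at this
        rw [this, h7, mul_zero]
      rw [h8] at h6
      exact (map_eq_zero φ).1 ((mul_eq_zero.1 h6.symm).resolve_left hA)
    have h2 := fibre_le w hna hF₁ hG₁ hFi hGi hR X (fun x : PP K => A.mulVec (im φ x.rep))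
      (fun x => hAne _ x.rep_nonzero) (by
        intro x _ y _ hxy h3
        rw [hbr] at h3
        have h4 := (map_eq_zero φ).1 ((mul_eq_zero.1 h3).resolve_left hA)
        exact br_rep_ne_aux hxy h4) (hAne q hq) (by
        intro x hx
        have h3 := hbr (Phi F G x.rep) q
        rw [h0 x hx, map_zero, mul_zero, hAΦ] at h3
        have h4 := br_smul c 1 (Phi F₁ G₁ (A.mulVec (im φ x.rep))) (A.mulVec (im φ q))
        rw [one_smul, h3] at h4
        exact (mul_eq_zero.1 h4.symm).resolve_left (mul_ne_zero hc one_ne_zero)) (hAne p hp)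
    have h3 : dL w (A.mulVec (im φ (Phi F G p))) (A.mulVec (im φ q)) =
        dL w (Phi F₁ G₁ (A.mulVec (im φ p))) (A.mulVec (im φ q)) := by
      rw [hAΦ]
      have := dL_smul w hc (one_ne_zero : (1 : L) ≠ 0) (Phi F₁ G₁ (A.mulVec (im φ p)))
        (A.mulVec (im φ q))
      rwa [one_smul] at this
    rw [← h3] at h2
    have h4 := Real.log_le_log (dL_pos' φ hA (hΦne p hp) hq h1) h2
    rw [lE_eq_dL φ hw hA (hΦne p hp) hq h1, Real.log_prod (fun x hx =>
      (dL_pos' φ hA hp x.rep_nonzero (hpq x hx)).ne')] at h4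
    have h5 : ∑ x ∈ X, Real.log (dL w (A.mulVec (im φ p)) (A.mulVec (im φ x.rep))) =
        -∑ x ∈ X, lE a (lN φ w A (nm w)) p x.rep := by
      rw [← sum_neg_distrib]
      exact sum_congr rfl fun x hx => lE_eq_dL φ hw hA hp x.rep_nonzero (hpq x hx)
    rw [h5] at h4
    linarith
  · intro J x hx hxne hD
    set u : Fin ((J + 1) * 2) → Fin 2 → L := fun i => A.mulVec (im φ (x i)) with hu
    -- the determinant in the good coordinates
    have e1 := det_TM_mulVec A J 2 (fun a => im φ (x (finProdFinEquiv a)))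
      (fun a => im φ (Phi F G (x (finProdFinEquiv a))))
    rw [TM_im] at e1
    have e2 : (fun a : Rho J => A.mulVec (im φ (Phi F G (x (finProdFinEquiv a))))) =
        (fun a => c • Phi F₁ G₁ (u (finProdFinEquiv a))) := by
      funext a
      exact hAΦ _
    rw [e2, TM_smul_right J c (fun a => A.mulVec (im φ (x (finProdFinEquiv a))))
      (fun a => Phi F₁ G₁ (u (finProdFinEquiv a)))] at e1
    -- the forms
    set g : Fin ((J + 1) * 2) → MvPolynomial (Fin 2) L := fun j =>
      X 0 ^ ((finProdFinEquiv.symm j).1 : ℕ) * X 1 ^ ((finProdFinEquiv.symm j).1.rev : ℕ) *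
        (F₁ ^ ((finProdFinEquiv.symm j).2 : ℕ) * G₁ ^ ((finProdFinEquiv.symm j).2.rev : ℕ)) with hg
    have hgh : ∀ j, (g j).IsHomogeneous (J + d) := by
      intro j
      have h1 := ((MvPolynomial.isHomogeneous_X_pow (R := L) (0 : Fin 2)
        ((finProdFinEquiv.symm j).1 : ℕ)).mul (MvPolynomial.isHomogeneous_X_pow (R := L)
        (1 : Fin 2) ((finProdFinEquiv.symm j).1.rev : ℕ))).mul
        ((hF₁.pow ((finProdFinEquiv.symm j).2 : ℕ)).mul
          (hG₁.pow ((finProdFinEquiv.symm j).2.rev : ℕ)))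
      have h2 := fin_rev_add (finProdFinEquiv.symm j).1
      have h3 := fin_rev_add (finProdFinEquiv.symm j).2
      have h4 : ((finProdFinEquiv.symm j).1 : ℕ) + ((finProdFinEquiv.symm j).1.rev : ℕ) +
          (d * ((finProdFinEquiv.symm j).2 : ℕ) + d * ((finProdFinEquiv.symm j).2.rev : ℕ)) =
          J + d := by
        rw [← mul_add, show ((finProdFinEquiv.symm j).2 : ℕ) +
          ((finProdFinEquiv.symm j).2.rev : ℕ) = 1 by omega, mul_one]
        omega
      rw [h4] at h1
      exact h1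
    have hgi : ∀ j s, w ((g j).coeff s) ≤ 1 := by
      intro j s
      obtain ⟨F', hF'⟩ := exists_lift w hna hFi
      obtain ⟨G', hG'⟩ := exists_lift w hna hGi
      have h2 : g j = (X 0 ^ ((finProdFinEquiv.symm j).1 : ℕ) *
          X 1 ^ ((finProdFinEquiv.symm j).1.rev : ℕ) *
          (F' ^ ((finProdFinEquiv.symm j).2 : ℕ) *
            G' ^ ((finProdFinEquiv.symm j).2.rev : ℕ))).map (O w hna).subtype := by
        rw [hg]
        simp only [map_mul, map_pow, hF', hG', map_X]
      rw [h2, coeff_map]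
      exact (mem_O w hna).1 (Subtype.property _)
    have hune : ∀ i, u i ≠ 0 := fun i => hAne _ (hx i)
    have hubr : ∀ i j, i ≠ j → br (u i) (u j) ≠ 0 := by
      intro i j hij
      rw [hbr]
      exact mul_ne_zero hA ((map_ne_zero φ).2 (hxne i j hij))
    have h1 := det_forms_le w hna ((J + 1) * 2) g u hgh hgi hune hubr
    have e3 : (TM J 2 (fun a => A.mulVec (im φ (x (finProdFinEquiv a))))
        (fun a => Phi F₁ G₁ (u (finProdFinEquiv a)))).det =
        Matrix.det (Matrix.of fun i j => eval (u i) (g j)) := by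
      rw [← Matrix.det_submatrix_equiv_self finProdFinEquiv.symm
        (TM J 2 (fun a => A.mulVec (im φ (x (finProdFinEquiv a))))
        (fun a => Phi F₁ G₁ (u (finProdFinEquiv a))))]
      congr 1
      ext i j
      rw [Matrix.submatrix_apply, Matrix.of_apply, hg]
      unfold TM
      simp only [Matrix.of_apply, Equiv.apply_symm_apply, map_mul, map_pow, eval_X]
      rfl
    rw [e3] at e1
    have h2 := congrArg w e1
    rw [map_mul, map_mul, map_pow, map_pow, hw] at h2
    have hD0 : 0 < a (TM J 2 (fun a => x (finProdFinEquiv a))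
      (fun a => Phi F G (x (finProdFinEquiv a)))).det := a.pos hD
    obtain ⟨D, hDd⟩ : ∃ D, D = a (TM J 2 (fun a => x (finProdFinEquiv a))
      (fun a => Phi F G (x (finProdFinEquiv a)))).det := ⟨_, rfl⟩
    rw [← hDd] at h2 hD0 ⊢
    have h3 : w A.det ^ ex J 2 * D ≤ w c ^ ((J + 1) * 2) *
        ((∏ i, nm w (u i) ^ (J + d)) *
          ∏ i : Fin ((J + 1) * 2), ∏ j ∈ Ioi i, dL w (u i) (u j)) := by
      rw [← h2]
      exact mul_le_mul_of_nonneg_left h1 (by positivity)
    have hnpos : ∀ i, 0 < nm w (u i) := fun i => nm_pos w (hune i)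
    have hdpos : ∀ i, ∀ j ∈ Ioi i, 0 < dL w (u i) (u j) := by
      intro i j hj
      exact dL_pos' φ hA (hx i) (hx j) (hxne i j (ne_of_lt (mem_Ioi.1 hj)))
    have hp1 : 0 < ∏ i, nm w (u i) ^ (J + d) := prod_pos fun i _ => pow_pos (hnpos i) _
    have hp2 : 0 < ∏ i : Fin ((J + 1) * 2), ∏ j ∈ Ioi i, dL w (u i) (u j) :=
      prod_pos fun i _ => prod_pos fun j hj => hdpos i j hj
    have h4 := Real.log_le_log (by positivity) h3
    rw [Real.log_mul (by positivity) hD0.ne', Real.log_pow, Real.log_mul (by positivity)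
      (mul_pos hp1 hp2).ne', Real.log_mul hp1.ne' hp2.ne', Real.log_pow,
      Real.log_prod (fun i _ => (pow_pos (hnpos i) _).ne'),
      Real.log_prod (fun i _ => (prod_pos fun j hj => hdpos i j hj).ne')] at h4
    have h5 : ∀ i ∈ (univ : Finset (Fin ((J + 1) * 2))),
        Real.log (∏ j ∈ Ioi i, dL w (u i) (u j)) =
        -∑ j ∈ Ioi i, lE a (lN φ w A (nm w)) (x i) (x j) := by
      intro i _
      rw [Real.log_prod (fun j hj => (hdpos i j hj).ne'), ← sum_neg_distrib]
      exact sum_congr rfl fun j hj =>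
        lE_eq_dL φ hw hA (hx i) (hx j) (hxne i j (ne_of_lt (mem_Ioi.1 hj)))
    rw [sum_congr rfl h5, sum_neg_distrib] at h4
    have h6 : ∀ i ∈ (univ : Finset (Fin ((J + 1) * 2))), Real.log (nm w (u i) ^ (J + d)) =
        (J * lN φ w A (nm w) (x i) + lN φ w A (nm w) (Phi F G (x i))) - Real.log (w c) +
          ((J : ℝ) + 1) / 2 * Real.log (w A.det) := by
      intro i _
      rw [Real.log_pow]
      unfold lN
      rw [hAΦ, nm_smul, nm_Phi hF₁ hG₁ hR (hune i), Real.log_mul hc0.ne'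
        (pow_pos (hnpos i) d).ne', Real.log_pow]
      push_cast
      ring
    rw [sum_congr rfl h6, sum_add_distrib, sum_sub_distrib, sum_add_distrib, ← mul_sum,
      sum_const, sum_const, card_univ, Fintype.card_fin, nsmul_eq_mul, nsmul_eq_mul,
      ex_two'] at h4
    push_cast at h4
    have h7 : ((J : ℝ) + 1) * 2 * ((J + 1) / 2 * Real.log (w A.det)) =
        (J + 1) * (J + 1) * Real.log (w A.det) := by ring
    rw [h7] at h4
    linarith

end Pool.Agent.T6.H83.SH
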