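import Pool.Agent.T6.H83.SH.Abs1
import Pool.Agent.T6.H83.FO.Ker

/-!
# Lower bounds for the forms of the kernels
-/

set_option autoImplicit false
set_option linter.unusedSectionVars false
set_option linter.unusedVariables false

namespace Pool.Agent.T6.H83.SH

open Finset
open Pool.Agent.T6.H83.RM

variable {α : Type} [DecidableEq α]

/-- upper bounds for a similarity with a small sum -/
lemma exists_m (E : α → α → ℝ) (h : α → ℝ) (c : α → α → Prop) (hs : ∀ x y, E x y = E y x) :
    ∀ (n : ℕ) (Z : Finset α), Z.card = n →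
    (∀ x ∈ Z, ∀ y ∈ Z, x ≠ y → 0 ≤ E x y ∧ E x y ≤ h x + h y) →
    (∀ y ∈ Z, ∀ x ∈ Z, ∀ x' ∈ Z, x ≠ y → x' ≠ y → x ≠ x' → (c y x ↔ c y x') →
      min (E x y) (E x' y) ≤ E x x') →
    ∃ m : α → ℝ, (∀ x ∈ Z, 0 ≤ m x) ∧ (∀ x ∈ Z, ∀ y ∈ Z, x ≠ y → E x y ≤ m x) ∧
      ∑ x ∈ Z, m x ≤ 6 * HH h Z := by
  classical
  intro n
  induction n with
  | zero =>
    intro Z hZ _ _
    have hZ0 : Z = ∅ := card_eq_zero.1 hZ
    subst hZ0
    exact ⟨fun _ => 0, by simp, by simp, by simp [HH]⟩
  | succ n ih =>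
    intro Z hZ hE hc
    obtain ⟨y, hy, hmax⟩ := exists_max_image Z h (card_pos.1 (by omega))
    obtain ⟨m', h1, h2, h3⟩ := ih (Z.erase y) (by rw [card_erase_of_mem hy]; omega)
      (fun x hx x' hx' => hE x (mem_of_mem_erase hx) x' (mem_of_mem_erase hx'))
      (fun z hz x hx x' hx' => hc z (mem_of_mem_erase hz) x (mem_of_mem_erase hx) x'
        (mem_of_mem_erase hx'))
    obtain ⟨H, hH⟩ : ∃ H, H = max (h y) 0 := ⟨_, rfl⟩
    have hH0 : 0 ≤ H := hH ▸ le_max_right _ _
    have hHy : h y ≤ H := hH ▸ le_max_left _ _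
    have hEy : ∀ x ∈ Z, x ≠ y → E x y ≤ 2 * H := by
      intro x hx hxy
      have e1 := (hE x hx y hy hxy).2
      have e2 := hmax x hx
      linarith
    refine ⟨fun x => if x = y then 2 * H else max (m' x) (E x y), ?_, ?_, ?_⟩
    · intro x hx
      show 0 ≤ if x = y then 2 * H else max (m' x) (E x y)
      by_cases hxy : x = y
      · rw [if_pos hxy]; positivity
      · rw [if_neg hxy]
        exact (h1 x (mem_erase.2 ⟨hxy, hx⟩)).trans (le_max_left _ _)
    · intro x hx x' hx' hxx'
      show E x x' ≤ if x = y then 2 * H else max (m' x) (E x y)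
      by_cases hxy : x = y
      · rw [if_pos hxy]
        rw [hs]
        rw [hxy] at hxx' ⊢
        exact hEy x' hx' (Ne.symm hxx')
      · rw [if_neg hxy]
        by_cases hxy' : x' = y
        · rw [hxy']; exact le_max_right _ _
        · exact (h2 x (mem_erase.2 ⟨hxy, hx⟩) x' (mem_erase.2 ⟨hxy', hx'⟩) hxx').trans
            (le_max_left _ _)
    · rw [← add_sum_erase Z _ hy, if_pos rfl]
      have e1 : ∑ x ∈ Z.erase y, (if x = y then 2 * H else max (m' x) (E x y)) =
          ∑ x ∈ Z.erase y, (m' x + (max (m' x) (E x y) - m' x)) := by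
        refine sum_congr rfl fun x hx => ?_
        rw [if_neg (ne_of_mem_erase hx)]
        ring
      rw [e1, sum_add_distrib]
      set Bd := (Z.erase y).filter (fun x => m' x < E x y) with hBd
      have e2 : ∑ x ∈ Z.erase y, (max (m' x) (E x y) - m' x) =
          ∑ x ∈ Bd, (max (m' x) (E x y) - m' x) := by
        rw [hBd, sum_filter]
        refine sum_congr rfl fun x hx => ?_
        by_cases hlt : m' x < E x y
        · rw [if_pos hlt]
        · rw [if_neg hlt, max_eq_left (not_lt.1 hlt), sub_self]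
      have hone : ∀ T ⊆ Bd, (∀ x ∈ T, ∀ x' ∈ T, (c y x ↔ c y x')) → T.card ≤ 1 := by
        intro T hT hq
        rw [card_le_one]
        intro x hxT x' hxT'
        have hx := hT hxT
        have hx' := hT hxT'
        rw [hBd, mem_filter] at hx hx'
        by_contra hne
        have hxZ := mem_of_mem_erase hx.1
        have hxZ' := mem_of_mem_erase hx'.1
        have g1 := hc y hy x hxZ x' hxZ' (ne_of_mem_erase hx.1) (ne_of_mem_erase hx'.1) hne
          (hq x hxT x' hxT')
        have g2 := h2 x hx.1 x' hx'.1 hne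
        have g3 := h2 x' hx'.1 x hx.1 (Ne.symm hne)
        rw [hs] at g3
        have g4 := hx.2
        have g5 := hx'.2
        rcases min_le_iff.1 g1 with g6 | g6
        · linarith
        · linarith
      have e3 : Bd.card ≤ 2 := by
        have g1 := card_filter_add_card_filter_not (s := Bd) (fun x => c y x)
        have g2 := hone (Bd.filter (fun x => c y x)) (filter_subset _ _)
          (fun x hx x' hx' => ⟨fun _ => (mem_filter.1 hx').2, fun _ => (mem_filter.1 hx).2⟩)
        have g3 := hone (Bd.filter (fun x => ¬ c y x)) (filter_subset _ _)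
          (fun x hx x' hx' => ⟨fun h => absurd h (mem_filter.1 hx).2,
            fun h => absurd h (mem_filter.1 hx').2⟩)
        omega
      have e4 : ∑ x ∈ Bd, (max (m' x) (E x y) - m' x) ≤ Bd.card • (2 * H) := by
        apply sum_le_card_nsmul
        intro x hx
        rw [hBd, mem_filter] at hx
        have g1 := h1 x hx.1
        have g2 := hEy x (mem_of_mem_erase hx.1) (ne_of_mem_erase hx.1)
        rw [max_eq_right hx.2.le]
        linarith
      rw [nsmul_eq_mul] at e4
      have e5 : (Bd.card : ℝ) * (2 * H) ≤ 2 * (2 * H) := by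
        apply mul_le_mul_of_nonneg_right _ (by positivity)
        exact_mod_cast e3
      have e6 : HH h Z = H + HH h (Z.erase y) := by
        unfold HH
        rw [← add_sum_erase Z _ hy, ← hH]
      rw [e2, e6]
      linarith

/-- the weights of two disjoint sets -/
noncomputable def lamPQ (P Q : Finset α) (x : α) : ℝ := if x ∈ P then (Q.card : ℝ) else -P.card

lemma fm_quad (E : α → α → ℝ) (hs : ∀ x y, E x y = E y x) {P Q : Finset α} (hd : Disjoint P Q) :
    fm E P Q = ∑ x ∈ P ∪ Q, ∑ y ∈ (P ∪ Q).erase x, lamPQ P Q x * lamPQ P Q y * E x y := by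
  have hP : ∀ x ∈ P, lamPQ P Q x = Q.card := fun x hx => if_pos hx
  have hQ : ∀ x ∈ Q, lamPQ P Q x = -P.card := fun x hx =>
    if_neg fun h => disjoint_left.1 hd h hx
  rw [sum_union hd]
  have h1 : ∑ x ∈ P, ∑ y ∈ (P ∪ Q).erase x, lamPQ P Q x * lamPQ P Q y * E x y =
      (Q.card : ℝ) ^ 2 * en E P - P.card * Q.card * cr E P Q := by
    unfold en cr
    rw [mul_sum, mul_sum, ← sum_sub_distrib]
    refine sum_congr rfl fun x hx => ?_
    have hxQ : x ∉ Q := fun h => disjoint_left.1 hd hx h
    rw [erase_union_distrib, erase_eq_of_notMem hxQ,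
      sum_union (disjoint_of_subset_left (erase_subset _ _) hd), mul_sum, mul_sum, hP x hx,
      sub_eq_add_neg, ← sum_neg_distrib]
    congr 1
    · refine sum_congr rfl fun y hy => ?_
      rw [hP y (mem_of_mem_erase hy)]
      ring
    · refine sum_congr rfl fun y hy => ?_
      rw [hQ y hy]
      ring
  have h2 : ∑ x ∈ Q, ∑ y ∈ (P ∪ Q).erase x, lamPQ P Q x * lamPQ P Q y * E x y =
      (P.card : ℝ) ^ 2 * en E Q - P.card * Q.card * cr E Q P := by
    unfold en cr
    rw [mul_sum, mul_sum, ← sum_sub_distrib]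
    refine sum_congr rfl fun x hx => ?_
    have hxP : x ∉ P := fun h => disjoint_left.1 hd h hx
    rw [erase_union_distrib, erase_eq_of_notMem hxP,
      sum_union (disjoint_of_subset_right (erase_subset _ _) hd), mul_sum, mul_sum, hQ x hx,
      sub_eq_add_neg, ← sum_neg_distrib, add_comm]
    congr 1
    · refine sum_congr rfl fun y hy => ?_
      rw [hQ y (mem_of_mem_erase hy)]
      ring
    · refine sum_congr rfl fun y hy => ?_
      rw [hP y hy]
      ring
  rw [h1, h2, cr_comm E hs Q P]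
  unfold fm
  ring

lemma lamPQ_le {P Q : Finset α} (x : α) : |lamPQ P Q x| ≤ (P.card : ℝ) + Q.card := by
  have p0 : (0 : ℝ) ≤ P.card := Nat.cast_nonneg _
  have q0 : (0 : ℝ) ≤ Q.card := Nat.cast_nonneg _
  unfold lamPQ
  split_ifs
  · rw [abs_of_nonneg q0]; linarith
  · rw [abs_neg, abs_of_nonneg p0]; linarith

/-- the form of an ultrametric similarity -/
lemma ker_ultra (E : α → α → ℝ) (h : α → ℝ) (hs : ∀ x y, E x y = E y x) (Z : Finset α)
    (hE : ∀ x ∈ Z, ∀ y ∈ Z, x ≠ y → 0 ≤ E x y ∧ E x y ≤ h x + h y)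
    (hu : ∀ x ∈ Z, ∀ y ∈ Z, ∀ z ∈ Z, x ≠ y → y ≠ z → x ≠ z → min (E x y) (E y z) ≤ E x z)
    (lam : α → ℝ) {L : ℝ} (hL : ∀ x ∈ Z, |lam x| ≤ L) :
    -(L ^ 2 * (6 * HH h Z)) ≤ ∑ x ∈ Z, ∑ y ∈ Z.erase x, lam x * lam y * E x y := by
  obtain ⟨m, hm0, hm, hms⟩ := exists_m E h (fun _ _ => True) hs _ Z rfl hE (by
    intro y hy x hx x' hx' hxy hxy' hxx' _
    rw [hs x' y]
    exact hu x hx y hy x' hx' hxy (Ne.symm hxy') hxx')
  have h1 := Pool.Agent.T6.H83.FO.ultra_psd lam _ Z le_rfl (fun x y => if x = y then m x else E x y)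
    (by
      intro x hx y hy
      by_cases hxy : x = y
      · simp only [hxy, if_true]
        exact hm0 y hy
      · simp only [hxy, if_false]
        exact (hE x hx y hy hxy).1)
    (by
      intro x y
      by_cases hxy : x = y
      · simp [hxy]
      · simp [hxy, Ne.symm hxy, hs x y])
    (by
      intro x hx y hy z hz
      by_cases h1 : x = y
      · subst h1
        simp
      by_cases h2 : y = z
      · subst h2
        simp [h1]
      by_cases h3 : x = z
      · subst h3
        simp only [h1, if_false, if_true]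
        exact (min_le_left _ _).trans (hm x hx y hy h1)
      · simp only [h1, h2, h3, if_false]
        exact hu x hx y hy z hz h1 h2 h3)
  have h2 : ∑ x ∈ Z, ∑ y ∈ Z, lam x * lam y * (if x = y then m x else E x y) =
      ∑ x ∈ Z, lam x ^ 2 * m x + ∑ x ∈ Z, ∑ y ∈ Z.erase x, lam x * lam y * E x y := by
    rw [← sum_add_distrib]
    refine sum_congr rfl fun x hx => ?_
    rw [← add_sum_erase Z _ hx, if_pos rfl]
    congr 1
    · ring
    · refine sum_congr rfl fun y hy => ?_
      rw [if_neg (Ne.symm (ne_of_mem_erase hy))]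
  rw [h2] at h1
  have h3 : ∑ x ∈ Z, lam x ^ 2 * m x ≤ ∑ x ∈ Z, L ^ 2 * m x := by
    refine sum_le_sum fun x hx => mul_le_mul_of_nonneg_right ?_ (hm0 x hx)
    rw [← sq_abs]
    exact pow_le_pow_left₀ (abs_nonneg _) (hL x hx) 2
  rw [← mul_sum] at h3
  have h4 := mul_le_mul_of_nonneg_left hms (sq_nonneg L)
  linarith

end Pool.Agent.T6.H83.SH
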