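import Pool.Agent.T6.H83.SH.Glob2

/-!
# From determinants to a form vanishing at the points
-/

set_option autoImplicit false
set_option linter.unusedSectionVars false
set_option linter.unusedVariables false

namespace Pool.Agent.T6.H83.SH

open Finset
open Pool.Agent.T6.H83.RM (deh deh_eval deh_coeff deh_natDegree_le deh_coprime lin_indep'
  eval_ne_of_noZero fin_rev_add)
open Pool.Agent.H892.PGR (nm Phi phi_smul)
open Pool.Agent.H892.PGK (PP fX)
open Pool.Agent.TH856.PG (NoZero phi_ne_zero wv wv_ne_zero dt_wv_ne ev ev_wv card_zeros_le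
  coprime_of_ne_zero)

/-- the form with the coefficients `v` -/
noncomputable def Psi (F G : MvPolynomial (Fin 2) ℚ) (J : ℕ) (v : Rho J → ℚ) :
    MvPolynomial (Fin 2) ℚ :=
  ∑ c : Rho J, MvPolynomial.C (v c) * (MvPolynomial.X 0 ^ (c.1 : ℕ) *
    MvPolynomial.X 1 ^ (c.1.rev : ℕ) * (F ^ (c.2 : ℕ) * G ^ (c.2.rev : ℕ)))

lemma Psi_hom {F G : MvPolynomial (Fin 2) ℚ} {d J : ℕ} (hF : F.IsHomogeneous d)
    (hG : G.IsHomogeneous d) (v : Rho J → ℚ) : (Psi F G J v).IsHomogeneous (J + d) := by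
  apply MvPolynomial.IsHomogeneous.sum
  intro c _
  have h1 := ((MvPolynomial.isHomogeneous_X_pow (R := ℚ) (0 : Fin 2) (c.1 : ℕ)).mul
    (MvPolynomial.isHomogeneous_X_pow (R := ℚ) (1 : Fin 2) (c.1.rev : ℕ))).mul
    ((hF.pow (c.2 : ℕ)).mul (hG.pow (c.2.rev : ℕ)))
  have h2 := fin_rev_add c.1
  have h3 := fin_rev_add c.2
  have h4 : (c.1 : ℕ) + (c.1.rev : ℕ) + (d * (c.2 : ℕ) + d * (c.2.rev : ℕ)) = J + d := by
    rw [← mul_add, show (c.2 : ℕ) + (c.2.rev : ℕ) = 1 by omega, mul_one]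
    omega
  rw [h4] at h1
  simpa using (MvPolynomial.isHomogeneous_C (Fin 2) (v c)).mul h1

lemma Psi_eval (F G : MvPolynomial (Fin 2) ℚ) (J : ℕ) (v : Rho J → ℚ) (z : Fin 2 → ℚ) :
    MvPolynomial.eval z (Psi F G J v) = ∑ c : Rho J, v c * (z 0 ^ (c.1 : ℕ) *
      z 1 ^ (c.1.rev : ℕ) * (MvPolynomial.eval z F ^ (c.2 : ℕ) *
        MvPolynomial.eval z G ^ (c.2.rev : ℕ))) := by
  unfold Psi
  rw [map_sum]
  refine sum_congr rfl fun c _ => ?_
  simp only [map_mul, map_pow, MvPolynomial.eval_C, MvPolynomial.eval_X]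

lemma Psi_ne_zero {F G : MvPolynomial (Fin 2) ℚ} {d J : ℕ} (hJd : J + 1 ≤ d)
    (hF : F.IsHomogeneous d) (hG : G.IsHomogeneous d) (h0 : NoZero F G) {v : Rho J → ℚ}
    (hv : v ≠ 0) : Psi F G J v ≠ 0 := by
  intro hΨ
  apply hv
  set P : ℕ → Polynomial ℚ := fun s => if h : s < 2 then
    ∑ j : Fin (J + 1), Polynomial.C (v (j, ⟨s, h⟩)) * Polynomial.X ^ (j : ℕ) else 0 with hP
  have hP0 : P 0 = ∑ j : Fin (J + 1), Polynomial.C (v (j, 0)) * Polynomial.X ^ (j : ℕ) := by
    rw [hP]
    simp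
  have hP1 : P 1 = ∑ j : Fin (J + 1), Polynomial.C (v (j, 1)) * Polynomial.X ^ (j : ℕ) := by
    rw [hP]
    simp
  have hdeg : ∀ s, (P s).degree < d := by
    intro s
    rw [hP]
    simp only
    split_ifs with h
    · refine lt_of_lt_of_le (Polynomial.degree_sum_fin_lt (fun j => v (j, ⟨s, h⟩))) ?_
      exact_mod_cast hJd
    · rw [Polynomial.degree_zero]
      exact WithBot.bot_lt_coe _
  have hid : ∑ j ∈ range (1 + 1), P j * deh d F ^ j * deh d G ^ (1 - j) = 0 := by
    apply Polynomial.funext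
    intro t
    have h1 := Psi_eval F G J v ![t, 1]
    rw [hΨ, map_zero, Fintype.sum_prod_type] at h1
    simp only [Fin.sum_univ_two] at h1
    rw [Polynomial.eval_zero, h1]
    simp only [sum_range_succ, range_zero, sum_empty, zero_add, pow_zero, mul_one, pow_one,
      Nat.sub_zero, Nat.sub_self, Polynomial.eval_add, Polynomial.eval_mul]
    rw [deh_eval hF, deh_eval hG, hP0, hP1, Polynomial.eval_finsetSum, Polynomial.eval_finsetSum,
      sum_mul, sum_mul, ← sum_add_distrib]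
    refine sum_congr rfl fun j _ => ?_
    simp
    ring
  have hnd : (deh d F).natDegree = d ∨ (deh d G).natDegree = d := by
    rcases eval_ne_of_noZero h0 with h | h
    · left
      rw [← deh_coeff hF] at h
      exact le_antisymm (deh_natDegree_le d F) (Polynomial.le_natDegree_of_ne_zero h)
    · right
      rw [← deh_coeff hG] at h
      exact le_antisymm (deh_natDegree_le d G) (Polynomial.le_natDegree_of_ne_zero h)
  have hz := lin_indep' (deh_coprime hF hG h0) hnd (by omega) 1 P hdeg hid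
  have hcoef : ∀ (s : Fin 2) (j : Fin (J + 1)), v (j, s) = 0 := by
    intro s j
    have h2 : ∑ k : Fin (J + 1), Polynomial.C (v (k, s)) * Polynomial.X ^ (k : ℕ) = 0 := by
      fin_cases s
      · rw [← hz 0 (by omega), hP0]; rfl
      · rw [← hz 1 (by omega), hP1]; rfl
    have h3 := congrArg (fun q => Polynomial.coeff q (j : ℕ)) h2
    simp only [Polynomial.finsetSum_coeff, Polynomial.coeff_C_mul, Polynomial.coeff_X_pow,
      Polynomial.coeff_zero] at h3
    rw [Finset.sum_eq_single j] at h3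
    · rw [if_pos rfl, mul_one] at h3
      exact h3
    · intro b _ hb
      rw [if_neg (fun h => hb (Fin.ext h.symm)), mul_zero]
    · intro h
      exact absurd (mem_univ _) h
  funext c
  exact hcoef c.2 c.1

/-- few points if all determinants vanish -/
theorem card_le_of_dep [DecidableEq (PP ℚ)] {F G : MvPolynomial (Fin 2) ℚ} {d J : ℕ}
    (hJd : J + 1 ≤ d) (hF : F.IsHomogeneous d) (hG : G.IsHomogeneous d) (h0 : NoZero F G)
    (Y : Finset (PP ℚ))
    (hno : ∀ Z ⊆ Y, Z.card = (J + 1) * 2 →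
      ¬ LinearIndependent ℚ (fun x : Z => rowv F G J (x : PP ℚ))) : Y.card ≤ J + d := by
  classical
  obtain ⟨b, hbY, -, hspan, hli⟩ := exists_linearIndepOn_extension (K := ℚ)
    (v := rowv F G J) (s := ∅) (t := (Y : Set (PP ℚ))) (linearIndepOn_empty ℚ _)
    (Set.empty_subset _)
  obtain ⟨Z, hZb⟩ : ∃ Z : Finset (PP ℚ), (Z : Set (PP ℚ)) = b :=
    ⟨(Y.finite_toSet.subset hbY).toFinset, by simp⟩
  subst hZb
  have hZY : Z ⊆ Y := fun x hx => by exact_mod_cast hbY hx
  have hliZ : LinearIndependent ℚ (fun x : Z => rowv F G J (x : PP ℚ)) := hli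
  have hfr : Module.finrank ℚ (Rho J → ℚ) = (J + 1) * 2 := by
    rw [Module.finrank_fintype_fun_eq_card, Fintype.card_prod, Fintype.card_fin, Fintype.card_fin]
  have hle : Z.card ≤ (J + 1) * 2 := by
    have := hliZ.fintype_card_le_finrank
    rwa [hfr, Fintype.card_coe] at this
  have hlt : Z.card < (J + 1) * 2 := lt_of_le_of_ne hle fun h => hno Z hZY h hliZ
  have htop : Submodule.span ℚ (rowv F G J '' (Z : Set (PP ℚ))) < ⊤ := by
    rw [lt_top_iff_ne_top]
    intro h
    have h1 : Module.finrank ℚ (Submodule.span ℚ (rowv F G J '' (Z : Set (PP ℚ)))) =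
        (J + 1) * 2 := by
      rw [h, finrank_top, hfr]
    have h2 := finrank_span_finset_le_card (R := ℚ) (Z.image (rowv F G J))
    rw [Set.finrank, coe_image, h1] at h2
    have h3 : (Z.image (rowv F G J)).card ≤ Z.card := card_image_le
    omega
  obtain ⟨g, hg, hgker⟩ := Submodule.exists_le_ker_of_lt_top _ htop
  set v : Rho J → ℚ := fun c => g (Pi.single c 1) with hv
  have hgv : ∀ u : Rho J → ℚ, g u = ∑ c, v c * u c := by
    intro u
    have h1 : u = ∑ c, u c • (Pi.single c (1 : ℚ) : Rho J → ℚ) := by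
      ext c
      rw [Finset.sum_apply]
      simp [Pi.single_apply]
    conv_lhs => rw [h1]
    rw [map_sum]
    refine sum_congr rfl fun c _ => ?_
    rw [map_smul, smul_eq_mul, mul_comm]
  have hv0 : v ≠ 0 := by
    intro h
    apply hg
    apply LinearMap.ext
    intro u
    rw [hgv, h]
    simp
  apply card_zeros_le Y (fun P : PP ℚ => wv P)
    (fun i _ => coprime_of_ne_zero (wv_ne_zero _)) (fun i _ j _ h => dt_wv_ne h)
    (Psi_hom hF hG v) (Psi_ne_zero hJd hF hG h0 hv0)
  intro x hx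
  have h1 : g (rowv F G J x) = 0 := by
    have h2 : rowv F G J x ∈ Submodule.span ℚ (rowv F G J '' (Z : Set (PP ℚ))) :=
      hspan ⟨x, by exact_mod_cast hx, rfl⟩
    exact LinearMap.mem_ker.1 (hgker h2)
  have h2 : ev (Psi F G J v) (wv x) = MvPolynomial.eval x.rep (Psi F G J v) := ev_wv _ _
  rw [h2, Psi_eval, ← h1, hgv]
  refine sum_congr rfl fun c _ => ?_
  rfl

end Pool.Agent.T6.H83.SH
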