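import Pool.Agent.T6.H83.SH.Lin
import Pool.Agent.T6.H83.SH.Abs6
import Pool.Agent.T6.H83.RM.Con11
import Pool.Agent.T6.H83.FO.Fin

/-!
# The bound for finite invariant sets
-/

set_option autoImplicit false
set_option linter.unusedSectionVars false
set_option linter.unusedVariables false

namespace Pool.Agent.T6.H83.SH

open Finset MvPolynomial
open Pool.Agent.T6.H83.RM (aw prod_formula_log exists_supp all_degrees2 card_fibre_le en)
open Pool.Agent.H892.PGR (Phi)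
open Pool.Agent.H892.PGK (PotGood PP fX local_data)
open Pool.Agent.TH856.PG (Pr qav NoZero phi_ne_zero rep_fX)
open Pool.Agent.T6.H83.FO (NEat tail_le small_prime)

/-- the length of the tails over fixed points -/
lemma tail_bound {F G : MvPolynomial (Fin 2) ℚ} {d : ℕ} (h0 : NoZero F G) (Bd : Finset Pr)
    (hp : ∀ p ∉ Bd, PotGood (qav p) F G d) {x a : PP ℚ}
    (ha : fX F G (phi_ne_zero h0) a = a) {N : ℕ} (hx : (fX F G (phi_ne_zero h0))^[N] x = a) :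
    (fX F G (phi_ne_zero h0))^[20065 * (Bd.card + 1) ^ 4] x = a := by
  classical
  obtain ⟨p0, hp0, hp0T, hp0s⟩ := small_prime (Bd.image Subtype.val) (y := Bd.card + 1) (by
    calc (Bd.image Subtype.val).card ≤ Bd.card := card_image_le
      _ < Bd.card + 1 := Nat.lt_succ_self _
      _ ≤ (Bd.card + 1) ^ 3 := Nat.le_self_pow (by norm_num) _)
  have hp0B : (⟨p0, hp0⟩ : Pr) ∉ Bd := fun h => hp0T (mem_image.2 ⟨_, h, rfl⟩)
  have hne : ∀ p, p ∉ Bd → NEat (qav p) (fX F G (phi_ne_zero h0)) := by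
    intro p hpT
    exact local_data (phi_ne_zero h0) (hp p hpT)
  have hex : ∃ t, (fX F G (phi_ne_zero h0))^[t] x = a := ⟨N, hx⟩
  have h1 := tail_le hne (p0 := ⟨p0, hp0⟩) hp0B ha (Nat.find_spec hex)
    (fun i hi => Nat.find_min hex hi)
  have h2 : Nat.find hex ≤ 20065 * (Bd.card + 1) ^ 4 := by
    have h3 : 1 ≤ (Bd.card + 1) ^ 4 := Nat.one_le_pow _ _ (by omega)
    have h4 : (⟨p0, hp0⟩ : Pr).1 = p0 := rfl
    rw [h4] at h1
    omega
  obtain ⟨t, ht⟩ := Nat.exists_eq_add_of_le h2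
  rw [ht, add_comm, Function.iterate_add_apply, Nat.find_spec hex]
  exact Function.iterate_fixed ha t

/-- the numbers whose places matter -/
lemma exists_P₁ [DecidableEq (PP ℚ)] (F G : MvPolynomial (Fin 2) ℚ) (Bd : Finset Pr)
    (A : Finset (PP ℚ)) (b : PP ℚ → ℚ) (hb0 : ∀ x, b x ≠ 0) (J : ℕ) :
    ∃ P₁ : Finset Pr, Bd ⊆ P₁ ∧
      (∀ x ∈ A, ∀ y ∈ A, x ≠ y →
        ∑ w ∈ insertNone P₁, Real.log (aw w (RM.br x.rep y.rep)) = 0) ∧
      (∀ x ∈ A, ∑ w ∈ insertNone P₁, Real.log (aw w (b x)) = 0) ∧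
      (∀ x : Fin ((J + 1) * 2) → PP ℚ, (∀ i, x i ∈ A) → DD F G J x ≠ 0 →
        ∑ w ∈ insertNone P₁, Real.log (aw w (DD F G J x)) = 0) := by
  classical
  obtain ⟨P₀, hP₀⟩ := exists_supp (((A ×ˢ A).image (fun z => RM.br z.1.rep z.2.rep) ∪ A.image b) ∪
    (univ : Finset (Fin ((J + 1) * 2) → A)).image (fun x => DD F G J (fun i => (x i : PP ℚ))))
  refine ⟨P₀ ∪ Bd, subset_union_right, ?_, ?_, ?_⟩
  · intro x hx y hy hxy
    exact prod_formula_log (RM.br_rep_ne hxy) fun p hp => mem_union_left _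
      (hP₀ _ (mem_union_left _ (mem_union_left _ (mem_image.2 ⟨(x, y), mem_product.2 ⟨hx, hy⟩,
        rfl⟩))) (RM.br_rep_ne hxy) p hp)
  · intro x hx
    exact prod_formula_log (hb0 x) fun p hp => mem_union_left _
      (hP₀ _ (mem_union_left _ (mem_union_right _ (mem_image_of_mem b hx))) (hb0 x) p hp)
  · intro x hx hD
    exact prod_formula_log hD fun p hp => mem_union_left _
      (hP₀ _ (mem_union_right _ (mem_image.2 ⟨fun i => ⟨x i, hx i⟩, mem_univ _, rfl⟩)) hD p hp)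

/-- **the bound for finite invariant sets** -/
theorem main_inv : ∃ C : ℕ, ∀ (d : ℕ) (_ : 2 ≤ d) (F G : MvPolynomial (Fin 2) ℚ)
    (_ : F.IsHomogeneous d) (_ : G.IsHomogeneous d) (h0 : NoZero F G) (Bd : Finset Pr)
    (_ : ∀ p ∉ Bd, PotGood (qav p) F G d)
    (A : Finset (PP ℚ)) (_ : ∀ P ∈ A, fX F G (phi_ne_zero h0) P ∈ A),
    A.card ≤ d + C * (Bd.card + 1) ^ 7 ∧
    ((∃ S₁ ⊆ A, (∀ P ∈ S₁, ∃ n, 0 < n ∧ (fX F G (phi_ne_zero h0))^[n] P = P) ∧
      A.card ≤ S₁.card + C * (Bd.card + 1) ^ 3) ∨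
    ∃ c : PP ℚ, ∃ S₁ ⊆ A, (∀ P ∈ S₁, fX F G (phi_ne_zero h0) P = c) ∧
      A.card ≤ S₁.card + C * (Bd.card + 1) ^ 7) := by
  classical
  obtain ⟨C₁, hC₁⟩ := all_degrees2
  obtain ⟨q, hq⟩ := exists_nat_gt (2 * Real.exp 24)
  obtain ⟨K, hK⟩ : ∃ K : ℕ, K = (2 * q + 1) ^ 2 := ⟨_, rfl⟩
  obtain ⟨c, hc⟩ : ∃ c : ℕ, c = 1000000 + 2 * K + 1 := ⟨_, rfl⟩
  refine ⟨C₁ * c + 10 * c ^ 2 + 80260 * c + 2 * c, ?_⟩
  intro d hd F G hF hG h0 Bd hp A hA
  obtain ⟨S, hS⟩ : ∃ S : ℕ, S = Bd.card + 1 := ⟨_, rfl⟩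
  have hS1 : 1 ≤ S := by omega
  obtain ⟨k, hkd⟩ : ∃ k : ℕ, k = c * S ^ 3 := ⟨_, rfl⟩
  have hS3 : 1 ≤ S ^ 3 := Nat.one_le_pow _ _ hS1
  have hcS : 1000000 * S ^ 3 + 2 * K + 1 ≤ k := by
    rw [hkd, hc]
    have e1 : 2 * K ≤ 2 * K * S ^ 3 := Nat.le_mul_of_pos_right _ hS3
    have e2 : (1000000 + 2 * K + 1) * S ^ 3 = 1000000 * S ^ 3 + 2 * K * S ^ 3 + S ^ 3 := by ring
    omega
  -- the bounds for the constants
  have b1 : C₁ * (S ^ 3 * k) ≤ C₁ * c * S ^ 7 := by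
    rw [hkd]
    calc C₁ * (S ^ 3 * (c * S ^ 3)) = C₁ * c * S ^ 6 := by ring
      _ ≤ C₁ * c * S ^ 7 := Nat.mul_le_mul_left _ (Nat.pow_le_pow_right hS1 (by norm_num))
  have b2 : 10 * k ^ 2 ≤ 10 * c ^ 2 * S ^ 7 := by
    rw [hkd]
    calc 10 * (c * S ^ 3) ^ 2 = 10 * c ^ 2 * S ^ 6 := by ring
      _ ≤ 10 * c ^ 2 * S ^ 7 := Nat.mul_le_mul_left _ (Nat.pow_le_pow_right hS1 (by norm_num))
  have b3 : 4 * (k * (20065 * S ^ 4)) = 80260 * c * S ^ 7 := by rw [hkd]; ring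
  have b4 : k ≤ c * S ^ 7 := by
    rw [hkd]
    exact Nat.mul_le_mul_left _ (Nat.pow_le_pow_right hS1 (by norm_num))
  have b5 : (C₁ * c + 10 * c ^ 2 + 80260 * c + 2 * c) * S ^ 7 = C₁ * c * S ^ 7 +
      10 * c ^ 2 * S ^ 7 + 80260 * c * S ^ 7 + 2 * (c * S ^ 7) := by ring
  have b6 : k ≤ (C₁ * c + 10 * c ^ 2 + 80260 * c + 2 * c) * S ^ 3 := by
    rw [hkd]
    exact Nat.mul_le_mul_right _ (by omega)
  rcases A.eq_empty_or_nonempty with hAe | hAne
  · rw [hAe]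
    exact ⟨by simp, Or.inl ⟨∅, by simp, by simp, by simp⟩⟩
  obtain ⟨N, hN1, hN⟩ := exists_idem hA
  -- the places
  have hlg : ∀ p : Pr, ∃ l' : (Fin 2 → ℚ) → ℝ, p ∉ Bd → GoodD (qav p) F G d l' := by
    intro p
    by_cases hpb : p ∈ Bd
    · exact ⟨fun _ => 0, fun h => absurd hpb h⟩
    · obtain ⟨l', hl'⟩ := exists_goodD (hp p hpb)
      exact ⟨l', fun _ => hl'⟩
  choose lg hlg using hlg
  choose b hb0 hb using fun P : PP ℚ => rep_fX (phi_ne_zero h0) P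
  obtain ⟨J, hJ⟩ : ∃ J : ℕ, J + 1 = k := ⟨k - 1, by omega⟩
  obtain ⟨P₁, hBP, hsupp, hsuppb, hsuppD⟩ := exists_P₁ F G Bd A b hb0 J
  have s := exists_sy0 (Bd := Bd) (P₁ := P₁) (lg := lg) (fun p hpb => hlg p hpb) h0 hBP A hA
    hsupp hq
  rw [← hK, ← hS] at s
  have hkS : 1000000 * S ^ 3 ≤ k := by omega
  have hkK : 2 * K < k := by omega
  rw [← hS]
  rcases s.excl_per hN hkS hkK with hper | htl
  · -- few periodic points
    obtain ⟨a, haA, h1⟩ := s.tails (J := 20065 * S ^ 4) hAne hN (by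
      intro x _ a ha hx
      rw [hS]
      exact tail_bound h0 Bd hp ha hx) hkS hkK hper
    rw [b3] at h1
    have h2 := card_fibre_le (by omega) hF hG h0 A a
    have h3 : (A.filter (fun x => fX F G (phi_ne_zero h0) x = a)).card ≤ d := h2
    refine ⟨by omega, Or.inr ⟨a, A.filter (fun x => fX F G (phi_ne_zero h0) x = a), filter_subset _ _,
      fun P hP => (mem_filter.1 hP).2, by omega⟩⟩
  · -- few other points
    have hpart := card_filter_add_card_filter_not (s := A) (fun x => (fX F G (phi_ne_zero h0))^[N] x = x)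
    refine ⟨?_, Or.inl ⟨A.filter (fun x => (fX F G (phi_ne_zero h0))^[N] x = x), filter_subset _ _,
      fun P hP => ⟨N, hN1, (mem_filter.1 hP).2⟩, by omega⟩⟩
    by_cases hJd : J + 1 ≤ d
    · have hdep := card_le_of_dep hJd hF hG h0 (A.filter (fun x => (fX F G (phi_ne_zero h0))^[N] x = x)) (by
        intro Z hZ hZc hli
        have hZA : Z ⊆ A := hZ.trans (filter_subset _ _)
        have hZp : ∀ x ∈ Z, (fX F G (phi_ne_zero h0))^[N] x = x := fun x hx => (mem_filter.1 (hZ hx)).2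
        refine s.det_contra hZA hZc (by omega) (by omega) ?_ ?_ ?_
        · intro x hx y hy hxy
          by_contra hne
          exact (s.per_r hN1 (hZA hx) (hZA hy) (hZp x hx) (hZp y hy) hne).1 hxy
        · intro x hx y hy hxy
          exact (s.per_r hN1 (hZA hx) (hZA hy) (hZp x hx) (hZp y hy) hxy).2
        · intro φ φ'
          exact det_ineq (fun p hpb => hlg p hpb) h0 hBP A b hb0 hb hsuppb hsuppD Z hZA hZc hli
            φ φ')
      omega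
    · have h1 := hC₁ d hd F G hF hG h0 Bd hp A hA
      rw [← hS] at h1
      have h2 : C₁ * (S ^ 3 * d) ≤ C₁ * (S ^ 3 * k) :=
        Nat.mul_le_mul_left _ (Nat.mul_le_mul_left _ (by omega))
      omega

end Pool.Agent.T6.H83.SH
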